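import Mathlib

/-!
# 4-homogeneous latin squares: definitions, transport, products, isotopy
-/

namespace Pool.Agent.H4

/-- `L` is a latin square with rows, columns and symbols indexed by `α`: every symbol occurs
exactly once in each row and exactly once in each column. -/
def IsLatinSquare {α : Type*} (L : α → α → α) : Prop :=
  (∀ r s, ∃! c, L r c = s) ∧ (∀ c s, ∃! r, L r c = s)

/-- `S` is the set of the four cells of an intercalate of `L`. -/
def IsIntercalate {α : Type*} (L : α → α → α) (S : Set (α × α)) : Prop :=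
  ∃ r r' c c' : α, r ≠ r' ∧ c ≠ c' ∧ L r c = L r' c' ∧ L r c' = L r' c ∧
    S = {(r, c), (r, c'), (r', c), (r', c')}

/-- Every cell of `L` belongs to exactly `h` intercalates. -/
def IsHomogeneous {α : Type*} (h : ℕ) (L : α → α → α) : Prop :=
  ∀ p : α × α, Nat.card {S : Set (α × α) // IsIntercalate L S ∧ p ∈ S} = h

/-- The opposite corners of the intercalates through a cell. -/
def Corner {α : Type*} (L : α → α → α) (r c : α) (q : α × α) : Prop :=
  r ≠ q.1 ∧ c ≠ q.2 ∧ L r c = L q.1 q.2 ∧ L r q.2 = L q.1 c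

theorem card_through {α : Type*} (L : α → α → α) (r c : α) :
    Nat.card {S : Set (α × α) // IsIntercalate L S ∧ (r, c) ∈ S} =
      Nat.card {q : α × α // Corner L r c q} := by
  symm
  refine Nat.card_congr (Equiv.ofBijective (fun q => ⟨{(r, c), (r, q.1.2), (q.1.1, c),
    (q.1.1, q.1.2)}, ⟨r, q.1.1, c, q.1.2, q.2.1, q.2.2.1, q.2.2.2.1, q.2.2.2.2, rfl⟩,
    by simp⟩) ⟨?_, ?_⟩)
  · rintro ⟨⟨a, b⟩, hq⟩ ⟨⟨a', b'⟩, hq'⟩ h
    have h1 : ({(r, c), (r, b), (a, c), (a, b)} : Set (α × α)) =
      {(r, c), (r, b'), (a', c), (a', b')} := congrArg Subtype.val h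
    obtain ⟨h2, h3, -, -⟩ := hq
    obtain ⟨h2', h3', -, -⟩ := hq'
    have h4 : (a, b) ∈ ({(r, c), (r, b'), (a', c), (a', b')} : Set (α × α)) := by
      rw [← h1]; simp
    simp only [Set.mem_insert_iff, Set.mem_singleton_iff, Prod.mk.injEq] at h4
    simp only at h2 h3 h2' h3'
    rcases h4 with ⟨h5, h6⟩ | ⟨h5, h6⟩ | ⟨h5, h6⟩ | ⟨h5, h6⟩
    · exact absurd h5.symm h2
    · exact absurd h5.symm h2
    · exact absurd h6.symm h3
    · subst h5; subst h6; rfl
  · rintro ⟨S, ⟨a, a', b, b', h1, h2, h3, h4, rfl⟩, hm⟩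
    simp only [Set.mem_insert_iff, Set.mem_singleton_iff, Prod.mk.injEq] at hm
    rcases hm with ⟨rfl, rfl⟩ | ⟨rfl, rfl⟩ | ⟨rfl, rfl⟩ | ⟨rfl, rfl⟩
    · exact ⟨⟨(a', b'), h1, h2, h3, h4⟩, rfl⟩
    · refine ⟨⟨(a', b), h1, h2.symm, h4, h3⟩, Subtype.ext ?_⟩
      ext x; simp only [Set.mem_insert_iff, Set.mem_singleton_iff]; tauto
    · refine ⟨⟨(a, b'), h1.symm, h2, h4.symm, h3.symm⟩, Subtype.ext ?_⟩
      ext x; simp only [Set.mem_insert_iff, Set.mem_singleton_iff]; tauto
    · refine ⟨⟨(a, b), h1.symm, h2.symm, h3.symm, h4.symm⟩, Subtype.ext ?_⟩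
      ext x; simp only [Set.mem_insert_iff, Set.mem_singleton_iff]; tauto

theorem isHomogeneous_iff {α : Type*} (h : ℕ) (L : α → α → α) :
    IsHomogeneous h L ↔ ∀ r c, Nat.card {q : α × α // Corner L r c q} = h := by
  constructor
  · intro H r c
    rw [← card_through]; exact H (r, c)
  · rintro H ⟨r, c⟩
    rw [card_through]; exact H r c

/-- Transport of a square along an equivalence. -/
def transport {α β : Type*} (e : α ≃ β) (L : α → α → α) : β → β → β :=
  fun r c => e (L (e.symm r) (e.symm c))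

theorem transport_latin {α β : Type*} (e : α ≃ β) {L : α → α → α} (h : IsLatinSquare L) :
    IsLatinSquare (transport e L) := by
  constructor
  · intro r s
    obtain ⟨c, hc, hu⟩ := h.1 (e.symm r) (e.symm s)
    refine ⟨e c, by simp [transport, hc], fun c' hc' => ?_⟩
    have : e.symm c' = c := hu _ (by
      have h1 : e (L (e.symm r) (e.symm c')) = s := hc'
      show L (e.symm r) (e.symm c') = e.symm s
      rw [← h1]; simp)
    rw [← this]; simp
  · intro c s
    obtain ⟨r, hr, hu⟩ := h.2 (e.symm c) (e.symm s)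
    refine ⟨e r, by simp [transport, hr], fun r' hr' => ?_⟩
    have : e.symm r' = r := hu _ (by
      have h1 : e (L (e.symm r') (e.symm c)) = s := hr'
      show L (e.symm r') (e.symm c) = e.symm s
      rw [← h1]; simp)
    rw [← this]; simp

theorem transport_homogeneous {α β : Type*} (e : α ≃ β) {L : α → α → α} {h : ℕ}
    (H : IsHomogeneous h L) : IsHomogeneous h (transport e L) := by
  rw [isHomogeneous_iff] at H ⊢
  intro r c
  rw [← H (e.symm r) (e.symm c)]
  refine Nat.card_congr ((Equiv.prodCongr e.symm e.symm).subtypeEquiv ?_)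
  rintro ⟨a, b⟩
  simp [Corner, transport]

/-- The direct product of two squares. -/
def prodSquare {α β : Type*} (L : α → α → α) (M : β → β → β) : α × β → α × β → α × β :=
  fun r c => (L r.1 c.1, M r.2 c.2)

theorem prod_latin {α β : Type*} {L : α → α → α} {M : β → β → β} (hL : IsLatinSquare L)
    (hM : IsLatinSquare M) : IsLatinSquare (prodSquare L M) := by
  constructor
  · rintro ⟨r, r'⟩ ⟨s, s'⟩
    obtain ⟨c, hc, hu⟩ := hL.1 r s
    obtain ⟨c', hc', hu'⟩ := hM.1 r' s'
    refine ⟨(c, c'), by simp only [prodSquare, hc, hc'], ?_⟩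
    rintro ⟨d, d'⟩ hd
    simp only [prodSquare, Prod.mk.injEq] at hd
    rw [hu d hd.1, hu' d' hd.2]
  · rintro ⟨c, c'⟩ ⟨s, s'⟩
    obtain ⟨r, hr, hu⟩ := hL.2 c s
    obtain ⟨r', hr', hu'⟩ := hM.2 c' s'
    refine ⟨(r, r'), by simp only [prodSquare, hr, hr'], ?_⟩
    rintro ⟨d, d'⟩ hd
    simp only [prodSquare, Prod.mk.injEq] at hd
    rw [hu d hd.1, hu' d' hd.2]

/-- The direct product with a square without intercalates keeps homogeneity. -/
theorem prod_homogeneous {α β : Type*} {L : α → α → α} {M : β → β → β} {h : ℕ}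
    (hM : IsLatinSquare M) (hM0 : ∀ r c q, ¬ Corner M r c q) (H : IsHomogeneous h L) :
    IsHomogeneous h (prodSquare L M) := by
  rw [isHomogeneous_iff] at H ⊢
  rintro ⟨r, r'⟩ ⟨c, c'⟩
  rw [← H r c]
  symm
  refine Nat.card_congr (Equiv.ofBijective (fun q => ⟨((q.1.1, r'), (q.1.2, c')), ?_⟩) ⟨?_, ?_⟩)
  · obtain ⟨h1, h2, h3, h4⟩ := q.2
    refine ⟨fun h => h1 (congrArg Prod.fst h), fun h => h2 (congrArg Prod.fst h), ?_, ?_⟩
    · simp only [prodSquare, h3]
    · simp only [prodSquare, h4]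
  · rintro ⟨⟨a, b⟩, hq⟩ ⟨⟨a', b'⟩, hq'⟩ h
    have h1 := congrArg Subtype.val h
    simp only [Prod.mk.injEq] at h1
    obtain ⟨⟨rfl, -⟩, ⟨rfl, -⟩⟩ := h1
    rfl
  · rintro ⟨⟨⟨a, a'⟩, ⟨b, b'⟩⟩, h1, h2, h3, h4⟩
    simp only [prodSquare, Prod.mk.injEq] at h1 h2 h3 h4
    have haux : r' = a' ∧ c' = b' := by
      by_cases hr : r' = a'
      · subst hr
        refine ⟨rfl, ?_⟩
        obtain ⟨x, -, hu⟩ := hM.1 r' (M r' c')
        rw [hu c' rfl, hu b' h3.2.symm]
      · by_cases hc : c' = b'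
        · subst hc
          exfalso
          apply hr
          obtain ⟨x, -, hu⟩ := hM.2 c' (M r' c')
          rw [hu r' rfl, hu a' h3.2.symm]
        · exact absurd ⟨hr, hc, h3.2, h4.2⟩ (hM0 r' c' (a', b'))
    obtain ⟨rfl, rfl⟩ := haux
    have h5 : r ≠ a := fun h => h1 (by rw [h])
    have h6 : c ≠ b := fun h => h2 (by rw [h])
    exact ⟨⟨(a, b), h5, h6, h3.1, h4.1⟩, rfl⟩

theorem zmod_latin (m : ℕ) : IsLatinSquare (fun a b : ZMod m => a + b) := by
  constructor
  · intro r s
    exact ⟨s - r, by ring, fun c hc => by rw [← hc]; ring⟩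
  · intro c s
    exact ⟨s - c, by ring, fun r hr => by rw [← hr]; ring⟩

theorem zmod_corner (m : ℕ) (hm : Odd m) (r c : ZMod m) (q : ZMod m × ZMod m) :
    ¬ Corner (fun a b : ZMod m => a + b) r c q := by
  rintro ⟨h1, -, h2, h3⟩
  apply h1
  simp only at h2 h3
  have h4 : 2 * (r - q.1) = 0 := by linear_combination h2 + h3
  have h5 : IsUnit (2 : ZMod m) := by
    have := (ZMod.isUnit_iff_coprime 2 m).2 (Nat.coprime_two_left.2 hm)
    simpa using this
  have h6 := (h5.mul_right_eq_zero).1 h4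
  exact sub_eq_zero.1 h6


/-- Isotopic squares: rows, columns and symbols are renamed by three bijections. -/
theorem isotopic_latin {α β : Type*} (A B C : α ≃ β) {L : α → α → α} {M : β → β → β}
    (h : ∀ r c, C (L r c) = M (A r) (B c)) (hM : IsLatinSquare M) : IsLatinSquare L := by
  constructor
  · intro r s
    obtain ⟨c, hc, hu⟩ := hM.1 (A r) (C s)
    refine ⟨B.symm c, ?_, fun c' hc' => ?_⟩
    · apply C.injective
      simp only [h, Equiv.apply_symm_apply, hc]
    · have h1 : M (A r) (B c') = C s := by rw [← h, hc']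
      rw [← hu _ h1, Equiv.symm_apply_apply]
  · intro c s
    obtain ⟨r, hr, hu⟩ := hM.2 (B c) (C s)
    refine ⟨A.symm r, ?_, fun r' hr' => ?_⟩
    · apply C.injective
      simp only [h, Equiv.apply_symm_apply, hr]
    · have h1 : M (A r') (B c) = C s := by rw [← h, hr']
      rw [← hu _ h1, Equiv.symm_apply_apply]

theorem isotopic_corner {α β : Type*} (A B C : α ≃ β) {L : α → α → α} {M : β → β → β}
    (h : ∀ r c, C (L r c) = M (A r) (B c)) (r c : α) (q : α × α) :
    Corner L r c q ↔ Corner M (A r) (B c) (A q.1, B q.2) := by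
  unfold Corner
  simp only [← h]
  simp

theorem isotopic_homogeneous {α β : Type*} (A B C : α ≃ β) {L : α → α → α} {M : β → β → β}
    (h : ∀ r c, C (L r c) = M (A r) (B c)) {k : ℕ} (hM : IsHomogeneous k M) :
    IsHomogeneous k L := by
  rw [isHomogeneous_iff] at hM ⊢
  intro r c
  rw [← hM (A r) (B c)]
  exact Nat.card_congr ((Equiv.prodCongr A B).subtypeEquiv (fun q => isotopic_corner A B C h r c q))

/-- There is a 4-homogeneous latin square of order `n`. -/
def Ord4 (n : ℕ) : Prop :=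
  ∃ L : Fin n → Fin n → Fin n, IsLatinSquare L ∧ IsHomogeneous 4 L

/-- There is a latin square of order `n` without intercalates. -/
def N2 (n : ℕ) : Prop :=
  ∃ L : Fin n → Fin n → Fin n, IsLatinSquare L ∧ ∀ r c q, ¬ Corner L r c q

theorem corner_transport {α β : Type*} (e : α ≃ β) (L : α → α → α) (r c : β) (q : β × β) :
    Corner (transport e L) r c q ↔ Corner L (e.symm r) (e.symm c) (e.symm q.1, e.symm q.2) := by
  simp [Corner, transport]

theorem ord4_of {α : Type*} [Fintype α] {L : α → α → α} (h1 : IsLatinSquare L)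
    (h2 : IsHomogeneous 4 L) : Ord4 (Fintype.card α) :=
  ⟨transport (Fintype.equivFin α) L, transport_latin _ h1, transport_homogeneous _ h2⟩

theorem n2_of {α : Type*} [Fintype α] {L : α → α → α} (h1 : IsLatinSquare L)
    (h2 : ∀ r c q, ¬ Corner L r c q) : N2 (Fintype.card α) :=
  ⟨transport (Fintype.equivFin α) L, transport_latin _ h1, fun r c q h =>
    h2 _ _ _ ((corner_transport _ _ _ _ _).1 h)⟩

theorem Ord4.mul {a b : ℕ} (ha : Ord4 a) (hb : N2 b) : Ord4 (a * b) := by
  obtain ⟨L, hL, hL4⟩ := ha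
  obtain ⟨M, hM, hM0⟩ := hb
  have := ord4_of (prod_latin hL hM) (prod_homogeneous hM hM0 hL4)
  simpa using this

theorem n2_odd {m : ℕ} (hm : Odd m) : N2 m := by
  have : NeZero m := ⟨by rintro rfl; simp at hm⟩
  have := n2_of (zmod_latin m) (zmod_corner m hm)
  simpa [ZMod.card] using this

theorem Ord4.mul_odd {a b : ℕ} (ha : Ord4 a) (hb : Odd b) : Ord4 (a * b) := ha.mul (n2_odd hb)

/-- A 4-frame of type `1^n`: an idempotent latin square in which every off-diagonal cell is in
exactly four intercalates and no diagonal cell is in an intercalate. -/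
structure IsFrame {α : Type*} (F : α → α → α) : Prop where
  latin : IsLatinSquare F
  idem : ∀ i, F i i = i
  off : ∀ i j, i ≠ j → Nat.card {q : α × α // Corner F i j q} = 4
  diag : ∀ i q, ¬ Corner F i i q

/-- There is a 4-frame on `n` points. -/
def Frame (n : ℕ) : Prop := ∃ F : Fin n → Fin n → Fin n, IsFrame F

theorem IsFrame.transport {α β : Type*} (e : α ≃ β) {F : α → α → α} (h : IsFrame F) :
    IsFrame (transport e F) where
  latin := transport_latin e h.latin
  idem i := by simp [H4.transport, h.idem]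
  off i j hij := by
    rw [← h.off (e.symm i) (e.symm j) (fun h' => hij (e.symm.injective h'))]
    refine Nat.card_congr ((Equiv.prodCongr e.symm e.symm).subtypeEquiv ?_)
    rintro ⟨a, b⟩
    simp [Corner, H4.transport]
  diag i q hq := h.diag _ _ ((corner_transport _ _ _ _ _).1 hq)

theorem frame_of {α : Type*} [Fintype α] {F : α → α → α} (h : IsFrame F) :
    Frame (Fintype.card α) :=
  ⟨_, h.transport (Fintype.equivFin α)⟩

/-- A frame on any type of the right cardinality. -/
theorem Frame.on {n : ℕ} (h : Frame n) (α : Type*) [Fintype α] (hα : Fintype.card α = n) :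
    ∃ F : α → α → α, IsFrame F := by
  obtain ⟨F, hF⟩ := h
  subst hα
  exact ⟨_, hF.transport (Fintype.equivFin α).symm⟩

end Pool.Agent.H4
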