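import Pool.Agent.H4.Basic

/-!
# The 4-homogeneous latin square of order `q^3` over a field with `q` elements, `q` odd
-/

namespace Pool.Agent.H4

section
variable {F : Type} [Field F]

/-- Rows `(x,u,v)`, columns `(y,s,t)`, symbol `(b, s - x + y b, v - y + x b)` with
`b = t + u + x y`. -/
def cubeL (r c : F × F × F) : F × F × F :=
  (c.2.2 + r.2.1 + r.1 * c.1, c.2.1 - r.1 + c.1 * (c.2.2 + r.2.1 + r.1 * c.1),
    r.2.2 - c.1 + r.1 * (c.2.2 + r.2.1 + r.1 * c.1))

theorem cubeL_latin : IsLatinSquare (cubeL (F := F)) := by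
  constructor
  · rintro ⟨x, u, v⟩ ⟨b, σ, τ⟩
    refine ⟨(v + x * b - τ, σ + x - (v + x * b - τ) * b, b - u - x * (v + x * b - τ)), ?_, ?_⟩
    · simp only [cubeL, Prod.mk.injEq]
      refine ⟨by ring, by ring, by ring⟩
    · rintro ⟨y, s, t⟩ h
      simp only [cubeL, Prod.mk.injEq] at h ⊢
      obtain ⟨h1, h2, h3⟩ := h
      rw [h1] at h2 h3
      have hy : y = v + x * b - τ := by linear_combination -h3
      refine ⟨hy, ?_, ?_⟩
      · rw [← hy]; linear_combination h2
      · rw [← hy]; linear_combination h1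
  · rintro ⟨y, s, t⟩ ⟨b, σ, τ⟩
    refine ⟨(s + y * b - σ, b - t - (s + y * b - σ) * y, τ + y - (s + y * b - σ) * b), ?_, ?_⟩
    · simp only [cubeL, Prod.mk.injEq]
      refine ⟨by ring, by ring, by ring⟩
    · rintro ⟨x, u, v⟩ h
      simp only [cubeL, Prod.mk.injEq] at h ⊢
      obtain ⟨h1, h2, h3⟩ := h
      rw [h1] at h2 h3
      have hx : x = s + y * b - σ := by linear_combination -h2
      refine ⟨hx, ?_, ?_⟩
      · rw [← hx]; linear_combination h1
      · rw [← hx]; linear_combination h3

/-- `2` or `-2`. -/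
def sg (a : Bool) : F := if a then 2 else -2

/-- The four corners. -/
def crn (r c : F × F × F) (ab : Bool × Bool) : (F × F × F) × (F × F × F) :=
  ((r.1 - sg ab.1, r.2.1 + sg ab.1 * c.1 - sg ab.1 * sg ab.2 / 2,
    r.2.2 - sg ab.2 + sg ab.1 * (c.2.2 + r.2.1 + r.1 * c.1)),
   (c.1 - sg ab.2, c.2.1 - sg ab.1 + sg ab.2 * (c.2.2 + r.2.1 + r.1 * c.1),
    c.2.2 + r.1 * sg ab.2 - sg ab.1 * sg ab.2 / 2))

theorem sg_sq (a : Bool) : (sg a : F) ^ 2 = 4 := by
  cases a <;> simp [sg] <;> norm_num

theorem exists_sg {X : F} (h : X ^ 2 = 4) : ∃ a : Bool, X = sg a := by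
  have h1 : (X - 2) * (X + 2) = 0 := by linear_combination h
  rcases mul_eq_zero.1 h1 with h2 | h2
  · exact ⟨true, by simp [sg]; linear_combination h2⟩
  · exact ⟨false, by simp [sg]; linear_combination h2⟩

theorem corner_cube (h2 : (2 : F) ≠ 0) (r c : F × F × F) (q : (F × F × F) × (F × F × F)) :
    Corner cubeL r c q ↔ ∃ ab : Bool × Bool, q = crn r c ab := by
  obtain ⟨x, u, v⟩ := r
  obtain ⟨y, s, t⟩ := c
  obtain ⟨⟨x', u', v'⟩, ⟨y', s', t'⟩⟩ := q
  have h4 : (4 : F) ≠ 0 := by
    have : (4 : F) = 2 * 2 := by norm_num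
    rw [this]; exact mul_ne_zero h2 h2
  constructor
  · rintro ⟨h1, -, e1, e2⟩
    simp only [cubeL, Prod.mk.injEq] at e1 e2
    obtain ⟨a1, a2, a3⟩ := e1
    obtain ⟨b1, b2, b3⟩ := e2
    -- X = x - x', Y = y - y', b = t+u+xy
    have hu : 2 * (u' - u) = (x - x') * (y + y') := by linear_combination -a1 - b1
    have ht : 2 * (t' - t) = (x + x') * (y - y') := by linear_combination -a1 + b1
    have hbc : 2 * ((t + u + x * y) - (t' + u + x * y')) = (x - x') * (y - y') := by
      linear_combination -ht
    rw [← a1] at a2 a3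
    rw [← b1] at b2 b3
    have hX : (x - x') * (4 - (y - y') ^ 2) = 0 := by
      linear_combination -2 * a2 - 2 * b2 + (y - y') * hbc
    have hY : (y - y') * (4 - (x - x') ^ 2) = 0 := by
      linear_combination -2 * a3 + 2 * b3 + (x - x') * hbc
    have hXne : x - x' ≠ 0 := by
      intro h0
      have hY0 : y - y' = 0 := by
        rw [h0] at hY
        rcases mul_eq_zero.1 hY with h | h
        · exact h
        · exfalso; apply h4; linear_combination h
      apply h1
      have hu0 : u' - u = 0 := by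
        have : 2 * (u' - u) = 0 := by rw [hu, h0]; ring
        exact (mul_eq_zero.1 this).resolve_left h2
      have hv0 : v = v' := by
        linear_combination a3 + hY0 - (t + u + x * y) * h0
      exact Prod.ext (by linear_combination h0) (Prod.ext (by linear_combination -hu0) hv0)
    have hYne : y - y' ≠ 0 := by
      intro h0
      rw [h0] at hX
      rcases mul_eq_zero.1 hX with h | h
      · exact hXne h
      · apply h4; linear_combination h
    have hX2 : (x - x') ^ 2 = 4 := by
      have := (mul_eq_zero.1 hY).resolve_left hYne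
      linear_combination -this
    have hY2 : (y - y') ^ 2 = 4 := by
      have := (mul_eq_zero.1 hX).resolve_left hXne
      linear_combination -this
    obtain ⟨a, ha⟩ := exists_sg hX2
    obtain ⟨b, hb⟩ := exists_sg hY2
    refine ⟨(a, b), ?_⟩
    simp only [crn, Prod.mk.injEq]
    rw [← ha, ← hb]
    refine ⟨⟨by ring, ?_, ?_⟩, ⟨by ring, ?_, ?_⟩⟩
    · apply mul_left_cancel₀ h2
      field_simp
      linear_combination hu
    · linear_combination -a3
    · linear_combination -a2
    · apply mul_left_cancel₀ h2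
      field_simp
      linear_combination ht
  · rintro ⟨⟨a, b⟩, hq⟩
    simp only [crn, Prod.mk.injEq] at hq
    obtain ⟨⟨rfl, rfl, rfl⟩, ⟨rfl, rfl, rfl⟩⟩ := hq
    have ha := sg_sq (F := F) a
    have hb := sg_sq (F := F) b
    have hane : (sg a : F) ≠ 0 := by
      intro h; rw [h] at ha; apply h4; rw [← ha]; ring
    have hbne : (sg b : F) ≠ 0 := by
      intro h; rw [h] at hb; apply h4; rw [← hb]; ring
    set X : F := sg a
    set Y : F := sg b
    refine ⟨?_, ?_, ?_, ?_⟩
    · intro h
      have := congrArg Prod.fst h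
      simp only at this
      apply hane
      linear_combination this
    · intro h
      have := congrArg Prod.fst h
      simp only at this
      apply hbne
      linear_combination this
    · simp only [cubeL, Prod.mk.injEq]
      refine ⟨?_, ?_, ?_⟩
      · field_simp; ring
      · field_simp; ring
      · field_simp; ring
    · simp only [cubeL, Prod.mk.injEq]
      refine ⟨?_, ?_, ?_⟩
      · field_simp; ring
      · field_simp; linear_combination X * hb
      · field_simp; linear_combination -Y * ha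

theorem crn_injective (h2 : (2 : F) ≠ 0) (r c : F × F × F) :
    Function.Injective (crn r c) := by
  rintro ⟨a, b⟩ ⟨a', b'⟩ h
  simp only [crn, Prod.mk.injEq] at h
  obtain ⟨⟨h1, -, -⟩, ⟨h3, -, -⟩⟩ := h
  have h4 : (2 : F) ≠ -2 := by
    intro h
    have : (2 : F) * 2 = 0 := by linear_combination h
    rcases mul_eq_zero.1 this with h | h <;> exact h2 h
  have key : ∀ a a' : Bool, (sg a : F) = sg a' → a = a' := by
    intro a a' h
    cases a <;> cases a' <;> simp [sg] at h ⊢
    · exact absurd h.symm h4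
    · exact absurd h h4
  rw [key a a' (by linear_combination -h1), key b b' (by linear_combination -h3)]

theorem cubeL_homogeneous (h2 : (2 : F) ≠ 0) : IsHomogeneous 4 (cubeL (F := F)) := by
  rw [isHomogeneous_iff]
  intro r c
  have e : Bool × Bool ≃ {q : (F × F × F) × (F × F × F) // Corner cubeL r c q} :=
    Equiv.ofBijective (fun ab => ⟨crn r c ab, (corner_cube h2 r c _).2 ⟨ab, rfl⟩⟩)
      ⟨fun a b h => crn_injective h2 r c (congrArg Subtype.val h),
        fun q => by
          obtain ⟨ab, hab⟩ := (corner_cube h2 r c _).1 q.2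
          exact ⟨ab, Subtype.ext hab.symm⟩⟩
  rw [← Nat.card_congr e]
  simp

end

theorem ord4_cube {p : ℕ} (hp : p.Prime) (hp2 : p ≠ 2) : Ord4 (p ^ 3) := by
  have : Fact p.Prime := ⟨hp⟩
  have h2 : (2 : ZMod p) ≠ 0 := by
    intro h
    have h1 : ((2 : ℕ) : ZMod p) = 0 := by exact_mod_cast h
    have h2 := (ZMod.natCast_eq_zero_iff 2 p).1 h1
    exact hp2 ((Nat.prime_dvd_prime_iff_eq hp Nat.prime_two).1 h2)
  have := ord4_of (cubeL_latin (F := ZMod p)) (cubeL_homogeneous h2)
  simp only [Fintype.card_prod, ZMod.card] at this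
  rwa [show p * (p * p) = p ^ 3 by ring] at this

end Pool.Agent.H4
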