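import Pool.Agent.H4.Basic

/-!
# [H4-E8] Orders `8 k` (Abrham-Kotzig)

PROOF (checked by computer for `k <= 6`).  Let `H = ZMod 2 × ZMod (2 * k)` (order `4 k`; exactly
three elements of order 2: `(1,0), (0,k), (1,k)`).  Let `θ : H → H` be (`b` taken as a natural number
`< 2k`, i.e. `ZMod.val`)
`θ (0,b) = (0,b)`, `θ (1,b) = (1,b+1)` for `b < k`,
`θ (0,b) = (1,b+1)`, `θ (1,b) = (0,b)` for `k ≤ b < 2k`.
`θ` is bijective and `h ↦ θ h + h` is bijective: its values are `(0,2b)` [for `(0,b)`, `b<k`], `(0,2b+1)`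
[for `(1,b)`, `b<k`], `(1,2b+1)` [for `(0,b)`, `b≥k`], `(1,2b)` [for `(1,b)`, `b≥k`], `2b, 2b+1` mod `2k`.
On `ZMod 2 × H` define `L (i,x) (j,y) = (i + j, x + (if i = j then θ y else y))`.
Latin: clear (`θ` bijective).  Corners `((i',x'),(j',y'))` at the cell `((i,x),(j,y))`: from the first
coordinates `i + j = i' + j'`, so `i = i'` iff `j = j'`.
* `i' = i`, `j' = j`: with `φ = θ` or `id` (the same for the four cells) `x + φ y = x' + φ y'` and
  `x + φ y' = x' + φ y`, so `2 (x - x') = 0` and `φ y' = φ y + (x - x')`: exactly one corner for each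
  of the three `x - x'` of order 2 (`x' ≠ x` is required).
* `i' = i + 1`, `j' = j + 1`: with `{φ, ψ} = {θ, id}`, `x + φ y = x' + φ y'`, `x + ψ y' = x' + ψ y`, so
  `φ y - φ y' = x' - x = ψ y' - ψ y`, so `(θ + id) y = (θ + id) y'`, `y' = y`, `x' = x`: exactly one corner
  `((i+1, x), (j+1, y))`.
So 4 corners.  (`card = 2 * (2 * (2k)) = 8k`.)
-/

namespace Pool.Agent.H4

section eight

variable {H : Type} [AddCommGroup H]

/-- the permutation used at the cell with first coordinates `i, j` -/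
def e8E (θ : H ≃ H) (i j : ZMod 2) : H ≃ H := if i = j then θ else Equiv.refl H

/-- the square -/
def e8L (θ : H ≃ H) (r c : ZMod 2 × H) : ZMod 2 × H := (r.1 + c.1, r.2 + e8E θ r.1 c.1 c.2)

theorem e8E_shift (θ : H ≃ H) (i j : ZMod 2) : e8E θ (i + 1) (j + 1) = e8E θ i j := by
  unfold e8E
  simp only [add_left_inj]

theorem e8E_cross (θ : H ≃ H) (i j : ZMod 2) (y : H) :
    e8E θ i j y + e8E θ i (j + 1) y = θ y + y ∧ e8E θ (i + 1) j = e8E θ i (j + 1) := by
  unfold e8E
  have h : (i = j ∧ i ≠ j + 1 ∧ i + 1 ≠ j) ∨ (i ≠ j ∧ i = j + 1 ∧ i + 1 = j) := by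
    revert i j; decide
  rcases h with ⟨h1, h2, h3⟩ | ⟨h1, h2, h3⟩
  · rw [if_pos h1, if_neg h2, if_neg h3]
    exact ⟨rfl, rfl⟩
  · rw [if_neg h1, if_pos h2, if_pos h3]
    exact ⟨add_comm _ _, rfl⟩

theorem e8_latin (θ : H ≃ H) : IsLatinSquare (e8L θ) := by
  constructor
  · rintro ⟨i, x⟩ ⟨m, s⟩
    refine ⟨(m - i, (e8E θ i (m - i)).symm (s - x)), ?_, ?_⟩
    · simp [e8L]
    · rintro ⟨j, y⟩ h
      simp only [e8L, Prod.mk.injEq] at h
      obtain ⟨h1, h2⟩ := h
      have h3 : j = m - i := by rw [← h1]; ring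
      subst h3
      rw [Prod.mk.injEq]
      refine ⟨rfl, ?_⟩
      rw [Equiv.eq_symm_apply, ← h2]
      abel
  · rintro ⟨j, y⟩ ⟨m, s⟩
    refine ⟨(m - j, s - e8E θ (m - j) j y), ?_, ?_⟩
    · simp [e8L]
    · rintro ⟨i, x⟩ h
      simp only [e8L, Prod.mk.injEq] at h
      obtain ⟨h1, h2⟩ := h
      have h3 : i = m - j := by rw [← h1]; ring
      subst h3
      rw [Prod.mk.injEq]
      refine ⟨rfl, ?_⟩
      rw [← h2]
      abel

/-- the four corners -/
def e8C (θ : H ≃ H) (r c : ZMod 2 × H) :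
    Option {d : H // d ≠ 0 ∧ d + d = 0} → (ZMod 2 × H) × (ZMod 2 × H)
  | none => ((r.1 + 1, r.2), (c.1 + 1, c.2))
  | some d => ((r.1, r.2 - d.1), (c.1, (e8E θ r.1 c.1).symm (e8E θ r.1 c.1 c.2 + d.1)))

theorem e8C_corner (θ : H ≃ H) (r c : ZMod 2 × H) (o : Option {d : H // d ≠ 0 ∧ d + d = 0}) :
    Corner (e8L θ) r c (e8C θ r c o) := by
  obtain ⟨i, x⟩ := r
  obtain ⟨j, y⟩ := c
  rcases o with _ | ⟨d, hd, hdd⟩
  · have h1 : i ≠ i + 1 := by revert i; decide
    have h2 : j ≠ j + 1 := by revert j; decide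
    refine ⟨fun h => h1 (congrArg Prod.fst h), fun h => h2 (congrArg Prod.fst h), ?_, ?_⟩
    · simp only [e8C, e8L, e8E_shift, Prod.mk.injEq, and_true]
      revert i j; decide
    · simp only [e8C, e8L, (e8E_cross θ i j y).2, Prod.mk.injEq, and_true]
      ring
  · refine ⟨fun h => hd ?_, fun h => hd ?_, ?_, ?_⟩
    · have := congrArg Prod.snd h
      simp only [e8C] at this
      have h2 : x - (x - d) = 0 := sub_eq_zero.2 this
      rwa [sub_sub_cancel] at h2
    · have := congrArg Prod.snd h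
      simp only [e8C] at this
      rw [Equiv.eq_symm_apply] at this
      exact left_eq_add.1 this
    · simp only [e8C, e8L, Equiv.apply_symm_apply, Prod.mk.injEq, true_and]
      abel
    · simp only [e8C, e8L, Equiv.apply_symm_apply, Prod.mk.injEq, true_and]
      have : d = -d := eq_neg_of_add_eq_zero_left hdd
      rw [sub_eq_add_neg, ← this]
      abel

theorem e8C_bij (θ : H ≃ H) (hθ : Function.Injective (fun y => θ y + y)) (r c : ZMod 2 × H) :
    Function.Bijective (fun o => (⟨e8C θ r c o, e8C_corner θ r c o⟩ :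
      {q : (ZMod 2 × H) × (ZMod 2 × H) // Corner (e8L θ) r c q})) := by
  obtain ⟨i, x⟩ := r
  obtain ⟨j, y⟩ := c
  constructor
  · have h1 : i ≠ i + 1 := by revert i; decide
    rintro (_ | ⟨d, hd⟩) (_ | ⟨d', hd'⟩) h
    · rfl
    · have h2 := congrArg (fun q => q.1.1.1) h
      simp only [e8C] at h2
      exact absurd h2.symm h1
    · have h2 := congrArg (fun q => q.1.1.1) h
      simp only [e8C] at h2
      exact absurd h2 h1
    · have h2 := congrArg (fun q => q.1.1.2) h
      simp only [e8C] at h2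
      have h3 : d = d' := by simpa using h2
      subst h3
      rfl
  · rintro ⟨⟨⟨i', x'⟩, ⟨j', y'⟩⟩, hq1, hq2, hq3, hq4⟩
    simp only [e8L, Prod.mk.injEq, ne_eq] at hq1 hq2 hq3 hq4
    have hij : (i' = i ∧ j' = j) ∨ (i' = i + 1 ∧ j' = j + 1) := by
      have key : ∀ i i' j j' : ZMod 2, i + j = i' + j' →
          (i' = i ∧ j' = j) ∨ (i' = i + 1 ∧ j' = j + 1) := by decide
      exact key _ _ _ _ hq3.1
    rcases hij with ⟨rfl, rfl⟩ | ⟨rfl, rfl⟩
    · have h3 := hq3.2
      have h4 := hq4.2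
      have hx : x - x' ≠ 0 := fun h => hq1 ⟨rfl, sub_eq_zero.1 h⟩
      have hd : (x - x') + (x - x') = 0 := by
        have h5 : (x + e8E θ i' j' y) + (x + e8E θ i' j' y')
            = (x' + e8E θ i' j' y') + (x' + e8E θ i' j' y) := by rw [h3, h4]
        have h6 : (x - x') + (x - x') = ((x + e8E θ i' j' y) + (x + e8E θ i' j' y'))
            - ((x' + e8E θ i' j' y') + (x' + e8E θ i' j' y)) := by abel
        rw [h6, h5, sub_self]
      refine ⟨some ⟨x - x', hx, hd⟩, Subtype.ext ?_⟩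
      simp only [e8C, sub_sub_cancel, Prod.mk.injEq, true_and]
      rw [Equiv.symm_apply_eq]
      have h7 : e8E θ i' j' y + (x - x') = (x + e8E θ i' j' y) - x' := by abel
      rw [h7, h3]
      abel
    · have h3 := hq3.2
      have h4 := hq4.2
      rw [e8E_shift] at h3
      rw [(e8E_cross θ i j y).2] at h4
      have h5 : θ y + y = θ y' + y' := by
        rw [← (e8E_cross θ i j y).1, ← (e8E_cross θ i j y').1]
        have h6 : e8E θ i j y + e8E θ i (j + 1) y = (x + e8E θ i j y) + (x' + e8E θ i (j + 1) y)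
          - x - x' := by abel
        rw [h6, h3, ← h4]
        abel
      have h7 : y = y' := hθ h5
      subst h7
      have h8 : x = x' := add_right_cancel h3
      subst h8
      exact ⟨none, rfl⟩

theorem e8_homogeneous (θ : H ≃ H) (hθ : Function.Injective (fun y => θ y + y))
    (h3 : Nat.card {d : H // d ≠ 0 ∧ d + d = 0} = 3) : IsHomogeneous 4 (e8L θ) := by
  rw [isHomogeneous_iff]
  intro r c
  rw [← Nat.card_congr (Equiv.ofBijective _ (e8C_bij θ hθ r c))]
  have hf : Finite {d : H // d ≠ 0 ∧ d + d = 0} := Nat.finite_of_card_ne_zero (by rw [h3]; norm_num)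
  rw [Finite.card_option, h3]

end eight

/-- the first coordinate of `θ` -/
def e8a (k : ℕ) (h : ZMod 2 × ZMod (2 * k)) : ZMod 2 := h.1 + (if h.2.val < k then 0 else 1)

/-- the orthomorphism-like permutation -/
def e8θ (k : ℕ) (h : ZMod 2 × ZMod (2 * k)) : ZMod 2 × ZMod (2 * k) :=
  (e8a k h, h.2 + (if e8a k h = 0 then 0 else 1))

theorem e8θ_inj (k : ℕ) : Function.Injective (e8θ k) := by
  rintro ⟨a, b⟩ ⟨a', b'⟩ h
  simp only [e8θ, Prod.mk.injEq] at h
  obtain ⟨h1, h2⟩ := h
  rw [h1] at h2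
  have h3 : b = b' := add_right_cancel h2
  subst h3
  simp only [e8a] at h1
  rw [add_right_cancel h1]

theorem e8θ_sum (k : ℕ) (hk : 0 < k) : Function.Injective (fun h => e8θ k h + h) := by
  have : NeZero (2 * k) := ⟨by omega⟩
  rintro ⟨a, b⟩ ⟨a', b'⟩ h
  simp only [e8θ, Prod.mk_add_mk, Prod.mk.injEq] at h
  obtain ⟨h1, h2⟩ := h
  -- the first coordinates decide on which side of `k` we are
  have hside : (b.val < k ↔ b'.val < k) := by
    simp only [e8a] at h1
    have key : ∀ (a a' u u' : ZMod 2), a + u + a = a' + u' + a' → u = u' := by decide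
    have h3 := key _ _ _ _ h1
    constructor
    · intro hb
      by_contra hb'
      rw [if_pos hb, if_neg hb'] at h3
      exact absurd h3 (by decide)
    · intro hb'
      by_contra hb
      rw [if_neg hb, if_pos hb'] at h3
      exact absurd h3 (by decide)
  obtain ⟨ε, hε, he⟩ : ∃ ε : ℕ, ε < 2 ∧ (if e8a k (a, b) = 0 then (0 : ZMod (2 * k)) else 1) = ε ∧
      (e8a k (a, b) = (ε : ZMod 2)) := by
    by_cases h0 : e8a k (a, b) = 0
    · exact ⟨0, by norm_num, by rw [if_pos h0]; simp, by rw [h0]; simp⟩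
    · refine ⟨1, by norm_num, by rw [if_neg h0]; simp, ?_⟩
      generalize e8a k (a, b) = z at h0
      revert z; decide
  obtain ⟨ε', hε', he'⟩ : ∃ ε : ℕ, ε < 2 ∧ (if e8a k (a', b') = 0 then (0 : ZMod (2 * k)) else 1) = ε ∧
      (e8a k (a', b') = (ε : ZMod 2)) := by
    by_cases h0 : e8a k (a', b') = 0
    · exact ⟨0, by norm_num, by rw [if_pos h0]; simp, by rw [h0]; simp⟩
    · refine ⟨1, by norm_num, by rw [if_neg h0]; simp, ?_⟩
      generalize e8a k (a', b') = z at h0
      revert z; decide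
  rw [he.1, he'.1] at h2
  have hb := ZMod.val_lt b
  have hb' := ZMod.val_lt b'
  have e1 : ((2 * b.val + ε : ℕ) : ZMod (2 * k)) = ((2 * b'.val + ε' : ℕ) : ZMod (2 * k)) := by
    push_cast
    rw [ZMod.natCast_zmod_val, ZMod.natCast_zmod_val]
    linear_combination h2
  rw [ZMod.natCast_eq_natCast_iff'] at e1
  have e2 : 2 * b.val + ε = 2 * b'.val + ε' := by
    by_cases hlt : b.val < k
    · have hlt' := hside.1 hlt
      rwa [Nat.mod_eq_of_lt (by omega), Nat.mod_eq_of_lt (by omega)] at e1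
    · have hlt' : ¬ b'.val < k := fun h => hlt (hside.2 h)
      rw [Nat.mod_eq_sub_mod (by omega), Nat.mod_eq_sub_mod (a := 2 * b'.val + ε') (by omega),
        Nat.mod_eq_of_lt (by omega), Nat.mod_eq_of_lt (by omega)] at e1
      omega
  have e3 : b.val = b'.val := by omega
  have e4 : ε = ε' := by omega
  have e5 : b = b' := ZMod.val_injective _ e3
  subst e5
  have e6 : e8a k (a, b) = e8a k (a', b) := by rw [he.2, he'.2, e4]
  simp only [e8a] at e6
  rw [add_right_cancel e6]

theorem e8_three (k : ℕ) (hk : 0 < k) :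
    Nat.card {d : ZMod 2 × ZMod (2 * k) // d ≠ 0 ∧ d + d = 0} = 3 := by
  have : NeZero (2 * k) := ⟨by omega⟩
  have hk0 : ((k : ℕ) : ZMod (2 * k)) ≠ 0 := by
    intro h
    rw [ZMod.natCast_eq_zero_iff] at h
    have := Nat.le_of_dvd hk h
    omega
  have hset : {d : ZMod 2 × ZMod (2 * k) | d ≠ 0 ∧ d + d = 0}
      = (({(1, 0), (0, ((k : ℕ) : ZMod (2 * k))), (1, ((k : ℕ) : ZMod (2 * k)))} :
        Finset (ZMod 2 × ZMod (2 * k))) : Set (ZMod 2 × ZMod (2 * k))) := by
    ext ⟨a, b⟩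
    simp only [Set.mem_ofPred_eq, Finset.coe_insert, Finset.coe_singleton, Set.mem_insert_iff,
      Set.mem_singleton_iff, Prod.mk.injEq, Prod.mk_add_mk, Prod.mk_eq_zero, ne_eq, not_and]
    have ha : a = 0 ∨ a = 1 := by revert a; decide
    have haa : a + a = 0 := by revert a; decide
    have hkk : ((k : ℕ) : ZMod (2 * k)) + (k : ℕ) = 0 := by
      rw [← Nat.cast_add, ← two_mul]
      exact ZMod.natCast_self _
    have hbb : b + b = 0 ↔ b = 0 ∨ b = ((k : ℕ) : ZMod (2 * k)) := by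
      constructor
      · intro h
        have hb := ZMod.val_lt b
        have e1 : ((b.val + b.val : ℕ) : ZMod (2 * k)) = 0 := by
          push_cast
          rw [ZMod.natCast_zmod_val]
          exact h
        rw [ZMod.natCast_eq_zero_iff] at e1
        obtain ⟨m, hm⟩ := e1
        have hm2 : m < 2 := by
          by_contra hcon
          have : 2 * k * 2 ≤ 2 * k * m := Nat.mul_le_mul_left _ (by omega)
          omega
        have hm3 : m = 0 ∨ m = 1 := by omega
        rcases hm3 with rfl | rfl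
        · left
          have : b.val = 0 := by omega
          exact (ZMod.val_eq_zero b).1 this
        · right
          have h5 : b.val = k := by omega
          have h6 : ((b.val : ℕ) : ZMod (2 * k)) = ((k : ℕ) : ZMod (2 * k)) := congrArg _ h5
          rwa [ZMod.natCast_zmod_val] at h6
      · rintro (rfl | rfl)
        · simp
        · exact hkk
    rw [hbb]
    rcases ha with rfl | rfl
    · constructor
      · rintro ⟨h1, -, h2⟩
        have h3 := h1 rfl
        right; left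
        exact ⟨rfl, h2.resolve_left h3⟩
      · rintro (⟨h1, -⟩ | ⟨-, rfl⟩ | ⟨h1, -⟩)
        · exact absurd h1 (by decide)
        · exact ⟨fun _ => hk0, by simp, Or.inr rfl⟩
        · exact absurd h1 (by decide)
    · constructor
      · rintro ⟨-, -, h2⟩
        rcases h2 with rfl | rfl
        · left; exact ⟨rfl, rfl⟩
        · right; right; exact ⟨rfl, rfl⟩
      · rintro (⟨-, rfl⟩ | ⟨h1, -⟩ | ⟨-, rfl⟩)
        · exact ⟨fun h => absurd h (by decide), haa, Or.inl rfl⟩
        · exact absurd h1 (by decide)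
        · exact ⟨fun h => absurd h (by decide), haa, Or.inr rfl⟩
  have h1 : Nat.card {d : ZMod 2 × ZMod (2 * k) // d ≠ 0 ∧ d + d = 0}
      = Set.ncard {d : ZMod 2 × ZMod (2 * k) | d ≠ 0 ∧ d + d = 0} := rfl
  rw [h1, hset, Set.ncard_coe_finset]
  have hk1 : (0 : ZMod (2 * k)) ≠ ((k : ℕ) : ZMod (2 * k)) := fun h => hk0 h.symm
  have h01 : (0 : ZMod 2) ≠ 1 := by decide
  rw [Finset.card_insert_of_notMem, Finset.card_insert_of_notMem, Finset.card_singleton]
  · simp [h01]
  · simp [hk1]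

theorem ord4_eight {k : ℕ} (hk : 0 < k) : Ord4 (8 * k) := by
  have : NeZero (2 * k) := ⟨by omega⟩
  obtain ⟨θ, hθ⟩ : ∃ θ : ZMod 2 × ZMod (2 * k) ≃ ZMod 2 × ZMod (2 * k), ⇑θ = e8θ k :=
    ⟨Equiv.ofBijective (e8θ k) (Finite.injective_iff_bijective.1 (e8θ_inj k)), rfl⟩
  have h1 := ord4_of (e8_latin θ) (e8_homogeneous θ (by rw [hθ]; exact e8θ_sum k hk)
    (e8_three k hk))
  have h2 : Fintype.card (ZMod 2 × (ZMod 2 × ZMod (2 * k))) = 8 * k := by
    rw [Fintype.card_prod, Fintype.card_prod, ZMod.card, ZMod.card]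
    ring
  rwa [h2] at h1

end Pool.Agent.H4
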