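import Pool.Agent.H4.Basic

/-!
# [H4-N2] Latin squares without intercalates of orders `2k`, `4k`, `k ≥ 3` odd

PROOF (checked by computer for `k = 3,5,7,9`).  On `ZMod 2 × ZMod k` (order `2k`):
`L (i,x) (j,y) = (i + j, if i = j then x + y + (if i = 1 then 1 else 0) else x - y)`.
On `ZMod 4 × ZMod k` (order `4k`): `L (i,x) (j,y) = (i + j, (if i+j ∈ {0,1} then x + y else x - y) + g)` with
`g = 1` if `i, j ∈ {2,3}` and `g = 0` otherwise.  Latin: clear.
Corners `((i',x'),(j',y'))` at `((i,x),(j,y))`: from the first coordinates `i + j = i' + j'`,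
`i + j' = i' + j`, so `2 (i - i') = 0`, `i - i' = j' - j = j - j'`.
* `i' = i` and `j' = j`: four cells of the same form `x ± y + const`:
  `x ± y = x' ± y'`, `x ± y' = x' ± y`, so `2 (x - x') = 0`, `x = x'` (`k` odd): `(i,x) = (i',x')`,
  excluded.
* otherwise `i' = i + h`, `j' = j + h` where `h = 1` (mod 2) resp. `h = 2` (mod 4); then the symbol classes
  `i + j = i' + j'` and `i + j' = i' + j` are different, one of them has `x + y` and the other
  `x - y`.  The two equations have the form `x + y + g1 = x' + y' + g2`, `x - y' + g3 = x' - y + g4`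
  (or the same with the two roles exchanged), i.e. both say something about `(x - x') + (y - y')`: `g2 - g1 = g4 - g3`,
  where `{g1, g2} = {1, 0}` and `g3 = g4 = 0` (resp. exchanged), so `1 = 0` or `-1 = 0` in `ZMod k`:
  contradiction.  (For `ZMod 4`: among the four cells rows `i, i+2`, columns `j, j+2` exactly one
  has row and column index in `{2,3}`.)
`n2_all`: `m` not divisible by 8, `m ≠ 0, 2, 4`: `m` odd (`n2_odd`), or `m = 2k` or `m = 4k` with `k` odd,
`k ≥ 3`.
-/

namespace Pool.Agent.H4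

/-- the square `(i,x) (j,y) ↦ (i + j, x + ε y + g)` -/
def N2_sq {I : Type} [AddCommGroup I] (k : ℕ) (ε g : I → I → ℤ) : I × ZMod k → I × ZMod k → I × ZMod k :=
  fun r c => (r.1 + c.1, r.2 + (ε r.1 c.1 : ZMod k) * c.2 + (g r.1 c.1 : ZMod k))

theorem N2_latin {I : Type} [AddCommGroup I] (k : ℕ) (ε g : I → I → ℤ) (hε : ∀ i j, ε i j = 1 ∨ ε i j = -1) :
    IsLatinSquare (N2_sq k ε g) := by
  have hsq : ∀ i j, (ε i j : ZMod k) * (ε i j : ZMod k) = 1 := by
    intro i j
    rcases hε i j with h | h <;> rw [h] <;> simp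
  constructor
  · rintro ⟨i, x⟩ ⟨s, z⟩
    refine ⟨(s - i, (ε i (s - i) : ZMod k) * (z - x - (g i (s - i) : ZMod k))), ?_, ?_⟩
    · show (i + (s - i), x + (ε i (s - i) : ZMod k) * ((ε i (s - i) : ZMod k) * (z - x - (g i (s - i) : ZMod k))) +
        (g i (s - i) : ZMod k)) = (s, z)
      rw [← mul_assoc, hsq, one_mul]
      apply Prod.ext
      · exact add_sub_cancel i s
      · show x + (z - x - (g i (s - i) : ZMod k)) + (g i (s - i) : ZMod k) = z
        ring
    · rintro ⟨j, y⟩ h
      have h1 : i + j = s := congrArg Prod.fst h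
      have h2 : x + (ε i j : ZMod k) * y + (g i j : ZMod k) = z := congrArg Prod.snd h
      have hj : s - i = j := by rw [← h1, add_sub_cancel_left]
      rw [hj, ← h2]
      apply Prod.ext
      · rfl
      · show y = (ε i j : ZMod k) * (x + (ε i j : ZMod k) * y + (g i j : ZMod k) - x - (g i j : ZMod k))
        linear_combination -y * hsq i j
  · rintro ⟨j, y⟩ ⟨s, z⟩
    refine ⟨(s - j, z - (ε (s - j) j : ZMod k) * y - (g (s - j) j : ZMod k)), ?_, ?_⟩
    · show (s - j + j, z - (ε (s - j) j : ZMod k) * y - (g (s - j) j : ZMod k) + (ε (s - j) j : ZMod k) * y +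
        (g (s - j) j : ZMod k)) = (s, z)
      apply Prod.ext
      · exact sub_add_cancel s j
      · show z - (ε (s - j) j : ZMod k) * y - (g (s - j) j : ZMod k) + (ε (s - j) j : ZMod k) * y +
          (g (s - j) j : ZMod k) = z
        ring
    · rintro ⟨i, x⟩ h
      have h1 : i + j = s := congrArg Prod.fst h
      have h2 : x + (ε i j : ZMod k) * y + (g i j : ZMod k) = z := congrArg Prod.snd h
      have hj : s - j = i := by rw [← h1, add_sub_cancel_right]
      rw [hj, ← h2]
      apply Prod.ext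
      · rfl
      · show x = x + (ε i j : ZMod k) * y + (g i j : ZMod k) - (ε i j : ZMod k) * y - (g i j : ZMod k)
        ring

theorem N2_corner {I : Type} [AddCommGroup I] {k : ℕ} (hk : Odd k) (h3 : 3 ≤ k) (ε g : I → I → ℤ)
    (H : ∀ i j i' j' : I, i + j = i' + j' → i + j' = i' + j → (i = i' ∧ j = j') ∨
      (ε i' j' = ε i j ∧ ε i j' = -ε i j ∧ ε i' j = -ε i j ∧
        (g i j - g i' j' - g i j' + g i' j = 1 ∨ g i j - g i' j' - g i j' + g i' j = -1)))
    (r c : I × ZMod k) (q : (I × ZMod k) × (I × ZMod k)) : ¬ Corner (N2_sq k ε g) r c q := by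
  obtain ⟨i, x⟩ := r
  obtain ⟨j, y⟩ := c
  obtain ⟨⟨i', x'⟩, ⟨j', y'⟩⟩ := q
  rintro ⟨h1, -, h2, h4⟩
  have e1 : i + j = i' + j' := congrArg Prod.fst h2
  have e2 : i + j' = i' + j := congrArg Prod.fst h4
  have f1 : x + (ε i j : ZMod k) * y + (g i j : ZMod k) = x' + (ε i' j' : ZMod k) * y' + (g i' j' : ZMod k) :=
    congrArg Prod.snd h2
  have f2 : x + (ε i j' : ZMod k) * y' + (g i j' : ZMod k) = x' + (ε i' j : ZMod k) * y + (g i' j : ZMod k) :=
    congrArg Prod.snd h4
  rcases H i j i' j' e1 e2 with ⟨rfl, rfl⟩ | ⟨a1, a2, a3, a4⟩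
  · apply h1
    have h5 : 2 * (x - x') = 0 := by linear_combination f1 + f2
    have h6 : IsUnit (2 : ZMod k) := by
      have := (ZMod.isUnit_iff_coprime 2 k).2 (Nat.coprime_two_left.2 hk)
      simpa using this
    have h7 := (h6.mul_right_eq_zero).1 h5
    exact Prod.ext rfl (sub_eq_zero.1 h7)
  · rw [a1] at f1
    rw [a2, a3] at f2
    push_cast at f1 f2
    have h5 : ((g i j - g i' j' - g i j' + g i' j : ℤ) : ZMod k) = 0 := by
      push_cast
      linear_combination f1 - f2
    have h6 : (1 : ZMod k) ≠ 0 := by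
      haveI : Fact (1 < k) := ⟨by omega⟩
      exact one_ne_zero
    rcases a4 with h7 | h7
    · rw [h7] at h5
      push_cast at h5
      exact h6 h5
    · rw [h7] at h5
      push_cast at h5
      exact h6 (neg_eq_zero.mp h5)

theorem n2_two_mul {k : ℕ} (hk : Odd k) (h3 : 3 ≤ k) : N2 (2 * k) := by
  have : NeZero k := ⟨by omega⟩
  have h := n2_of (α := ZMod 2 × ZMod k)
    (N2_latin k (fun i j : ZMod 2 => if i = j then 1 else -1) (fun i j => if i = 1 ∧ j = 1 then 1 else 0)
      (by decide))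
    (N2_corner hk h3 _ _ (by decide))
  simpa [ZMod.card] using h

theorem n2_four_mul {k : ℕ} (hk : Odd k) (h3 : 3 ≤ k) : N2 (4 * k) := by
  have : NeZero k := ⟨by omega⟩
  have h := n2_of (α := ZMod 4 × ZMod k)
    (N2_latin k (fun i j : ZMod 4 => if i + j = 0 ∨ i + j = 1 then 1 else -1)
      (fun i j => if (i = 2 ∨ i = 3) ∧ (j = 2 ∨ j = 3) then 1 else 0) (by decide))
    (N2_corner hk h3 _ _ (by decide))
  simpa [ZMod.card] using h

theorem n2_all {m : ℕ} (h8 : ¬ 8 ∣ m) (h2 : m ≠ 2) (h4 : m ≠ 4) : N2 m := by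
  rcases Nat.even_or_odd m with he | ho
  · obtain ⟨a, rfl⟩ := he
    rcases Nat.even_or_odd a with he | ho
    · obtain ⟨b, rfl⟩ := he
      have hb : Odd b := by
        by_contra hb
        rw [Nat.not_odd_iff_even] at hb
        obtain ⟨c, rfl⟩ := hb
        exact h8 ⟨c, by ring⟩
      have h : b + b + (b + b) = 4 * b := by ring
      rw [h]
      refine n2_four_mul hb ?_
      obtain ⟨c, rfl⟩ := hb
      omega
    · have h : a + a = 2 * a := by ring
      rw [h]
      refine n2_two_mul ho ?_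
      obtain ⟨c, rfl⟩ := ho
      omega
  · exact n2_odd ho

end Pool.Agent.H4
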