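import Pool.Agent.H4.Cube
import Pool.Agent.H4.N2E
import Pool.Agent.H4.E8

/-!
# Orders divisible by the cube of an odd prime
-/

namespace Pool.Agent.H4

theorem ord4_zero : Ord4 0 :=
  ⟨fun r _ => r, ⟨fun r => r.elim0, fun r => r.elim0⟩, fun p => p.1.elim0⟩

theorem ord4_cube_mul {p m : ℕ} (hp : p.Prime) (hp2 : p ≠ 2) (h2 : m ≠ 2) (h4 : m ≠ 4) :
    Ord4 (p ^ 3 * m) := by
  by_cases h8 : 8 ∣ m
  · obtain ⟨k, rfl⟩ := h8
    rcases Nat.eq_zero_or_pos k with rfl | hk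
    · simpa using ord4_zero
    · have := ord4_eight (k := p ^ 3 * k) (Nat.mul_pos (pow_pos hp.pos 3) hk)
      rwa [show 8 * (p ^ 3 * k) = p ^ 3 * (8 * k) by ring] at this
  · exact (ord4_cube hp hp2).mul (n2_all h8 h2 h4)

end Pool.Agent.H4
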