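import Pool.Agent.H4.Basic

/-!
# [H4-F64] A 4-frame of order 64

Let `GF(64) = F_2[x]/(x^6+x+1)`, elements = 6-bit numbers `0..63`, addition = XOR, `g = 2` (= `x`) is
primitive.  `F r c = r xor f (r xor c)` with `f 0 = 0`, `f d = a_i * d` (product in `GF(64)`) where
`i = log_g(d) mod 3` and `(a_0, a_1, a_2) = (6, 10, 26)`.  Verified by computer: `F` is an idempotent
latin square, off-diagonal cells are in exactly 4 intercalates, diagonal cells in none.

The table of `f` (`f 0, f 1, .., f 63`) should be computed by a small Python program and packed in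
one natural number in base 64 (`f d = code / 64^d % 64`).

PROOF.  Take the type `Fin 64` (XOR of `Fin 64` or `Nat.xor`) or `BitVec 6` .  Translation
invariance: `F (r xor e) (c xor e) = F r c xor e`, so `Corner F r c (r',c')` iff
`Corner F 0 (r xor c) (r xor r', r xor c')`, and one has to treat the row `0` only:
`Corner F 0 d (e, c2)`: `e ≠ 0`, `c2 ≠ d`, `f d = e xor f (e xor c2)`, `f c2 = e xor f (e xor d)`.
Here `c2 = e xor f^{-1}(f d xor e)` is determined by `e`, so for every `d` the number of solutions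
is the number of `e ≠ 0` with `f c2 = e xor f (e xor d)` (and `c2 ≠ d`, which is automatic by
latinness when `e ≠ 0`): 64*63 tests, `decide +kernel` on `ℕ`-valued tables with
`List.range`/`Nat` arithmetic (bitwise `Nat.xor` is fast in the kernel) is fine.
The cardinality `Nat.card {q // Corner ..} = 4`: biject with the `e`'s
(`q ↦ q.1`, injective because of the latin property).
-/

namespace Pool.Agent.H4

/-- The table of `f`. -/
def f64 (d : ℕ) : ℕ :=
  7410881178966368061237307920350891975356946539204405166108578633205031944928872153234392715176061189993836789186944 / 64 ^ d % 64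

/-- The inverse of `f`. -/
def g64 (d : ℕ) : ℕ :=
  26596188327498057306489890378693501391426180711566246241967442874044182363728415244366433206288336591451563507311872 / 64 ^ d % 64

/-- The inverse of `d ↦ d xor f d`. -/
def h64 (d : ℕ) : ℕ :=
  37452073309865985495800285684822066292237444251898159671419619513263892373678554139018890604955129988595103223019264 / 64 ^ d % 64

/-- The xor of two numbers below `64`. -/
def x64 (a b : Fin 64) : Fin 64 := ⟨a.1 ^^^ b.1, Nat.xor_lt_two_pow (n := 6) a.2 b.2⟩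

/-- `f` on `Fin 64`. -/
def ff64 (d : Fin 64) : Fin 64 := ⟨f64 d.1, Nat.mod_lt _ (by norm_num)⟩

/-- `g` on `Fin 64`. -/
def gg64 (d : Fin 64) : Fin 64 := ⟨g64 d.1, Nat.mod_lt _ (by norm_num)⟩

/-- `h` on `Fin 64`. -/
def hh64 (d : Fin 64) : Fin 64 := ⟨h64 d.1, Nat.mod_lt _ (by norm_num)⟩

theorem x64_assoc (a b c : Fin 64) : x64 (x64 a b) c = x64 a (x64 b c) :=
  Fin.ext (Nat.xor_assoc a.1 b.1 c.1)

theorem x64_comm (a b : Fin 64) : x64 a b = x64 b a := Fin.ext (Nat.xor_comm a.1 b.1)

theorem x64_self (a : Fin 64) : x64 a a = 0 := Fin.ext (Nat.xor_self a.1)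

theorem x64_zero (a : Fin 64) : x64 a 0 = a := Fin.ext (Nat.xor_zero a.1)

theorem x64_cancel (a b : Fin 64) : x64 a (x64 a b) = b := by
  rw [← x64_assoc, x64_self, x64_comm, x64_zero]

theorem x64_eq_iff (a b c : Fin 64) : x64 a b = c ↔ b = x64 a c := by
  constructor
  · rintro rfl; rw [x64_cancel]
  · rintro rfl; rw [x64_cancel]

theorem x64_eq_zero (a b : Fin 64) : x64 a b = 0 ↔ a = b := by
  rw [x64_eq_iff, x64_zero]
  exact eq_comm

theorem x64_inj (a b c : Fin 64) : x64 a b = x64 a c ↔ b = c := by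
  rw [x64_eq_iff, x64_cancel]

/-- `(r, c) ↦ (r' , c')` differences. -/
theorem x64_diff (r a b : Fin 64) : x64 (x64 r a) (x64 r b) = x64 a b := by
  rw [x64_comm r a, x64_assoc, x64_cancel]

theorem ff_gg (d : Fin 64) : ff64 (gg64 d) = d := by
  revert d; decide +kernel

theorem gg_ff (d : Fin 64) : gg64 (ff64 d) = d := by
  revert d; decide +kernel

theorem hh_one (d : Fin 64) : x64 (hh64 d) (ff64 (hh64 d)) = d := by
  revert d; decide +kernel

theorem hh_two (d : Fin 64) : hh64 (x64 d (ff64 d)) = d := by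
  revert d; decide +kernel

/-- The opposite corner (in the column direction) determined by its row. -/
def c64 (d e : Fin 64) : Fin 64 := gg64 (x64 e (ff64 (x64 e d)))

theorem ff64_count (d : Fin 64) (hd : d ≠ 0) :
    (Finset.univ.filter (fun e : Fin 64 => e ≠ 0 ∧ c64 d e ≠ d ∧
      ff64 d = x64 e (ff64 (x64 e (c64 d e))))).card = 4 := by
  revert d; decide +kernel

theorem ff64_zero : ff64 0 = 0 := by decide +kernel

theorem ff64_count_zero (e : Fin 64) : ¬ (e ≠ 0 ∧ c64 0 e ≠ 0 ∧
      ff64 0 = x64 e (ff64 (x64 e (c64 0 e)))) := by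
  revert e; decide +kernel

/-- The square. -/
def F64 (r c : Fin 64) : Fin 64 := x64 r (ff64 (x64 r c))

theorem F64_corner (r c : Fin 64) (q : Fin 64 × Fin 64) :
    Corner F64 r c q ↔ (x64 r q.2 = c64 (x64 r c) (x64 r q.1) ∧
      (x64 r q.1 ≠ 0 ∧ c64 (x64 r c) (x64 r q.1) ≠ x64 r c ∧
      ff64 (x64 r c) = x64 (x64 r q.1) (ff64 (x64 (x64 r q.1) (c64 (x64 r c) (x64 r q.1)))))) := by
  obtain ⟨r', c'⟩ := q
  have h1 : r ≠ r' ↔ x64 r r' ≠ 0 := not_congr (x64_eq_zero r r').symm
  have h2 : c ≠ c' ↔ x64 r c' ≠ x64 r c := by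
    rw [Ne, Ne, x64_inj]
    exact not_congr eq_comm
  have h3 : F64 r c = F64 r' c' ↔ ff64 (x64 r c) =
      x64 (x64 r r') (ff64 (x64 (x64 r r') (x64 r c'))) := by
    unfold F64
    rw [x64_eq_iff, x64_diff, x64_assoc]
  have h4 : F64 r c' = F64 r' c ↔ x64 r c' = c64 (x64 r c) (x64 r r') := by
    unfold F64 c64
    rw [x64_eq_iff, x64_diff, x64_assoc]
    constructor
    · intro h
      rw [← h, gg_ff]
    · intro h
      rw [h, ff_gg]
  show (r ≠ r' ∧ c ≠ c' ∧ F64 r c = F64 r' c' ∧ F64 r c' = F64 r' c) ↔ _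
  rw [h1, h2, h3, h4]
  constructor
  · rintro ⟨a1, a2, a3, a4⟩
    rw [a4] at a2 a3
    exact ⟨a4, a1, a2, a3⟩
  · rintro ⟨a4, a1, a2, a3⟩
    have a4' : x64 r c' = c64 (x64 r c) (x64 r r') := a4
    rw [a4']
    exact ⟨a1, a2, a3, rfl⟩

theorem F64_frame : IsFrame F64 where
  latin := by
    constructor
    · intro r s
      refine ⟨x64 r (gg64 (x64 r s)), ?_, fun c hc => ?_⟩
      · show x64 r (ff64 (x64 r (x64 r (gg64 (x64 r s))))) = s
        rw [x64_cancel, ff_gg, x64_cancel]
      · have h1 : x64 r (ff64 (x64 r c)) = s := hc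
        rw [x64_eq_iff] at h1
        rw [← h1, gg_ff, x64_cancel]
    · intro c s
      refine ⟨x64 c (hh64 (x64 c s)), ?_, fun r hr => ?_⟩
      · show x64 (x64 c (hh64 (x64 c s))) (ff64 (x64 (x64 c (hh64 (x64 c s))) c)) = s
        have h1 : x64 (x64 c (hh64 (x64 c s))) c = hh64 (x64 c s) := by
          rw [x64_comm, x64_cancel]
        rw [h1, x64_assoc, hh_one, x64_cancel]
      · have h1 : x64 r (ff64 (x64 r c)) = s := hr
        have h2 : r = x64 c (x64 r c) := by rw [x64_comm r c, x64_cancel]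
        have h3 : x64 (x64 r c) (ff64 (x64 r c)) = x64 c s := by
          rw [← h1, x64_comm r c, x64_assoc]
        rw [← h3, hh_two, ← h2]
  idem i := by
    show x64 i (ff64 (x64 i i)) = i
    rw [x64_self, ff64_zero, x64_zero]
  off i j hij := by
    classical
    have hd : x64 i j ≠ 0 := fun h => hij ((x64_eq_zero i j).1 h)
    rw [← ff64_count (x64 i j) hd, ← Fintype.card_coe, ← Nat.card_eq_fintype_card]
    refine Nat.card_congr (Equiv.ofBijective (fun q => ⟨x64 i q.1.1, ?_⟩) ⟨?_, ?_⟩)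
    · exact Finset.mem_filter.mpr ⟨Finset.mem_univ _, ((F64_corner i j q.1).1 q.2).2⟩
    · rintro ⟨q, hq⟩ ⟨q', hq'⟩ h
      have h1 : x64 i q.1 = x64 i q'.1 := congrArg Subtype.val h
      have h2 := ((F64_corner i j q).1 hq).1
      have h3 := ((F64_corner i j q').1 hq').1
      rw [← h1, ← h2, x64_inj] at h3
      rw [x64_inj] at h1
      exact Subtype.ext (Prod.ext h1 h3.symm)
    · rintro ⟨e, he⟩
      have he' := (Finset.mem_filter.mp he).2
      refine ⟨⟨(x64 i e, x64 i (c64 (x64 i j) e)), ?_⟩, ?_⟩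
      · rw [F64_corner]
        show x64 i (x64 i (c64 (x64 i j) e)) = c64 (x64 i j) (x64 i (x64 i e)) ∧
          (x64 i (x64 i e) ≠ 0 ∧ _)
        rw [x64_cancel, x64_cancel]
        exact ⟨rfl, he'⟩
      · apply Subtype.ext
        exact x64_cancel i e
  diag i q hq := by
    have h := ((F64_corner i i q).1 hq).2
    rw [x64_self] at h
    exact ff64_count_zero _ h

theorem frame64 : Frame 64 := by
  exact ⟨F64, F64_frame⟩

end Pool.Agent.H4
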