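import Pool.Agent.H4.Basic

/-!
# [H4-F7] 4-frames of orders 7, 13, 17

`F r c = r + f (c - r)` on `ZMod q` where `f x = a x` for `x` a nonzero square and `f x = b x` for `x` a
nonsquare, `f 0 = 0`:  `q = 7`: `(a,b) = (3,5)` (both choices of order work),
`q = 13`: `(4,10)`, `q = 17`: `(3,10)`  (here `a` belongs to the class of a primitive root's even
powers, i.e. squares).  Verified by computer.  Suggested proof: `decide +kernel` on `Fin 7`,
`Fin 13`, `Fin 17` (17: for the corners use translation invariance, or
`Corner F r c q ↔ ...` with the column of `q` determined by its row, so that only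
`17^2 * 16` tests are needed).  For the statement `off`: `Nat.card_eq_fintype_card`,
`Fintype.card_subtype`, `decide +kernel` (see the proof of `sq_homogeneous` in
`Pool/Agent/Results/MP_7e41f2_co/OrderTwelveM.lean` for the pattern with order 12: 144 x 144 tests
are fine).
-/

namespace Pool.Agent.H4

/-- translation invariant frames -/
theorem h4f_frame (q : ℕ) [NeZero q] (f : Fin q → Fin q) (f0 : f 0 = 0) (h1 : Function.Injective f)
    (h2 : Function.Injective (fun d => f d - d))
    (h3 : ∀ d : Fin q, d ≠ 0 → (Finset.univ.filter (fun p : Fin q × Fin q =>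
      0 ≠ p.1 ∧ d ≠ p.2 ∧ f d = p.1 + f (p.2 - p.1) ∧ f p.2 = p.1 + f (d - p.1))).card = 4)
    (h4 : ∀ p : Fin q × Fin q, ¬ (0 ≠ p.1 ∧ 0 ≠ p.2 ∧ f 0 = p.1 + f (p.2 - p.1) ∧ f p.2 = p.1 + f (0 - p.1))) :
    Frame q := by
  have hc : ∀ (r c : Fin q) (p : Fin q × Fin q), Corner (fun r c : Fin q => r + f (c - r)) r c p ↔
      (0 ≠ p.1 - r ∧ c - r ≠ p.2 - r ∧ f (c - r) = (p.1 - r) + f ((p.2 - r) - (p.1 - r)) ∧
        f (p.2 - r) = (p.1 - r) + f ((c - r) - (p.1 - r))) := by
    intro r c p
    unfold Corner
    simp only [sub_sub_sub_cancel_right]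
    have e1 : ∀ x : Fin q, r ≠ x ↔ 0 ≠ x - r := by
      intro x
      rw [ne_comm, ne_comm (a := (0 : Fin q)), not_iff_not, sub_eq_zero]
    have e2 : ∀ x : Fin q, c ≠ x ↔ c - r ≠ x - r := by
      intro x
      rw [not_iff_not]
      exact (sub_left_inj).symm
    have e3 : ∀ x y z : Fin q, r + x = y + z ↔ x = y - r + z := by
      intro x y z
      constructor
      · intro h
        have : x = (r + x) - r := by abel
        rw [this, h]
        abel
      · rintro rfl
        abel
    rw [← e1, ← e2, e3, e3]
  refine ⟨fun r c => r + f (c - r), ?_, ?_, ?_, ?_⟩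
  · have b1 := Finite.injective_iff_bijective.1 h1
    have b2 := Finite.injective_iff_bijective.1 h2
    constructor
    · intro r s
      obtain ⟨d, hd⟩ := b1.2 (s - r)
      refine ⟨d + r, ?_, ?_⟩
      · simp only [add_sub_cancel_right, hd]
        abel
      · intro c hc
        have h5 : f (c - r) = f d := by
          rw [hd, ← hc]
          simp only
          abel
        have h6 := h1 h5
        rw [← h6]
        abel
    · intro c s
      obtain ⟨d, hd⟩ := b2.2 (s - c)
      simp only at hd
      refine ⟨c - d, ?_, ?_⟩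
      · simp only [sub_sub_cancel]
        have : c - d + f d = c + (f d - d) := by abel
        rw [this, hd]
        abel
      · intro r hr
        simp only at hr
        have h5 : f (c - r) - (c - r) = f d - d := by
          rw [hd, ← hr]
          abel
        have h6 := h2 h5
        rw [← h6]
        abel
  · intro i
    simp only [sub_self, f0, add_zero]
  · intro i j hij
    rw [← h3 (j - i) (fun h => hij (sub_eq_zero.1 h).symm), ← Fintype.card_subtype, ← Nat.card_eq_fintype_card]
    refine Nat.card_congr ((Equiv.prodCongr (Equiv.subRight i) (Equiv.subRight i)).subtypeEquiv ?_)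
    intro p
    rw [hc]
    rfl
  · intro i p hp
    rw [hc, sub_self] at hp
    exact h4 (p.1 - i, p.2 - i) hp

theorem frame7 : Frame 7 := by
  refine h4f_frame 7 ![0, 3, 6, 1, 5, 4, 2] ?_ ?_ ?_ ?_ ?_
  · decide +kernel
  · decide +kernel
  · decide +kernel
  · decide +kernel
  · decide +kernel

theorem frame13 : Frame 13 := by
  refine h4f_frame 13 ![0, 4, 7, 12, 3, 11, 8, 5, 2, 10, 1, 6, 9] ?_ ?_ ?_ ?_ ?_
  · decide +kernel
  · decide +kernel
  · decide +kernel
  · decide +kernel
  · decide +kernel

theorem frame17 : Frame 17 := by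
  refine h4f_frame 17 ![0, 3, 6, 13, 12, 16, 9, 2, 7, 10, 15, 8, 1, 5, 4, 11, 14] ?_ ?_ ?_ ?_ ?_
  · decide +kernel
  · decide +kernel
  · decide +kernel
  · decide +kernel
  · decide +kernel

end Pool.Agent.H4
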