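import Pool.Agent.H4.Basic

/-!
# [H4-FM] Product of 4-frames

`Frame a`, `Frame b`, `b` odd give `Frame (a*b)`.

PROOF.  Let `F` be a frame on `I` (card `a`), `G` a frame on `J` (card `b`), and let `J` carry the
latin square `M` without intercalates (`n2_odd`, transported to `J = Fin b`; so take `I = Fin a`,
`J = Fin b` and `M` from `n2_odd hb`).  On `I × J` define
`H (i,j) (i',j') = if i = i' then (i, G j j') else (F i i', M j j')`.
* idempotent: `H (i,j) (i,j) = (i, G j j) = (i,j)`.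
* latin, rows: given row `(i,j)` and symbol `(s,t)`: if `s = i` the solution is `(i, c)` with
  `G j c = t` (uniqueness: a column `(i',j')` with `i' ≠ i` has symbol first coordinate
  `F i i' ≠ i` because `F i i = i` and rows of `F` are injective); if `s ≠ i` let `i'` be the
  solution of `F i i' = s` (then `i' ≠ i`) and `j'` the solution of `M j j' = t`.  Columns: same.
* no diagonal corner: let `Corner H (i,j) (i,j) ((i1,j1),(i2,j2))`: `(i,j) ≠ (i1,j1)`,
  `(i,j) ≠ (i2,j2)`, `(i,j) = H (i1,j1) (i2,j2)`, `H (i,j) (i2,j2) = H (i1,j1) (i,j)`.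
  If `i1 = i2` then the third equation gives `i1 = i`, and everything is a corner of `G` at the
  diagonal cell `(j,j)`: excluded by `G.diag`.  If `i1 ≠ i2`: `F i1 i2 = i`, so `i1 ≠ i` and
  `i2 ≠ i` (`F i i2 = i` would give `i2 = i = i1`...), the last equation gives
  `F i i2 = F i1 i`, so `Corner F i i (i1,i2)`: excluded by `F.diag`.
* off-diagonal cell `((i,j),(i',j'))`.  Case `i = i'` (so `j ≠ j'`): the corners are exactly
  `((i,j1),(i,j2))` with `Corner G j j' (j1,j2)`: a corner `((i1,j1),(i2,j2))` with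
  `H (i1,j1) (i2,j2) = (i, G j j')`.  If `i1 = i2` then `i1 = i`: fine.  If `i1 ≠ i2` then
  `F i1 i2 = i` and `i1, i2 ≠ i`, and `H (i,j) (i2,j2) = H (i1,j1) (i,j')` gives
  `F i i2 = F i1 i`: `Corner F i i (i1,i2)`, excluded.
  Case `i ≠ i'`: the corners are exactly `((i1,c1),(i2,c2))` with `Corner F i i' (i1,i2)` and with
  `c1 = j`, `c2 = j'`: a corner `((i1,j1),(i2,j2))` has `H (i1,j1) (i2,j2) = (F i i', M j j')`.
  If `i1 = i2` then `F i i' = i1` and `H (i,j) (i1,j2) = H (i1,j1) (i',j')`; here `i1 ≠ i`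
  (else `F i i' = i = F i i`, `i' = i`), `i1 ≠ i'` similarly, so `F i i1 = F i1 i'` and
  `Corner F i1 i1 (i,i')` (rows `i1, i`, columns `i1, i'`): excluded by `F.diag`.
  If `i1 ≠ i2`: `F i1 i2 = F i i'`.  If `i1 = i` then `i2 = i'` and
  `M j1 j2 = M j j'`, `M j j2 = M j1 j'`: no corner of `M`, so `j1 = j` or `j2 = j'` and then
  (latin) both: contradiction with `(i,j) ≠ (i1,j1)`.  So `i1 ≠ i`, and similarly `i2 ≠ i'`.
  If `i2 = i`: `H (i,j) (i,j2) = (i, ..) = H (i1,j1) (i',j')`, so (whether `i1 = i'` or not)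
  either `i1 = i'`, giving `i = i'`, contradiction, or `F i1 i' = i`, and then
  `Corner F i i (i1,i')` (cells `(i,i)→i`, `(i1,i')→i`, `(i,i')`, `(i1,i)` both `= F i i'`):
  excluded.  Same for `i1 = i'`.  Otherwise all four cells are off-diagonal for `F` and
  `Corner F i i' (i1,i2)` and `M j1 j2 = M j j'`, `M j j2 = M j1 j'`: since `M` has no corner,
  `j = j1` or `j' = j2`, and then both.  Conversely such a pair is a corner of `H`: note that a
  corner of `F` at an off-diagonal cell never contains a diagonal cell (`F.diag`), so all four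
  cells are evaluated by the second branch.
-/

namespace Pool.Agent.H4

theorem rinj' {α : Type*} {L : α → α → α} (h : IsLatinSquare L) {r c c' : α}
    (h1 : L r c = L r c') : c = c' := by
  obtain ⟨x, -, hu⟩ := h.1 r (L r c)
  rw [hu c rfl, hu c' h1.symm]

theorem cinj' {α : Type*} {L : α → α → α} (h : IsLatinSquare L) {c r r' : α}
    (h1 : L r c = L r' c) : r = r' := by
  obtain ⟨x, -, hu⟩ := h.2 c (L r c)
  rw [hu r rfl, hu r' h1.symm]

open Classical in
/-- The product square. -/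
noncomputable def hsq {α β : Type*} (F : α → α → α) (G M : β → β → β) : α × β → α × β → α × β :=
  fun p q => if p.1 = q.1 then (p.1, G p.2 q.2) else (F p.1 q.1, M p.2 q.2)

theorem hsq_eq {α β : Type*} (F : α → α → α) (G M : β → β → β) (i : α) (j j' : β) :
    hsq F G M (i, j) (i, j') = (i, G j j') := by
  simp [hsq]

theorem hsq_ne {α β : Type*} (F : α → α → α) (G M : β → β → β) {i i' : α} (h : i ≠ i')
    (j j' : β) : hsq F G M (i, j) (i', j') = (F i i', M j j') := by
  simp [hsq, h]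

theorem frame_row {α : Type*} {F : α → α → α} (hF : IsFrame F) {i i' : α} (h : F i i' = i) :
    i' = i := rinj' hF.latin (h.trans (hF.idem i).symm)

theorem frame_col {α : Type*} {F : α → α → α} (hF : IsFrame F) {i i' : α} (h : F i i' = i') :
    i = i' := cinj' hF.latin (h.trans (hF.idem i').symm)

theorem hsq_latin {α β : Type*} {F : α → α → α} {G M : β → β → β} (hF : IsFrame F)
    (hG : IsFrame G) (hM : IsLatinSquare M) : IsLatinSquare (hsq F G M) := by
  constructor
  · rintro ⟨i, j⟩ ⟨s, t⟩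
    by_cases hs : s = i
    · subst hs
      obtain ⟨c, hc, hu⟩ := hG.latin.1 j t
      refine ⟨(s, c), by simp only [hsq_eq, hc], ?_⟩
      rintro ⟨i', j'⟩ h
      by_cases hi : s = i'
      · subst hi
        rw [hsq_eq, Prod.mk.injEq] at h
        rw [hu j' h.2]
      · rw [hsq_ne _ _ _ hi, Prod.mk.injEq] at h
        exact absurd (frame_row hF h.1).symm hi
    · obtain ⟨i', hi', hu⟩ := hF.latin.1 i s
      obtain ⟨c, hc, hv⟩ := hM.1 j t
      have hne : i ≠ i' := by
        rintro rfl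
        exact hs (hi'.symm.trans (hF.idem i))
      refine ⟨(i', c), by simp only [hsq_ne _ _ _ hne, hc, hi'], ?_⟩
      rintro ⟨i2, j2⟩ h
      by_cases hi : i = i2
      · subst hi
        rw [hsq_eq, Prod.mk.injEq] at h
        exact absurd h.1.symm hs
      · rw [hsq_ne _ _ _ hi, Prod.mk.injEq] at h
        rw [hu i2 h.1, hv j2 h.2]
  · rintro ⟨i, j⟩ ⟨s, t⟩
    by_cases hs : s = i
    · subst hs
      obtain ⟨c, hc, hu⟩ := hG.latin.2 j t
      refine ⟨(s, c), by simp only [hsq_eq, hc], ?_⟩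
      rintro ⟨i', j'⟩ h
      by_cases hi : i' = s
      · subst hi
        rw [hsq_eq, Prod.mk.injEq] at h
        rw [hu j' h.2]
      · rw [hsq_ne _ _ _ hi, Prod.mk.injEq] at h
        exact absurd (frame_col hF h.1) hi
    · obtain ⟨i', hi', hu⟩ := hF.latin.2 i s
      obtain ⟨c, hc, hv⟩ := hM.2 j t
      have hne : i' ≠ i := by
        rintro rfl
        exact hs (hi'.symm.trans (hF.idem i'))
      refine ⟨(i', c), by simp only [hsq_ne _ _ _ hne, hc, hi'], ?_⟩
      rintro ⟨i2, j2⟩ h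
      by_cases hi : i2 = i
      · subst hi
        rw [hsq_eq, Prod.mk.injEq] at h
        exact absurd h.1.symm hs
      · rw [hsq_ne _ _ _ hi, Prod.mk.injEq] at h
        rw [hu i2 h.1, hv j2 h.2]

/-- Corners at a cell of a diagonal block. -/
theorem hsq_corner_eq {α β : Type*} {F : α → α → α} {G M : β → β → β} (hF : IsFrame F)
    (i : α) (j j' : β) (i1 i2 : α) (j1 j2 : β) :
    Corner (hsq F G M) (i, j) (i, j') ((i1, j1), (i2, j2)) ↔
      i1 = i ∧ i2 = i ∧ Corner G j j' (j1, j2) := by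
  constructor
  · rintro ⟨h1, h2, h3, h4⟩
    simp only at h1 h2 h3 h4
    by_cases h : i1 = i2
    · subst h
      rw [hsq_eq, hsq_eq, Prod.mk.injEq] at h3
      obtain ⟨rfl, h3⟩ := h3
      rw [hsq_eq, hsq_eq, Prod.mk.injEq] at h4
      exact ⟨rfl, rfl, fun h => h1 (by rw [show j = j1 from h]),
        fun h => h2 (by rw [show j' = j2 from h]), h3, h4.2⟩
    · exfalso
      rw [hsq_eq, hsq_ne _ _ _ h, Prod.mk.injEq] at h3
      have h5 : i ≠ i1 := by
        rintro rfl
        exact h (frame_row hF h3.1.symm).symm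
      have h6 : i ≠ i2 := by
        rintro rfl
        exact h (frame_col hF h3.1.symm)
      rw [hsq_ne _ _ _ h6, hsq_ne _ _ _ h5.symm, Prod.mk.injEq] at h4
      exact hF.diag i (i1, i2) ⟨h5, h6, (hF.idem i).trans h3.1, h4.1⟩
  · rintro ⟨rfl, rfl, h1, h2, h3, h4⟩
    refine ⟨?_, ?_, ?_, ?_⟩
    · intro h; exact h1 (congrArg Prod.snd h)
    · intro h; exact h2 (congrArg Prod.snd h)
    · simp only [hsq_eq]; rw [h3]
    · simp only [hsq_eq]; rw [h4]

theorem frame_offcells {α : Type*} {F : α → α → α} (hF : IsFrame F) {i i' i1 i2 : α}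
    (hne : i ≠ i') (h : Corner F i i' (i1, i2)) : i1 ≠ i2 ∧ i ≠ i2 ∧ i1 ≠ i' := by
  obtain ⟨h1, h2, h3, h4⟩ := h
  simp only at h1 h2 h3 h4
  refine ⟨?_, ?_, ?_⟩
  · rintro rfl
    exact hF.diag i1 (i, i') ⟨h1.symm, h2.symm, h3.symm, h4.symm⟩
  · rintro rfl
    exact hF.diag i (i1, i') ⟨h1, h2.symm, h4, h3⟩
  · rintro rfl
    exact hF.diag i1 (i, i2) ⟨h1.symm, h2, h4.symm, h3.symm⟩

/-- Corners at a cell of an off-diagonal block. -/
theorem hsq_corner_ne {α β : Type*} {F : α → α → α} {G M : β → β → β} (hF : IsFrame F)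
    (hM : IsLatinSquare M) (hM0 : ∀ r c q, ¬ Corner M r c q)
    {i i' : α} (hne : i ≠ i') (j j' : β) (i1 i2 : α) (j1 j2 : β) :
    Corner (hsq F G M) (i, j) (i', j') ((i1, j1), (i2, j2)) ↔
      Corner F i i' (i1, i2) ∧ j1 = j ∧ j2 = j' := by
  constructor
  · rintro ⟨h1, h2, h3, h4⟩
    simp only at h1 h2 h3 h4
    rw [hsq_ne _ _ _ hne] at h3
    by_cases h : i1 = i2
    · exfalso
      subst h
      rw [hsq_eq, Prod.mk.injEq] at h3
      have h5 : i ≠ i1 := by
        rintro rfl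
        exact hne (frame_row hF h3.1).symm
      have h6 : i1 ≠ i' := by
        rintro rfl
        exact hne (frame_col hF h3.1)
      rw [hsq_ne _ _ _ h5, hsq_ne _ _ _ h6, Prod.mk.injEq] at h4
      exact hF.diag i1 (i, i') ⟨h5.symm, h6, (hF.idem i1).trans h3.1.symm, h4.1.symm⟩
    · rw [hsq_ne _ _ _ h, Prod.mk.injEq] at h3
      -- the two other corners
      have hM1 : M j j2 = M j1 j' → j1 = j ∧ j2 = j' := by
        intro h5
        by_cases hr : j = j1
        · subst hr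
          exact ⟨rfl, (rinj' hM h3.2).symm⟩
        · by_cases hc : j' = j2
          · subst hc
            exact absurd (cinj' hM h3.2) hr
          · exact absurd ⟨hr, hc, h3.2, h5⟩ (hM0 j j' (j1, j2))
      by_cases ha : i1 = i
      · exfalso
        subst ha
        have hb : i' = i2 := rinj' hF.latin h3.1
        subst hb
        rw [hsq_ne _ _ _ hne, hsq_ne _ _ _ hne, Prod.mk.injEq] at h4
        obtain ⟨rfl, rfl⟩ := hM1 h4.2
        exact h1 rfl
      have hb : i2 ≠ i' := by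
        rintro rfl
        exact ha (cinj' hF.latin h3.1).symm
      by_cases hc : i = i2
      · exfalso
        subst hc
        rw [hsq_eq] at h4
        by_cases hd : i1 = i'
        · subst hd
          rw [hsq_eq, Prod.mk.injEq] at h4
          exact hne h4.1
        · rw [hsq_ne _ _ _ hd, Prod.mk.injEq] at h4
          exact hF.diag i (i1, i') ⟨fun h => ha h.symm, hne, (hF.idem i).trans h4.1, h3.1⟩
      · by_cases hd : i1 = i'
        · exfalso
          subst hd
          rw [hsq_eq, hsq_ne _ _ _ hc, Prod.mk.injEq] at h4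
          exact hF.diag i1 (i, i2) ⟨ha, h, (hF.idem i1).trans h4.1.symm, h3.1.symm⟩
        · rw [hsq_ne _ _ _ hc, hsq_ne _ _ _ hd, Prod.mk.injEq] at h4
          exact ⟨⟨fun h => ha h.symm, fun h => hb h.symm, h3.1, h4.1⟩, hM1 h4.2⟩
  · rintro ⟨h, rfl, rfl⟩
    obtain ⟨h5, h6, h7⟩ := frame_offcells hF hne h
    obtain ⟨h1, h2, h3, h4⟩ := h
    simp only at h1 h2 h3 h4
    refine ⟨?_, ?_, ?_, ?_⟩
    · intro h; exact h1 (congrArg Prod.fst h)
    · intro h; exact h2 (congrArg Prod.fst h)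
    · simp only; rw [hsq_ne _ _ _ hne, hsq_ne _ _ _ h5, h3]
    · simp only; rw [hsq_ne _ _ _ h6, hsq_ne _ _ _ h7, h4]

theorem hsq_frame {α β : Type*} {F : α → α → α} {G M : β → β → β} (hF : IsFrame F)
    (hG : IsFrame G) (hM : IsLatinSquare M) (hM0 : ∀ r c q, ¬ Corner M r c q) :
    IsFrame (hsq F G M) where
  latin := hsq_latin hF hG hM
  idem := by
    rintro ⟨i, j⟩
    rw [hsq_eq, hG.idem]
  off := by
    rintro ⟨i, j⟩ ⟨i', j'⟩ hne
    by_cases h : i = i'
    · subst h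
      have hj : j ≠ j' := fun h => hne (by rw [h])
      rw [← hG.off j j' hj]
      refine Nat.card_congr ⟨fun q => ⟨(q.1.1.2, q.1.2.2), ?_⟩,
        fun q => ⟨((i, q.1.1), (i, q.1.2)), ?_⟩, ?_, ?_⟩
      · obtain ⟨⟨⟨i1, j1⟩, ⟨i2, j2⟩⟩, hq⟩ := q
        exact ((hsq_corner_eq hF i j j' i1 i2 j1 j2).1 hq).2.2
      · exact (hsq_corner_eq hF i j j' i i q.1.1 q.1.2).2 ⟨rfl, rfl, q.2⟩
      · rintro ⟨⟨⟨i1, j1⟩, ⟨i2, j2⟩⟩, hq⟩
        obtain ⟨rfl, rfl, -⟩ := (hsq_corner_eq hF i j j' i1 i2 j1 j2).1 hq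
        rfl
      · rintro ⟨⟨j1, j2⟩, hq⟩
        rfl
    · rw [← hF.off i i' h]
      refine Nat.card_congr ⟨fun q => ⟨(q.1.1.1, q.1.2.1), ?_⟩,
        fun q => ⟨((q.1.1, j), (q.1.2, j')), ?_⟩, ?_, ?_⟩
      · obtain ⟨⟨⟨i1, j1⟩, ⟨i2, j2⟩⟩, hq⟩ := q
        exact ((hsq_corner_ne hF hM hM0 h j j' i1 i2 j1 j2).1 hq).1
      · exact (hsq_corner_ne hF hM hM0 h j j' q.1.1 q.1.2 j j').2 ⟨q.2, rfl, rfl⟩
      · rintro ⟨⟨⟨i1, j1⟩, ⟨i2, j2⟩⟩, hq⟩
        obtain ⟨-, rfl, rfl⟩ := (hsq_corner_ne hF hM hM0 h j j' i1 i2 j1 j2).1 hq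
        rfl
      · rintro ⟨⟨i1, i2⟩, hq⟩
        rfl
  diag := by
    rintro ⟨i, j⟩ ⟨⟨i1, j1⟩, ⟨i2, j2⟩⟩ h
    exact hG.diag j (j1, j2) ((hsq_corner_eq hF i j j i1 i2 j1 j2).1 h).2.2

theorem Frame.mul_odd {a b : ℕ} (ha : Frame a) (hb : Frame b) (hodd : Odd b) :
    Frame (a * b) := by
  obtain ⟨F, hF⟩ := ha
  obtain ⟨G, hG⟩ := hb
  obtain ⟨M, hM, hM0⟩ := n2_odd hodd
  have := frame_of (hsq_frame hF hG hM hM0)
  simpa using this

end Pool.Agent.H4
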