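import Pool.Agent.H4.Basic

/-!
# [H4-GD] Composition lemma: 4-homogeneous squares from a group divisible design without complete
quadrilaterals

Points `X`, groups = fibres of `π`, blocks `B : β` with incidence `mem B x`.
PROOF.  Let `blk x y` be the block of two points of different groups (`h2`, choice) and
`L x y = if π x = π y then G x y else F (blk x y) x y`.
Facts: (a) if `π x = π y` then `π (L x y) = π x` (`hGc`). (b) if `π x ≠ π y`, `B = blk x y`,
`s = L x y`, then `s ∈ B` (`hFc`), `s ≠ x` (`F B x y = x = F B x x` would give `y = x` by `hFr`),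
`s ≠ y`, so `π s ≠ π x`, `π s ≠ π y` by `h1`.  (c) if `mem B x`, `mem B y`, `x ≠ y` then
`π x ≠ π y` (`h1`) and `blk x y = B` (`h2`).
* latin, rows: row `x`, symbol `s`.  If `π s = π x`: the solution from `hGr`; a `y` with
  `π y ≠ π x` has `π (L x y) ≠ π x` by (b).  If `π s ≠ π x`: let `B = blk x s`, `y` the unique point
  of `B` with `F B x y = s` (`hFr`); `y ≠ x` because `F B x x = x ≠ s`, so `L x y = s`.  Uniqueness:
  if `L x y' = s` then `π y' ≠ π x` (by (a)), `s ∈ blk x y'`, so `blk x y' = blk x s = B` by (c), and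
  `hFr`.  Columns: same with `hFcol`.
* homogeneous: use `isHomogeneous_iff`.
  Cell `(x,y)` with `π x = π y`: the corners `q = (x',y')` of `L` are exactly the `q` with
  `π x' = π x`, `π y' = π x`, `Corner G x y q` (then `hG4`).  Let `s = L x y` (`π s = π x`),
  `t = L x y' = L x' y`.  If `π x' = π y'` then `π s = π x'` so all in one group: fine.  If
  `π x' ≠ π y'`, then `B1 = blk x' y'` contains `x', y', s`, `π x', π y'` differ from `π s = π x`,
  so `(x,y')`, `(x',y)` are off-cells: `B3 = blk x y'`... apply `h6` with (its `x`) `= x'`,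
  (its `y`) `= y'`, (its `x'`) `= x`, (its `y'`) `= y`: `mem B1 x'`, `F B1 x' y' = s`,
  `G x y = s`, `F B3 x' y = t` with `B3 = blk x' y`, `F B4 x y' = t` with `B4 = blk x y'`: `False`.
  Cell `(x,y)` with `π x ≠ π y`, `B = blk x y`, `s = L x y ∈ B`: the corners of `L` are exactly the
  `q` with `mem B q.1`, `mem B q.2`, `Corner (F B) x y q` (then `hF4`).  Let `q = (x',y')` be a
  corner of `L`, `t = L x y' = L x' y`.  If `π x' = π y'` then `π x' = π s`, and `(x,y')`, `(x',y)`
  are off-cells (`π x ≠ π s = π y'`), so `h6` gives `False`.  So `π x' ≠ π y'`, `B2 = blk x' y' ∋ s`.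
  If `π x = π y'` then `π t = π x`; if also `π x' = π y` then `π t = π y`, contradiction; so
  `π x' ≠ π y`, `B4 = blk x' y ∋ t`, and `h6` applied to (`x`,`y`) `:= (x',y)` off-cell with symbol
  `t`, group cell `(x,y')` with symbol `t` in the group of `t`, and the other two cells
  `(x',y')`, `(x,y)` with symbol `s`: `False` (need `π x' ≠ π t`: (b)).  Same if `π x' = π y`.
  So all four cells are off-cells, with blocks `B1 = B, B2, B3 = blk x y', B4 = blk x' y`, and `h5`
  gives `B1 = B2` (all the inequalities by (b)), hence `x', y' ∈ B` and all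
  values are values of `F B`: (`blk x y' = B` by (c) because `x ≠ y'` as `π x ≠ π y'`).
  Conversely, let `q` be a corner of `F B` at `(x,y)` with `x', y' ∈ B`.  `x' ≠ y'`: otherwise
  `F B x' y' = x'` and `Corner (F B) x' x' (x, y)`: excluded by `hF0` (the corner relation is
  symmetric: `Corner L r c (r',c') ↔ Corner L r' c' (r,c)`, and
  `Corner L r c (r',c') → Corner L r c' (r',c)`); similarly `x ≠ y'`, `x' ≠ y`.  So the four cells are off-cells with block `B` and
  `L = F B` on them.
-/

namespace Pool.Agent.H4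

theorem gdd {X Γ β : Type} [Fintype X] (π : X → Γ) (mem : β → X → Prop)
    (h1 : ∀ B x y, mem B x → mem B y → π x = π y → x = y)
    (h2 : ∀ x y, π x ≠ π y → ∃! B, mem B x ∧ mem B y)
    (F : β → X → X → X)
    (hFc : ∀ B x y, mem B x → mem B y → mem B (F B x y))
    (hFi : ∀ B x, mem B x → F B x x = x)
    (hFr : ∀ B x s, mem B x → mem B s → ∃! y, mem B y ∧ F B x y = s)
    (hFcol : ∀ B y s, mem B y → mem B s → ∃! x, mem B x ∧ F B x y = s)
    (hF4 : ∀ B x y, mem B x → mem B y → x ≠ y →
      Nat.card {q : X × X // mem B q.1 ∧ mem B q.2 ∧ Corner (F B) x y q} = 4)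
    (hF0 : ∀ B x q, mem B x → mem B q.1 → mem B q.2 → ¬ Corner (F B) x x q)
    (G : X → X → X)
    (hGc : ∀ x y, π x = π y → π (G x y) = π x)
    (hGr : ∀ x s, π x = π s → ∃! y, π y = π x ∧ G x y = s)
    (hGcol : ∀ y s, π y = π s → ∃! x, π x = π y ∧ G x y = s)
    (hG4 : ∀ x y, π x = π y →
      Nat.card {q : X × X // π q.1 = π x ∧ π q.2 = π x ∧ Corner G x y q} = 4)
    (h5 : ∀ B1 B2 B3 B4 x x' y y' s t, mem B1 x → mem B1 y → mem B1 s →
      mem B2 x' → mem B2 y' → mem B2 s → mem B3 x → mem B3 y' → mem B3 t →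
      mem B4 x' → mem B4 y → mem B4 t →
      π x ≠ π y → π x ≠ π s → π y ≠ π s → π x' ≠ π y' → π x' ≠ π s → π y' ≠ π s →
      π x ≠ π y' → π x ≠ π t → π y' ≠ π t → π x' ≠ π y → π x' ≠ π t → π y ≠ π t → B1 = B2)
    (h6 : ∀ B1 B3 B4 x y x' y' s t, mem B1 x → mem B1 y → mem B1 s → F B1 x y = s →
      π x ≠ π y → π x ≠ π s → π y ≠ π s → π x' = π s → π y' = π s → G x' y' = s →
      mem B3 x → mem B3 y' → mem B3 t → F B3 x y' = t → π t ≠ π x → π t ≠ π s →
      mem B4 x' → mem B4 y → mem B4 t → F B4 x' y = t → π t ≠ π y → False) :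
    ∃ L : X → X → X, IsLatinSquare L ∧ IsHomogeneous 4 L := by
  classical
  obtain ⟨L, hLin, hLoff⟩ : ∃ L : X → X → X, (∀ x y, π x = π y → L x y = G x y) ∧
      (∀ B x y, π x ≠ π y → mem B x → mem B y → L x y = F B x y) := by
    refine ⟨fun x y => if h : π x = π y then G x y else F (h2 x y h).exists.choose x y,
      fun x y h => dif_pos h, fun B x y h hx hy => ?_⟩
    show (if h : π x = π y then G x y else F (h2 x y h).exists.choose x y) = F B x y
    rw [dif_neg h]
    rw [(h2 x y h).unique (h2 x y h).exists.choose_spec ⟨hx, hy⟩]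
  have hA : ∀ x y, π x = π y → π (L x y) = π x := fun x y h => by
    rw [hLin x y h]
    exact hGc x y h
  have hB : ∀ B x y, π x ≠ π y → mem B x → mem B y →
      mem B (L x y) ∧ π (L x y) ≠ π x ∧ π (L x y) ≠ π y := by
    intro B x y h hx hy
    have e := hLoff B x y h hx hy
    have hm : mem B (L x y) := by
      rw [e]
      exact hFc B x y hx hy
    refine ⟨hm, fun h3 => ?_, fun h3 => ?_⟩
    · have h4 := h1 B _ _ hm hx h3
      rw [e] at h4
      have h5' := (hFr B x x hx hx).unique ⟨hy, h4⟩ ⟨hx, hFi B x hx⟩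
      exact h (by rw [h5'])
    · have h4 := h1 B _ _ hm hy h3
      rw [e] at h4
      have h5' := (hFcol B y y hy hy).unique ⟨hx, h4⟩ ⟨hy, hFi B y hy⟩
      exact h (by rw [h5'])
  have hC : ∀ B x y, mem B x → mem B y → x ≠ y → π x ≠ π y :=
    fun B x y hx hy hxy h => hxy (h1 B x y hx hy h)
  refine ⟨L, ⟨?_, ?_⟩, ?_⟩
  · intro x s
    by_cases hs : π x = π s
    · obtain ⟨y, ⟨hy, hy'⟩, hu⟩ := hGr x s hs
      refine ⟨y, ?_, ?_⟩
      · show L x y = s
        rw [hLin x y hy.symm, hy']
      · intro y' h'
        have h'' : L x y' = s := h'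
        by_cases h : π x = π y'
        · exact hu y' ⟨h.symm, by rw [← hLin x y' h]; exact h''⟩
        · obtain ⟨B, ⟨b1, b2⟩, -⟩ := h2 x y' h
          have h3 := hB B x y' h b1 b2
          rw [h''] at h3
          exact absurd hs.symm h3.2.1
    · obtain ⟨B, ⟨b1, b2⟩, hu⟩ := h2 x s hs
      obtain ⟨y, ⟨hy, hy'⟩, hu'⟩ := hFr B x s b1 b2
      have hyx : x ≠ y := by
        rintro rfl
        apply hs
        rw [← hy', hFi B x b1]
      have hp := hC B x y b1 hy hyx
      refine ⟨y, (hLoff B x y hp b1 hy).trans hy', ?_⟩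
      intro y' h'
      have h'' : L x y' = s := h'
      have hp' : π x ≠ π y' := fun h => hs (by rw [← h'']; exact (hA x y' h).symm)
      obtain ⟨B', ⟨c1, c2⟩, -⟩ := h2 x y' hp'
      have h3 := hB B' x y' hp' c1 c2
      rw [h''] at h3
      have h4 : B' = B := hu B' ⟨c1, h3.1⟩
      subst h4
      exact hu' y' ⟨c2, by rw [← hLoff _ x y' hp' c1 c2]; exact h''⟩
  · intro y s
    by_cases hs : π y = π s
    · obtain ⟨x, ⟨hx, hx'⟩, hu⟩ := hGcol y s hs
      refine ⟨x, ?_, ?_⟩
      · show L x y = s
        rw [hLin x y hx, hx']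
      · intro x' h'
        have h'' : L x' y = s := h'
        by_cases h : π x' = π y
        · exact hu x' ⟨h, by rw [← hLin x' y h]; exact h''⟩
        · obtain ⟨B, ⟨b1, b2⟩, -⟩ := h2 x' y h
          have h3 := hB B x' y h b1 b2
          rw [h''] at h3
          exact absurd hs.symm h3.2.2
    · obtain ⟨B, ⟨b1, b2⟩, hu⟩ := h2 y s hs
      obtain ⟨x, ⟨hx, hx'⟩, hu'⟩ := hFcol B y s b1 b2
      have hxy : x ≠ y := by
        rintro rfl
        apply hs
        rw [← hx', hFi B x b1]
      have hp := hC B x y hx b1 hxy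
      refine ⟨x, (hLoff B x y hp hx b1).trans hx', ?_⟩
      intro x' h'
      have h'' : L x' y = s := h'
      have hp' : π x' ≠ π y := fun h => hs (by rw [← h'', hA x' y h]; exact h.symm)
      obtain ⟨B', ⟨c1, c2⟩, -⟩ := h2 x' y hp'
      have h3 := hB B' x' y hp' c1 c2
      rw [h''] at h3
      have h4 : B' = B := hu B' ⟨c2, h3.1⟩
      subst h4
      exact hu' x' ⟨c1, by rw [← hLoff _ x' y hp' c1 c2]; exact h''⟩
  · rw [isHomogeneous_iff]
    intro x y
    by_cases h : π x = π y
    · rw [← hG4 x y h]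
      refine Nat.card_congr (Equiv.subtypeEquivRight ?_)
      rintro ⟨x', y'⟩
      have hs : π (L x y) = π x := hA x y h
      constructor
      · rintro ⟨k1, k2, k3, k4⟩
        change x ≠ x' at k1
        change y ≠ y' at k2
        change L x y = L x' y' at k3
        change L x y' = L x' y at k4
        have hxy' : π x' = π y' := by
          by_contra hne
          obtain ⟨B1, ⟨b1, b2⟩, -⟩ := h2 x' y' hne
          obtain ⟨p1, p2, p3⟩ := hB B1 x' y' hne b1 b2
          have q1 : π x ≠ π y' := by
            intro h3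
            apply p3
            rw [← k3, hs]
            exact h3
          have q2 : π x' ≠ π y := by
            intro h3
            apply p2
            rw [← k3, hs, h]
            exact h3.symm
          obtain ⟨B4, ⟨d1, d2⟩, -⟩ := h2 x y' q1
          obtain ⟨B3, ⟨c1, c2⟩, -⟩ := h2 x' y q2
          obtain ⟨r1, r2, r3⟩ := hB B4 x y' q1 d1 d2
          obtain ⟨s1, s2, s3⟩ := hB B3 x' y q2 c1 c2
          refine h6 B1 B3 B4 x' y' x y (L x y) (L x y') b1 b2 ?_ ?_ hne ?_ ?_ hs.symm ?_ ?_ c1 c2
            ?_ ?_ ?_ ?_ d1 d2 r1 ?_ r3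
          · rw [k3]; exact p1
          · rw [k3]; exact (hLoff B1 x' y' hne b1 b2).symm
          · rw [k3]; exact p2.symm
          · rw [k3]; exact p3.symm
          · rw [hs]; exact h.symm
          · exact (hLin x y h).symm
          · rw [k4]; exact s1
          · rw [k4]; exact (hLoff B3 x' y q2 c1 c2).symm
          · rw [k4]; exact s2
          · rw [hs]; exact r2
          · exact (hLoff B4 x y' q1 d1 d2).symm
        have hx' : π x' = π x := by
          rw [← hs, k3]
          exact (hA x' y' hxy').symm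
        have hy' : π y' = π x := hxy'.symm.trans hx'
        refine ⟨hx', hy', k1, k2, ?_, ?_⟩
        · show G x y = G x' y'
          rw [← hLin x y h, ← hLin x' y' hxy']
          exact k3
        · show G x y' = G x' y
          rw [← hLin x y' hy'.symm, ← hLin x' y (hx'.trans h)]
          exact k4
      · rintro ⟨p1, p2, k1, k2, k3, k4⟩
        change π x' = π x at p1
        change π y' = π x at p2
        change G x y = G x' y' at k3
        change G x y' = G x' y at k4
        refine ⟨k1, k2, ?_, ?_⟩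
        · show L x y = L x' y'
          rw [hLin x y h, hLin x' y' (p1.trans p2.symm)]
          exact k3
        · show L x y' = L x' y
          rw [hLin x y' p2.symm, hLin x' y (p1.trans h)]
          exact k4
    · obtain ⟨B, ⟨bx, hby⟩, hu⟩ := h2 x y h
      have hxy : x ≠ y := fun h3 => h (by rw [h3])
      rw [← hF4 B x y bx hby hxy]
      refine Nat.card_congr (Equiv.subtypeEquivRight ?_)
      rintro ⟨x', y'⟩
      have es := hLoff B x y h bx hby
      obtain ⟨hs0, hs1, hs2⟩ := hB B x y h bx hby
      constructor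
      · rintro ⟨k1, k2, k3, k4⟩
        change x ≠ x' at k1
        change y ≠ y' at k2
        change L x y = L x' y' at k3
        change L x y' = L x' y at k4
        have c1 : π x' ≠ π y' := by
          intro e
          have hs' : π x' = π (L x y) := by
            rw [k3]
            exact (hA x' y' e).symm
          have q1 : π x ≠ π y' := by
            rw [← e, hs']
            exact hs1.symm
          have q2 : π x' ≠ π y := by
            rw [hs']
            exact hs2
          obtain ⟨B3, ⟨d1, d2⟩, -⟩ := h2 x y' q1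
          obtain ⟨B4, ⟨f1, f2⟩, -⟩ := h2 x' y q2
          obtain ⟨r1, r2, r3⟩ := hB B3 x y' q1 d1 d2
          obtain ⟨s1, s2, s3⟩ := hB B4 x' y q2 f1 f2
          refine h6 B B3 B4 x y x' y' (L x y) (L x y') bx hby hs0 es.symm h hs1.symm hs2.symm
            hs' ?_ ?_ d1 d2 r1 ?_ r2 ?_ f1 f2 ?_ ?_ ?_
          · rw [← e]; exact hs'
          · rw [k3]; exact (hLin x' y' e).symm
          · exact (hLoff B3 x y' q1 d1 d2).symm
          · rw [← hs', e]; exact r3
          · rw [k4]; exact s1
          · rw [k4]; exact (hLoff B4 x' y q2 f1 f2).symm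
          · rw [k4]; exact s3
        obtain ⟨B2, ⟨g1, g2⟩, -⟩ := h2 x' y' c1
        obtain ⟨u1, u2, u3⟩ := hB B2 x' y' c1 g1 g2
        have es2 := hLoff B2 x' y' c1 g1 g2
        rw [← k3] at u1 u2 u3 es2
        have c2 : π x ≠ π y' := by
          intro e
          have ht : π (L x y') = π x := hA x y' e
          have q2 : π x' ≠ π y := by
            intro e'
            apply h
            have h3 := hA x' y e'
            rw [← k4, ht] at h3
            exact h3.trans e'
          obtain ⟨B4, ⟨f1, f2⟩, -⟩ := h2 x' y q2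
          obtain ⟨s1, s2, s3⟩ := hB B4 x' y q2 f1 f2
          have et := hLoff B4 x' y q2 f1 f2
          rw [← k4] at s1 s2 s3 et
          refine h6 B4 B2 B x' y x y' (L x y') (L x y) f1 f2 s1 et.symm q2 s2.symm s3.symm
            ht.symm ?_ ?_ g1 g2 u1 es2.symm u2 ?_ bx hby hs0 es.symm hs2
          · rw [ht]; exact e.symm
          · exact (hLin x y' e).symm
          · rw [ht]; exact hs1
        obtain ⟨B3, ⟨d1, d2⟩, -⟩ := h2 x y' c2
        obtain ⟨r1, r2, r3⟩ := hB B3 x y' c2 d1 d2
        have et3 := hLoff B3 x y' c2 d1 d2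
        have c3 : π x' ≠ π y := by
          intro e
          have ht : π (L x y') = π x' := by
            rw [k4]
            exact hA x' y e
          refine h6 B3 B B2 x y' x' y (L x y') (L x y) d1 d2 r1 et3.symm c2 r2.symm r3.symm
            ht.symm ?_ ?_ bx hby hs0 es.symm hs1 ?_ g1 g2 u1 es2.symm u3
          · rw [ht]; exact e.symm
          · rw [k4]; exact (hLin x' y e).symm
          · rw [ht, e]; exact hs2
        obtain ⟨B4, ⟨f1, f2⟩, -⟩ := h2 x' y c3
        obtain ⟨s1, s2, s3⟩ := hB B4 x' y c3 f1 f2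
        rw [← k4] at s1 s2 s3
        have hBB : B = B2 := h5 B B2 B3 B4 x x' y y' (L x y) (L x y') bx hby hs0 g1 g2 u1 d1 d2 r1
          f1 f2 s1 h hs1.symm hs2.symm c1 u2.symm u3.symm c2 r2.symm r3.symm c3 s2.symm s3.symm
        subst hBB
        refine ⟨g1, g2, k1, k2, ?_, ?_⟩
        · show F B x y = F B x' y'
          rw [← es, ← es2]
        · show F B x y' = F B x' y
          rw [← hLoff B x y' c2 bx g2, ← hLoff B x' y c3 g1 hby]
          exact k4
      · rintro ⟨m1, m2, k1, k2, k3, k4⟩
        change mem B x' at m1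
        change mem B y' at m2
        change x ≠ x' at k1
        change y ≠ y' at k2
        change F B x y = F B x' y' at k3
        change F B x y' = F B x' y at k4
        have c1 : x' ≠ y' := by
          rintro rfl
          exact hF0 B x' (x, y) m1 bx hby ⟨k1.symm, k2.symm, k3.symm, k4.symm⟩
        have c2 : x ≠ y' := by
          rintro rfl
          exact hF0 B x (x', y) bx m1 hby ⟨k1, hxy, k4, k3⟩
        have c3 : x' ≠ y := by
          rintro rfl
          exact hF0 B x' (x, y') m1 bx m2 ⟨hxy.symm, k2, k4.symm, k3.symm⟩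
        refine ⟨k1, k2, ?_, ?_⟩
        · show L x y = L x' y'
          rw [es, hLoff B x' y' (hC B x' y' m1 m2 c1) m1 m2]
          exact k3
        · show L x y' = L x' y
          rw [hLoff B x y' (hC B x y' bx m2 c2) bx m2, hLoff B x' y (hC B x' y m1 hby c3) m1 hby]
          exact k4

end Pool.Agent.H4
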