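import Pool.Agent.H4.TdDefs

/-!
# [H4-LB] Integer labels in general position

PROOF.  In `MvPolynomial J ℤ` let `X i` be the variables.  For indices as below let
`Q1 = X i - X j` (`i ≠ j`), `Q2 = dtm` of the six variables, written out as a polynomial, `Q3`, `Q4` the
polynomials of the last two items.  Every one of them is nonzero because it has a nonzero value:
* `Q1`: value at the assignment `fun l => if l = i then 1 else 0` is `1`;
* `Q2` (the twelve inequalities say that the sets `{i,i'}`, `{j,j'}`, `{g,k}` are pairwise disjoint):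
  assignment `0` on `{i,i'}`, `1` on `{j,j'}`, `2` on `{g,k}`:
  `dtm 0 0 1 1 2 2 = (0-1)(1-2)(2-0) - (1-0)(2-1)(0-2) = 2 + 2 = 4`;
* `Q3`, `Q4` (`i, j, g, k` different): assignment `0` on `i, j` and `1` on `g, k`: then
  `A = (k-i)(g-j) = 1`, `B = (g-i)(k-j) = 1`, `Q3 = 2A - B = 1`,
  `Q4 = A^3 - 2A^2(A-B) - A(A-B)^2 + (A-B)^3 = 1`.
Let `R` be the product over all index tuples (finitely many, `Finset.prod` over
`J × J`, `J × J × J × J × J × J`, `J × J × J × J`) of these polynomials, with `1` for tuples which do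
not satisfy the inequalities.  `R ≠ 0` (domain, `Finset.prod_ne_zero_iff`), so by
`MvPolynomial.funext` (`ℤ` infinite domain) there is `τ : J → ℤ` with `eval τ R ≠ 0`.  Put
`P = eval τ R`; every factor divides `P` (`Finset.dvd_prod_of_mem` after `map_prod`).
-/

namespace Pool.Agent.H4

open MvPolynomial in
/-- the polynomial of the first item -/
noncomputable def LB_q1 {J : Type} (i j : J) : MvPolynomial J ℤ := X i - X j

open MvPolynomial in
/-- the polynomial of the second item -/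
noncomputable def LB_q2 {J : Type} (i i' j j' g k : J) : MvPolynomial J ℤ :=
  (X i' - X j) * (X j' - X g) * (X k - X i) - (X j' - X i) * (X k - X j) * (X i' - X g)

open MvPolynomial in
noncomputable def LB_A {J : Type} (i j g k : J) : MvPolynomial J ℤ := (X k - X i) * (X g - X j)

open MvPolynomial in
noncomputable def LB_B {J : Type} (i j g k : J) : MvPolynomial J ℤ := (X g - X i) * (X k - X j)

/-- the polynomial of the third item -/
noncomputable def LB_q3 {J : Type} (i j g k : J) : MvPolynomial J ℤ := 2 * LB_A i j g k - LB_B i j g k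

/-- the polynomial of the fourth item -/
noncomputable def LB_q4 {J : Type} (i j g k : J) : MvPolynomial J ℤ :=
  LB_A i j g k ^ 3 - 2 * LB_A i j g k ^ 2 * (LB_A i j g k - LB_B i j g k) -
    LB_A i j g k * (LB_A i j g k - LB_B i j g k) ^ 2 + (LB_A i j g k - LB_B i j g k) ^ 3

theorem LB_ne {J : Type} {p : MvPolynomial J ℤ} (a : J → ℤ) (h : MvPolynomial.eval a p ≠ 0) : p ≠ 0 := by
  rintro rfl
  exact h (map_zero _)

theorem LB_n1 {J : Type} {i j : J} (h : i ≠ j) : LB_q1 i j ≠ 0 := by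
  classical
  apply LB_ne (fun l => if l = i then 1 else 0)
  unfold LB_q1
  rw [map_sub, MvPolynomial.eval_X, MvPolynomial.eval_X]
  simp [h.symm]

theorem LB_n2 {J : Type} {i i' j j' g k : J} (h1 : i ≠ j) (h2 : i ≠ j') (h3 : i' ≠ j) (h4 : i' ≠ j') (h5 : i ≠ g)
    (h6 : i ≠ k) (h7 : i' ≠ g) (h8 : i' ≠ k) (h9 : j ≠ g) (h10 : j ≠ k) (h11 : j' ≠ g) (h12 : j' ≠ k) :
    LB_q2 i i' j j' g k ≠ 0 := by
  classical
  apply LB_ne (fun l => if l = i ∨ l = i' then 0 else if l = j ∨ l = j' then 1 else 2)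
  unfold LB_q2
  simp only [map_sub, map_mul, MvPolynomial.eval_X]
  simp [h1.symm, h2.symm, h3.symm, h4.symm, h5.symm, h6.symm, h7.symm, h8.symm, h9.symm, h10.symm, h11.symm,
    h12.symm]

theorem LB_eA {J : Type} (τ : J → ℤ) (i j g k : J) :
    MvPolynomial.eval τ (LB_A i j g k) = (τ k - τ i) * (τ g - τ j) := by
  unfold LB_A
  simp only [map_sub, map_mul, MvPolynomial.eval_X]

theorem LB_eB {J : Type} (τ : J → ℤ) (i j g k : J) :
    MvPolynomial.eval τ (LB_B i j g k) = (τ g - τ i) * (τ k - τ j) := by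
  unfold LB_B
  simp only [map_sub, map_mul, MvPolynomial.eval_X]

theorem LB_e3 {J : Type} (τ : J → ℤ) (i j g k : J) (A B : ℤ) (hA : A = (τ k - τ i) * (τ g - τ j))
    (hB : B = (τ g - τ i) * (τ k - τ j)) : MvPolynomial.eval τ (LB_q3 i j g k) = 2 * A - B := by
  unfold LB_q3
  rw [map_sub, map_mul, map_ofNat, LB_eA, LB_eB, hA, hB]

theorem LB_e4 {J : Type} (τ : J → ℤ) (i j g k : J) (A B : ℤ) (hA : A = (τ k - τ i) * (τ g - τ j))
    (hB : B = (τ g - τ i) * (τ k - τ j)) : MvPolynomial.eval τ (LB_q4 i j g k) =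
      A ^ 3 - 2 * A ^ 2 * (A - B) - A * (A - B) ^ 2 + (A - B) ^ 3 := by
  unfold LB_q4
  simp only [map_sub, map_mul, map_add, map_pow, map_ofNat]
  rw [LB_eA, LB_eB, hA, hB]

theorem LB_n34 {J : Type} {i j g k : J} (h2 : i ≠ g) (h3 : i ≠ k) (h4 : j ≠ g) (h5 : j ≠ k) :
    LB_q3 i j g k ≠ 0 ∧ LB_q4 i j g k ≠ 0 := by
  classical
  have hA : (1 : ℤ) = ((fun l : J => if l = i ∨ l = j then (0 : ℤ) else 1) k -
      (fun l : J => if l = i ∨ l = j then (0 : ℤ) else 1) i) *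
      ((fun l : J => if l = i ∨ l = j then (0 : ℤ) else 1) g -
      (fun l : J => if l = i ∨ l = j then (0 : ℤ) else 1) j) := by
    simp [h2.symm, h3.symm, h4.symm, h5.symm]
  have hB : (1 : ℤ) = ((fun l : J => if l = i ∨ l = j then (0 : ℤ) else 1) g -
      (fun l : J => if l = i ∨ l = j then (0 : ℤ) else 1) i) *
      ((fun l : J => if l = i ∨ l = j then (0 : ℤ) else 1) k -
      (fun l : J => if l = i ∨ l = j then (0 : ℤ) else 1) j) := by
    simp [h2.symm, h3.symm, h4.symm, h5.symm]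
  constructor
  · apply LB_ne (fun l => if l = i ∨ l = j then 0 else 1)
    rw [LB_e3 _ i j g k 1 1 hA hB]
    norm_num
  · apply LB_ne (fun l => if l = i ∨ l = j then 0 else 1)
    rw [LB_e4 _ i j g k 1 1 hA hB]
    norm_num

/-- values of finitely many nonzero polynomials -/
theorem LB_family (J : Type) [Fintype J] (S : Finset (MvPolynomial J ℤ)) (hS : ∀ p ∈ S, p ≠ 0) :
    ∃ (τ : J → ℤ) (P : ℤ), P ≠ 0 ∧ ∀ p ∈ S, MvPolynomial.eval τ p ∣ P := by
  classical
  have h1 : ∏ p ∈ S, p ≠ 0 := Finset.prod_ne_zero_iff.mpr hS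
  obtain ⟨τ, hτ⟩ : ∃ τ : J → ℤ, MvPolynomial.eval τ (∏ p ∈ S, p) ≠ 0 := by
    by_contra h
    push Not at h
    apply h1
    apply MvPolynomial.funext
    intro τ
    rw [h τ, map_zero]
  refine ⟨τ, MvPolynomial.eval τ (∏ p ∈ S, p), hτ, ?_⟩
  intro p hp
  rw [map_prod]
  exact Finset.dvd_prod_of_mem (fun p => MvPolynomial.eval τ p) hp

theorem labels (J : Type) [Fintype J] : ∃ (τ : J → ℤ) (P : ℤ), P ≠ 0 ∧
    (∀ i j : J, i ≠ j → (τ i - τ j) ∣ P) ∧
    (∀ i i' j j' g k : J, i ≠ j → i ≠ j' → i' ≠ j → i' ≠ j' → i ≠ g → i ≠ k →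
      i' ≠ g → i' ≠ k → j ≠ g → j ≠ k → j' ≠ g → j' ≠ k →
      dtm (τ i) (τ i') (τ j) (τ j') (τ g) (τ k) ∣ P) ∧
    (∀ i j g k : J, i ≠ j → i ≠ g → i ≠ k → j ≠ g → j ≠ k → g ≠ k →
      ∀ A B : ℤ, A = (τ k - τ i) * (τ g - τ j) → B = (τ g - τ i) * (τ k - τ j) →
      (2 * A - B) ∣ P ∧ (A ^ 3 - 2 * A ^ 2 * (A - B) - A * (A - B) ^ 2 + (A - B) ^ 3) ∣ P) := by
  classical
  let S : Finset (MvPolynomial J ℤ) :=
    (((Finset.univ : Finset (J × J)).image (fun t => LB_q1 t.1 t.2)) ∪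
    ((Finset.univ : Finset (J × J × J × J × J × J)).image
      (fun t => LB_q2 t.1 t.2.1 t.2.2.1 t.2.2.2.1 t.2.2.2.2.1 t.2.2.2.2.2)) ∪
    ((Finset.univ : Finset (J × J × J × J)).image (fun t => LB_q3 t.1 t.2.1 t.2.2.1 t.2.2.2)) ∪
    ((Finset.univ : Finset (J × J × J × J)).image (fun t => LB_q4 t.1 t.2.1 t.2.2.1 t.2.2.2))).filter
      (fun p => p ≠ 0)
  obtain ⟨τ, P, hP, h⟩ := LB_family J S (fun p hp => (Finset.mem_filter.mp hp).2)
  refine ⟨τ, P, hP, ?_, ?_, ?_⟩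
  · intro i j hij
    have h1 := h (LB_q1 i j) (Finset.mem_filter.mpr ⟨Finset.mem_union_left _ (Finset.mem_union_left _
      (Finset.mem_union_left _ (Finset.mem_image.mpr ⟨(i, j), Finset.mem_univ _, rfl⟩))), LB_n1 hij⟩)
    unfold LB_q1 at h1
    rwa [map_sub, MvPolynomial.eval_X, MvPolynomial.eval_X] at h1
  · intro i i' j j' g k h1 h2 h3 h4 h5 h6 h7 h8 h9 h10 h11 h12
    have h13 := h (LB_q2 i i' j j' g k) (Finset.mem_filter.mpr ⟨Finset.mem_union_left _ (Finset.mem_union_left _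
      (Finset.mem_union_right _ (Finset.mem_image.mpr ⟨(i, i', j, j', g, k), Finset.mem_univ _, rfl⟩))),
      LB_n2 h1 h2 h3 h4 h5 h6 h7 h8 h9 h10 h11 h12⟩)
    unfold LB_q2 at h13
    simp only [map_sub, map_mul, MvPolynomial.eval_X] at h13
    exact h13
  · intro i j g k h1 h2 h3 h4 h5 h6 A B hA hB
    have h7 := LB_n34 h2 h3 h4 h5
    constructor
    · have h8 := h (LB_q3 i j g k) (Finset.mem_filter.mpr ⟨Finset.mem_union_left _ (Finset.mem_union_right _
        (Finset.mem_image.mpr ⟨(i, j, g, k), Finset.mem_univ _, rfl⟩)), h7.1⟩)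
      rwa [LB_e3 τ i j g k A B hA hB] at h8
    · have h8 := h (LB_q4 i j g k) (Finset.mem_filter.mpr ⟨Finset.mem_union_right _
        (Finset.mem_image.mpr ⟨(i, j, g, k), Finset.mem_univ _, rfl⟩), h7.2⟩)
      rwa [LB_e4 τ i j g k A B hA hB] at h8

end Pool.Agent.H4
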