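import Mathlib

/-!
# [H4-NT] Arithmetic: `n = 832 P N + v` with `N` prime to `B` and `27 ∣ v`

PROOF.  Write `B = 3^e * B'` with `3 ∤ B'` (`Nat.exists_eq_pow_mul_and_not_dvd`), `M = 27 * B'`.  Since
`3 ∤ 832 * P` there is `u` with `832 * P * u ≡ 1 (mod 27)`.  For `n` with `3 ∤ n` let
`c = u * n`; by the Chinese remainder theorem (`Nat.chineseRemainder`, `27` and `B'` coprime) there is
`N1 < M` with `N1 ≡ c (mod 27)`, `N1 ≡ 1 (mod B')`.  Let `X = (n - 109) / (832 * P)` and let `N` be the largest number `≤ X` with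
`N ≡ N1 (mod M)`, i.e. `N = X - (X + M - N1) % M` (for `X ≥ M`), so `X - M < N ≤ X`.  `N` is prime to `3` (as `c` is) and
to `B'`, so to `B`.  Put `v = n - 832 * P * N`: then `v ≥ 109` as `832 P N ≤ 832 P X ≤ n - 109`, and `v ≡ n - 832 P c ≡ 0 (mod 27)`,
and `v ≤ n - 832 P (X - M) ≤ 109 + 832 P (M + 1)`; and `P N ≥ P (X - M) ≥ 109 + 832 P (M+1)` when `n` is
large (`N0 := 832 * P * (109 + 832 * P * (M + 1) + M + 1) + 109` or more; be generous).
-/

namespace Pool.Agent.H4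

theorem arith (P B : ℕ) (hP : 0 < P) (hP3 : ¬ 3 ∣ P) (hB : 0 < B) :
    ∃ N0 : ℕ, ∀ n : ℕ, N0 ≤ n → ¬ 3 ∣ n → ∃ N v : ℕ, n = 832 * (P * N) + v ∧ v ≤ P * N ∧
      Nat.Coprime N B ∧ 27 ∣ v ∧ 108 < v := by
  obtain ⟨e, B', hB', rfl⟩ := Nat.exists_eq_pow_mul_and_not_dvd hB.ne' 3 (by norm_num)
  have hB'pos : 0 < B' := by
    rcases Nat.eq_zero_or_pos B' with h | h
    · subst h; simp at hB'
    · exact h
  have h3B' : Nat.Coprime 27 B' := by
    have h1 : Nat.Coprime 3 B' := (Nat.Prime.coprime_iff_not_dvd Nat.prime_three).2 hB'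
    have h2 := Nat.Coprime.pow_left 3 h1
    simpa using h2
  have h3P : Nat.Coprime (832 * P) 27 := by
    have h1 : Nat.Coprime 3 P := (Nat.Prime.coprime_iff_not_dvd Nat.prime_three).2 hP3
    have h2 : Nat.Coprime 3 832 := by norm_num
    have h3 : Nat.Coprime 3 (832 * P) := Nat.Coprime.mul_right h2 h1
    have h4 := (Nat.Coprime.pow_left 3 h3).symm
    simpa using h4
  obtain ⟨u, hu⟩ : ∃ u, 832 * P * u ≡ 1 [MOD 27] := by
    obtain ⟨m, hm⟩ := Nat.exists_mul_mod_eq_one_of_coprime h3P (by norm_num)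
    exact ⟨m, by simpa [Nat.ModEq] using hm.2⟩
  have hDpos : 0 < 832 * P := by positivity
  obtain ⟨D, hD⟩ : ∃ D, D = 832 * P := ⟨_, rfl⟩
  rw [← hD] at hu hDpos h3P
  obtain ⟨M, hM⟩ : ∃ M, M = 27 * B' := ⟨_, rfl⟩
  have hMpos : 0 < M := by rw [hM]; positivity
  refine ⟨D * (109 + D * (M + 1) + 2 * M + 2) + 109, fun n hn h3n => ?_⟩
  obtain ⟨K, hKa, hKb⟩ := Nat.chineseRemainder h3B' (u * n) 1
  obtain ⟨N1, hN1⟩ : ∃ N1, N1 = K % M := ⟨_, rfl⟩
  have hN1lt : N1 < M := by rw [hN1]; exact Nat.mod_lt _ hMpos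
  have hN1K : N1 ≡ K [MOD M] := by rw [hN1]; exact Nat.mod_modEq _ _
  obtain ⟨X, hX⟩ : ∃ X, X = (n - 109) / D := ⟨_, rfl⟩
  have hX1 : D * X ≤ n - 109 := by rw [hX]; exact Nat.mul_div_le _ _
  have hX2 : n - 109 < D * (X + 1) := by
    rw [hX]; exact Nat.lt_mul_div_succ _ hDpos
  have hXbig : 109 + D * (M + 1) + 2 * M + 2 ≤ X := by
    rw [hX, Nat.le_div_iff_mul_le hDpos, Nat.mul_comm]; omega
  obtain ⟨r, hr⟩ : ∃ r, r = (X + M - N1) % M := ⟨_, rfl⟩
  have hrlt : r < M := by rw [hr]; exact Nat.mod_lt _ hMpos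
  have hrX : r ≤ X := by
    have h0 : 0 ≤ D * (M + 1) := Nat.zero_le _
    omega
  obtain ⟨N, hN⟩ : ∃ N, N = X - r := ⟨_, rfl⟩
  have hNr : N + r = X := by omega
  have hNmod : N ≡ N1 [MOD M] := by
    have h1 : r ≡ X + M - N1 [MOD M] := by rw [hr]; exact Nat.mod_modEq _ _
    have h2 : N + r + N1 ≡ N + (X + M - N1) + N1 [MOD M] :=
      (Nat.ModEq.add_left N h1).add_right N1
    have h3 : N + (X + M - N1) + N1 = X + (N + M) := by omega
    rw [hNr, h3] at h2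
    have h4 : N1 ≡ N + M [MOD M] := Nat.ModEq.add_left_cancel' X h2
    have h5 : N + M ≡ N [MOD M] := by simp [Nat.ModEq]
    exact (h4.trans h5).symm
  have hNK : N ≡ K [MOD M] := hNmod.trans hN1K
  have hN27 : N ≡ u * n [MOD 27] :=
    (hNK.of_dvd (by rw [hM]; exact Dvd.intro _ rfl)).trans hKa
  have hNB : N ≡ 1 [MOD B'] :=
    (hNK.of_dvd (by rw [hM]; exact Dvd.intro_left _ rfl)).trans hKb
  have hcopB : Nat.Coprime N B' := by
    have h1 : Nat.gcd N B' = Nat.gcd 1 B' := hNB.gcd_eq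
    rw [Nat.gcd_one_left] at h1
    exact h1
  have hu3 : ¬ 3 ∣ u := by
    intro h
    have h1 : D * u ≡ 1 [MOD 3] := hu.of_dvd (by norm_num)
    have h2 : D * u ≡ 0 [MOD 3] := (Nat.modEq_zero_iff_dvd).2 (h.mul_left D)
    have h3 : (1 : ℕ) ≡ 0 [MOD 3] := h1.symm.trans h2
    simp [Nat.ModEq] at h3
  have hcop3 : ¬ 3 ∣ N := by
    intro h
    have h1 : N ≡ u * n [MOD 3] := hN27.of_dvd (by norm_num)
    have h2 : N ≡ 0 [MOD 3] := (Nat.modEq_zero_iff_dvd).2 h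
    have h3 : 3 ∣ u * n := (Nat.modEq_zero_iff_dvd).1 (h1.symm.trans h2)
    rcases (Nat.Prime.dvd_mul Nat.prime_three).1 h3 with h4 | h4
    · exact hu3 h4
    · exact h3n h4
  have hNX : N ≤ X := by omega
  have hDN : D * N ≤ D * X := Nat.mul_le_mul_left D hNX
  have hn109 : 109 ≤ n := by
    have h0 : 0 ≤ D * (109 + D * (M + 1) + 2 * M + 2) := Nat.zero_le _
    omega
  have hDN2 : D * N + 109 ≤ n := by omega
  have hassoc : 832 * (P * N) = D * N := by rw [hD]; ring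
  refine ⟨N, n - D * N, ?_, ?_, ?_, ?_, ?_⟩
  · rw [hassoc]; omega
  · have h1 : D * (X + 1) = D * N + D * (r + 1) := by
      rw [← hNr]; ring
    have h2 : D * (r + 1) ≤ D * (M + 1) := Nat.mul_le_mul_left D (by omega)
    have h3 : N ≤ P * N := Nat.le_mul_of_pos_left N hP
    omega
  · exact Nat.Coprime.mul_right
      (Nat.Coprime.pow_right e ((Nat.Prime.coprime_iff_not_dvd Nat.prime_three).2 hcop3).symm)
      hcopB
  · have h1 : D * N ≡ D * (u * n) [MOD 27] := hN27.mul_left D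
    have h2 : D * (u * n) ≡ 1 * n [MOD 27] := by
      rw [← Nat.mul_assoc]; exact hu.mul_right n
    have h3 : D * N ≡ n [MOD 27] := by
      have := h1.trans h2
      rwa [Nat.one_mul] at this
    exact (Nat.modEq_iff_dvd' (by omega)).1 h3
  · omega

end Pool.Agent.H4
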