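import Pool.Agent.H4.Cube

/-!
# The translation invariant form of the 4-homogeneous square on `F^3`, times `2 x - y` on `ZMod N`
-/

namespace Pool.Agent.H4

section
variable {F : Type} [Field F]

def fm (d : F × F × F) : F × F × F :=
  (d.1 + (d.2.1 - d.2.2 - d.1 ^ 2 / 2),
    d.2.1 + d.1 + (d.2.1 - d.2.2 - d.1 ^ 2 / 2) - (d.2.1 - d.2.2 - d.1 ^ 2 / 2) ^ 2 / 2,
    (d.2.1 - d.2.2 - d.1 ^ 2 / 2) - (d.1 + (d.2.1 - d.2.2 - d.1 ^ 2 / 2)) ^ 2 / 2)

def gT (w w' : F × F × F) : F × F × F := w + fm (w' - w)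

def eA : (F × F × F) ≃ (F × F × F) where
  toFun w := (w.1, -(w.2.1 - w.2.2 + w.1 ^ 2 / 2), w.2.2 - w.1 ^ 2 / 2)
  invFun w := (w.1, w.2.2 - w.2.1, w.2.2 + w.1 ^ 2 / 2)
  left_inv w := by ext <;> simp <;> ring
  right_inv w := by ext <;> simp <;> ring

def eB : (F × F × F) ≃ (F × F × F) where
  toFun w := (w.1, w.2.1 - w.1 ^ 2 / 2, w.2.1 - w.2.2 + w.1 - w.1 ^ 2 / 2)
  invFun w := (w.1, w.2.1 + w.1 ^ 2 / 2, w.2.1 + w.1 - w.2.2)
  left_inv w := by ext <;> simp <;> ring
  right_inv w := by ext <;> simp <;> ring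

def eC : (F × F × F) ≃ (F × F × F) where
  toFun w := (w.1, w.2.1 - w.1 + w.1 ^ 2 / 2, w.2.2 - w.1 + w.1 ^ 2 / 2)
  invFun w := (w.1, w.2.1 + w.1 - w.1 ^ 2 / 2, w.2.2 + w.1 - w.1 ^ 2 / 2)
  left_inv w := by ext <;> simp <;> ring
  right_inv w := by ext <;> simp <;> ring

theorem gT_iso (h2 : (2 : F) ≠ 0) (w w' : F × F × F) :
    eC (gT w w') = cubeL (eA w) (eB w') := by
  obtain ⟨a, b, c⟩ := w
  obtain ⟨a', b', c'⟩ := w'
  simp only [eC, eA, eB, cubeL, gT, fm, Equiv.coe_fn_mk, Prod.mk.injEq, Prod.mk_sub_mk,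
    Prod.mk_add_mk]
  refine ⟨?_, ?_, ?_⟩
  · field_simp
    ring
  · field_simp
    ring
  · field_simp
    ring

theorem gT_latin (h2 : (2 : F) ≠ 0) : IsLatinSquare (gT (F := F)) :=
  isotopic_latin eA eB eC (gT_iso h2) cubeL_latin

theorem gT_homogeneous (h2 : (2 : F) ≠ 0) : IsHomogeneous 4 (gT (F := F)) :=
  isotopic_homogeneous eA eB eC (gT_iso h2) (cubeL_homogeneous h2)

theorem fm_eigen (h2 : (2 : F) ≠ 0) {a c : F} (ha : a ≠ 0) (hc : c ≠ 0) (hac : a - c ≠ 0)
    (hΦ : a ^ 3 - 2 * a ^ 2 * c - a * c ^ 2 + c ^ 3 ≠ 0) (d : F × F × F)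
    (h : c • fm d = a • d) : d = 0 := by
  obtain ⟨D, p, r⟩ := d
  simp only [fm, Prod.smul_mk, smul_eq_mul, Prod.mk.injEq] at h
  set m : F := p - r - D ^ 2 / 2 with hm
  obtain ⟨e1, e2, e3⟩ := h
  have hm2 : 2 * m = 2 * p - 2 * r - D ^ 2 := by
    rw [hm]; field_simp
  have k1 : c * m = (a - c) * D := by linear_combination e1
  have k2 : 2 * c * ((a - c) * p) = 2 * a * c * D - (a - c) ^ 2 * D ^ 2 := by
    have e2' : 2 * (c * (p + D + m)) - c * m ^ 2 = 2 * (a * p) := by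
      have : 2 * (c * (p + D + m - m ^ 2 / 2)) = 2 * (a * p) := by rw [e2]
      rw [← this]; field_simp
    linear_combination -c * e2' + (2 * c - c * m - (a - c) * D) * k1
  have k3 : 2 * c * (a * r) = 2 * (a - c) * c * D - a ^ 2 * D ^ 2 := by
    have e3' : 2 * (c * m) - c * (D + m) ^ 2 = 2 * (a * r) := by
      have : 2 * (c * (m - (D + m) ^ 2 / 2)) = 2 * (a * r) := by rw [e3]
      rw [← this]; field_simp
    linear_combination -c * e3' + (2 * c - c * (D + m) - a * D) * k1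
  have k4 : D * (a ^ 3 - 2 * a ^ 2 * c - a * c ^ 2 + c ^ 3) = 0 := by
    apply mul_left_cancel₀ h2
    linear_combination (-2 * a * (a - c)) * k1 + a * (a - c) * c * hm2 + a * k2 - (a - c) * k3
  have hD : D = 0 := (mul_eq_zero.1 k4).resolve_right hΦ
  subst hD
  have hp : p = 0 := by
    have : 2 * c * ((a - c) * p) = 0 := by rw [k2]; ring
    rcases mul_eq_zero.1 this with h | h
    · rcases mul_eq_zero.1 h with h | h
      · exact absurd h h2
      · exact absurd h hc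
    · exact (mul_eq_zero.1 h).resolve_left hac
  have hr : r = 0 := by
    have : 2 * c * (a * r) = 0 := by rw [k3]; ring
    rcases mul_eq_zero.1 this with h | h
    · rcases mul_eq_zero.1 h with h | h
      · exact absurd h h2
      · exact absurd h hc
    · exact (mul_eq_zero.1 h).resolve_left ha
  rw [hp, hr]; rfl

end

theorem lin_latin {N : ℕ} (hN : Odd N) : IsLatinSquare (fun a b : ZMod N => 2 * a - b) := by
  have h2 : IsUnit (2 : ZMod N) := by
    have := (ZMod.isUnit_iff_coprime 2 N).2 (Nat.coprime_two_left.2 hN)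
    simpa using this
  obtain ⟨u, hu⟩ := h2
  have hu' : (u : ZMod N) * ((u⁻¹ : (ZMod N)ˣ) : ZMod N) = 1 := by simp
  rw [hu] at hu'
  set h : ZMod N := ((u⁻¹ : (ZMod N)ˣ) : ZMod N)
  constructor
  · intro r s
    exact ⟨2 * r - s, by ring, fun c hc => by rw [← hc]; ring⟩
  · intro c s
    refine ⟨h * (s + c), ?_, fun r hr => ?_⟩
    · show 2 * (h * (s + c)) - c = s
      linear_combination (s + c) * hu'
    · have hr' : 2 * r - c = s := hr
      linear_combination (-r) * hu' + h * hr'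

theorem lin_corner {N : ℕ} (hN : Odd N) (r c : ZMod N) (q : ZMod N × ZMod N) :
    ¬ Corner (fun a b : ZMod N => 2 * a - b) r c q := by
  rintro ⟨h1, -, h2, h3⟩
  apply h1
  simp only at h2 h3
  have h4 : 2 * (2 * (r - q.1)) = 0 := by linear_combination h2 + h3
  have h5 : IsUnit (2 : ZMod N) := by
    have := (ZMod.isUnit_iff_coprime 2 N).2 (Nat.coprime_two_left.2 hN)
    simpa using this
  have h6 := (h5.mul_right_eq_zero).1 ((h5.mul_right_eq_zero).1 h4)
  exact sub_eq_zero.1 h6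

theorem pg {p N : ℕ} (hp : p.Prime) (hp2 : p ≠ 2) (hN : Odd N) :
    ∃ G : ((ZMod p × ZMod p × ZMod p) × ZMod N) → ((ZMod p × ZMod p × ZMod p) × ZMod N) →
      ((ZMod p × ZMod p × ZMod p) × ZMod N), IsLatinSquare G ∧ IsHomogeneous 4 G ∧
      ∀ A B : ℤ, (∀ w : (ZMod p × ZMod p × ZMod p) × ZMod N, A • w = 0 → w = 0) →
        (∀ w : (ZMod p × ZMod p × ZMod p) × ZMod N, B • w = 0 → w = 0) →
        (∀ w : (ZMod p × ZMod p × ZMod p) × ZMod N, (A - B) • w = 0 → w = 0) →
        (∀ w : (ZMod p × ZMod p × ZMod p) × ZMod N, (2 * A - B) • w = 0 → w = 0) →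
        (∀ w : (ZMod p × ZMod p × ZMod p) × ZMod N,
          (A ^ 3 - 2 * A ^ 2 * (A - B) - A * (A - B) ^ 2 + (A - B) ^ 3) • w = 0 → w = 0) →
        ∀ γ d' d'' : (ZMod p × ZMod p × ZMod p) × ZMod N, A • d' = B • d'' →
          G (γ + d'') (γ + d') = γ → d' = 0 ∧ d'' = 0 := by
  have : Fact p.Prime := ⟨hp⟩
  have h2 : (2 : ZMod p) ≠ 0 := by
    intro h
    have h1 : ((2 : ℕ) : ZMod p) = 0 := by exact_mod_cast h
    have h2 := (ZMod.natCast_eq_zero_iff 2 p).1 h1
    exact hp2 ((Nat.prime_dvd_prime_iff_eq hp Nat.prime_two).1 h2)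
  refine ⟨prodSquare gT (fun a b : ZMod N => 2 * a - b),
    prod_latin (gT_latin h2) (lin_latin hN),
    prod_homogeneous (lin_latin hN) (lin_corner hN) (gT_homogeneous h2), ?_⟩
  intro A B hA hB hC h2A hΦ γ d' d'' hd hG
  have hne : ∀ m : ℤ, (∀ w : (ZMod p × ZMod p × ZMod p) × ZMod N, m • w = 0 → w = 0) →
      (m : ZMod p) ≠ 0 := by
    intro m hm h0
    have := hm ((1, 0, 0), 0) (by
      refine Prod.ext (Prod.ext ?_ (Prod.ext ?_ ?_)) ?_
      · show m • (1 : ZMod p) = 0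
        rw [zsmul_eq_mul, h0, zero_mul]
      · show m • (0 : ZMod p) = 0
        simp
      · show m • (0 : ZMod p) = 0
        simp
      · show m • (0 : ZMod N) = 0
        simp)
    have h1 : (1 : ZMod p) = 0 := congrArg (fun w => w.1.1) this
    exact one_ne_zero h1
  obtain ⟨γ1, γ2⟩ := γ
  obtain ⟨d1', d2'⟩ := d'
  obtain ⟨d1'', d2''⟩ := d''
  have hd1 : A • d1' = B • d1'' := congrArg Prod.fst hd
  have hd2 : A • d2' = B • d2'' := congrArg Prod.snd hd
  have hG1 : gT (γ1 + d1'') (γ1 + d1') = γ1 := congrArg Prod.fst hG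
  have hG2 : 2 * (γ2 + d2'') - (γ2 + d2') = γ2 := congrArg Prod.snd hG
  have hδ : d1' - d1'' = 0 := by
    refine fm_eigen h2 (a := (A : ZMod p)) (c := ((A - B : ℤ) : ZMod p)) (hne A hA)
      (hne _ hC) ?_ ?_ (d1' - d1'') ?_
    · have := hne B hB
      push_cast
      simpa using this
    · have := hne _ hΦ
      push_cast at this ⊢
      exact this
    · have h3 : fm (d1' - d1'') = -d1'' := by
        have : γ1 + d1'' + fm (γ1 + d1' - (γ1 + d1'')) = γ1 := hG1
        rw [add_sub_add_left_eq_sub] at this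
        have h5 : d1'' + fm (d1' - d1'') = 0 := by
          have h6 : γ1 + (d1'' + fm (d1' - d1'')) = γ1 + 0 := by
            rw [← add_assoc, this, add_zero]
          exact add_left_cancel h6
        exact eq_neg_of_add_eq_zero_right h5
      rw [h3]
      rw [Int.cast_smul_eq_zsmul, Int.cast_smul_eq_zsmul]
      rw [smul_sub, hd1, sub_smul, smul_neg, smul_neg]
      abel
  have h1 : d1' = d1'' := sub_eq_zero.1 hδ
  have e1 : d1'' = 0 := by
    have := hC (d1'', 0) (by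
      refine Prod.ext ?_ ?_
      · show (A - B) • d1'' = 0
        rw [sub_smul, ← hd1, h1, sub_self]
      · show (A - B) • (0 : ZMod N) = 0
        simp)
    exact congrArg Prod.fst this
  have h2' : d2' = 2 * d2'' := by linear_combination -hG2
  have e2 : d2'' = 0 := by
    have := h2A (0, d2'') (by
      refine Prod.ext ?_ ?_
      · show (2 * A - B) • (0 : ZMod p × ZMod p × ZMod p) = 0
        simp
      · show (2 * A - B) • d2'' = 0
        rw [h2'] at hd2
        rw [zsmul_eq_mul] at hd2 ⊢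
        rw [zsmul_eq_mul] at hd2
        push_cast
        linear_combination hd2)
    exact congrArg Prod.snd this
  refine ⟨Prod.ext (h1.trans e1) ?_, Prod.ext e1 e2⟩
  show d2' = 0
  rw [h2', e2, mul_zero]

end Pool.Agent.H4
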