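import Pool.Agent.H4.Td
import Pool.Agent.H4.FrMul
import Pool.Agent.H4.Fr7
import Pool.Agent.H4.Fr64
import Pool.Agent.H4.Lab
import Pool.Agent.H4.Pg
import Pool.Agent.H4.CubeMul
import Pool.Agent.H4.Nt

/-!
# Main theorem: all sufficiently large orders
-/

namespace Pool.Agent.H4

theorem frame832 : Frame 832 := by
  have := frame64.mul_odd frame13 (by decide)
  simpa using this

theorem frame833 : Frame 833 := by
  have := (frame7.mul_odd frame7 (by decide)).mul_odd frame17 (by decide)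
  simpa using this

/-- Integers dividing `P` act injectively on a finite abelian group of order prime to `P`. -/
theorem smul_inj {W : Type} [AddCommGroup W] [Fintype W] {P m : ℤ}
    (hc : Nat.Coprime (Fintype.card W) P.natAbs) (hm : m ∣ P) (w : W) (h : m • w = 0) : w = 0 := by
  obtain ⟨c, rfl⟩ := hm
  have h1 : (m * c) • w = 0 := by rw [mul_comm, mul_smul, h, smul_zero]
  have h2 : ((Fintype.card W : ℕ) : ℤ) • w = 0 := by
    rw [natCast_zsmul]; exact card_nsmul_eq_zero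
  have h3 : IsCoprime ((Fintype.card W : ℕ) : ℤ) (m * c) := by
    rw [Int.isCoprime_iff_gcd_eq_one]
    exact hc
  obtain ⟨a, b, hab⟩ := h3
  have h4 : (a * ((Fintype.card W : ℕ) : ℤ) + b * (m * c)) • w = 0 := by
    rw [add_smul, mul_smul, mul_smul b, h1, h2]; simp
  rwa [hab, one_smul] at h4

theorem main_coprime : ∃ N0 : ℕ, ∀ n : ℕ, N0 ≤ n → ¬ 3 ∣ n → Ord4 n := by
  obtain ⟨Fs, hFs⟩ := frame832
  obtain ⟨Fo, hFo⟩ := frame833.on (Option (Fin 832)) (by simp)
  obtain ⟨τ, P0, hP0, hL1, hL2, hL3⟩ := labels (Option (Fin 832))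
  have hB : 0 < 6 * P0.natAbs := Nat.mul_pos (by norm_num) (Int.natAbs_pos.2 hP0)
  obtain ⟨p, hpB, hp⟩ := Nat.exists_infinite_primes (6 * P0.natAbs + 1)
  have hp2 : p ≠ 2 := by
    have := Int.natAbs_pos.2 hP0
    omega
  have hp3 : p ≠ 3 := by
    have := Int.natAbs_pos.2 hP0
    omega
  have hpc : Nat.Coprime p (6 * P0.natAbs) := by
    rw [Nat.Prime.coprime_iff_not_dvd hp]
    intro h
    have := Nat.le_of_dvd hB h
    omega
  have h3p : ¬ 3 ∣ p ^ 3 := by
    intro h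
    have := (Nat.prime_dvd_prime_iff_eq Nat.prime_three hp).1 (Nat.prime_three.dvd_of_dvd_pow h)
    omega
  obtain ⟨N0, hN0⟩ := arith (p ^ 3) (6 * P0.natAbs) (pow_pos hp.pos 3) h3p hB
  refine ⟨N0, fun n hn h3 => ?_⟩
  obtain ⟨N, v, hnv, hvN, hcN, h27, hv⟩ := hN0 n hn h3
  have hN : Odd N := by
    have h1 : Nat.Coprime N 2 := Nat.Coprime.coprime_dvd_right ⟨3 * P0.natAbs, by ring⟩ hcN
    rwa [Nat.coprime_two_right] at h1
  have hNz : NeZero N := ⟨by rintro rfl; simp at hN⟩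
  have hpz : NeZero p := ⟨hp.ne_zero⟩
  obtain ⟨G, hG, hG4, hGb⟩ := pg hp hp2 hN
  have hcard : Fintype.card ((ZMod p × ZMod p × ZMod p) × ZMod N) = p ^ 3 * N := by
    simp only [Fintype.card_prod, ZMod.card]
    ring
  have hcop : Nat.Coprime (Fintype.card ((ZMod p × ZMod p × ZMod p) × ZMod N)) P0.natAbs := by
    rw [hcard]
    have h6 : P0.natAbs ∣ 6 * P0.natAbs := ⟨6, by ring⟩
    exact Nat.Coprime.mul_left ((Nat.Coprime.coprime_dvd_right h6 hpc).pow_left 3)
      (Nat.Coprime.coprime_dvd_right h6 hcN)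
  have hinj : ∀ m : ℤ, m ∣ P0 → ∀ w : (ZMod p × ZMod p × ZMod p) × ZMod N, m • w = 0 → w = 0 :=
    fun m hm w h => smul_inj hcop hm w h
  have hv4 : Ord4 v := by
    obtain ⟨m, rfl⟩ := h27
    have := ord4_cube_mul (p := 3) (m := m) Nat.prime_three (by norm_num) (by omega) (by omega)
    simpa using this
  have key := td hFs hFo (W := (ZMod p × ZMod p × ZMod p) × ZMod N) τ
    (fun i j hij w h => hinj _ (hL1 i j hij) w h)
    (fun i i' j j' g k a1 a2 a3 a4 a5 a6 a7 a8 a9 a10 a11 a12 w h =>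
      hinj _ (hL2 i i' j j' g k a1 a2 a3 a4 a5 a6 a7 a8 a9 a10 a11 a12) w h)
    hG hG4
    (fun i j g k a1 a2 a3 a4 a5 a6 γ d' d'' h1 h2 => by
      have h3' := hL3 i j g k a1 a2 a3 a4 a5 a6 _ _ rfl rfl
      have hd : ∀ a b : Option (Fin 832), a ≠ b →
          ∀ w : (ZMod p × ZMod p × ZMod p) × ZMod N, (τ a - τ b) • w = 0 → w = 0 :=
        fun a b hab w h => hinj _ (hL1 a b hab) w h
      have hdd : ∀ a b a' b' : Option (Fin 832), a ≠ b → a' ≠ b' →
          ∀ w : (ZMod p × ZMod p × ZMod p) × ZMod N,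
            ((τ a - τ b) * (τ a' - τ b')) • w = 0 → w = 0 := by
        intro a b a' b' hab hab' w h
        rw [mul_smul] at h
        exact hd _ _ hab' _ (hd _ _ hab _ h)
      refine hGb _ _ (hdd _ _ _ _ (Ne.symm a3) (Ne.symm a4))
        (hdd _ _ _ _ (Ne.symm a2) (Ne.symm a5)) ?_ (hinj _ h3'.1) (hinj _ h3'.2) γ d' d'' h1 h2
      have e : (τ k - τ i) * (τ g - τ j) - (τ g - τ i) * (τ k - τ j)
          = (τ k - τ g) * (τ i - τ j) := by ring
      rw [e]
      exact hdd _ _ _ _ (Ne.symm a6) a1)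
    (v := v) (by rw [hcard]; exact hvN) hv4
  rw [Fintype.card_fin, hcard, ← hnv] at key
  exact key

/-- There is a 4-homogeneous latin square of every sufficiently large order. -/
theorem main : ∃ N0 : ℕ, ∀ n : ℕ, N0 ≤ n → Ord4 n := by
  obtain ⟨N0, hN0⟩ := main_coprime
  refine ⟨27 * (N0 + 1) + 109, fun n hn => ?_⟩
  obtain ⟨i, n', h3, rfl⟩ := Nat.exists_eq_pow_mul_and_not_dvd (n := n) (by omega) 3 (by norm_num)
  by_cases h : N0 ≤ n'
  · have := (hN0 n' h h3).mul_odd (b := 3 ^ i) (Odd.pow (by decide))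
    rwa [mul_comm] at this
  · have hi : 3 ≤ i := by
      by_contra hi
      have : 3 ^ i ≤ 9 := by interval_cases i <;> norm_num
      have : 3 ^ i * n' ≤ 9 * N0 := Nat.mul_le_mul this (by omega)
      omega
    obtain ⟨j, rfl⟩ := Nat.exists_eq_add_of_le hi
    have e : 3 ^ (3 + j) * n' = 3 ^ 3 * (3 ^ j * n') := by rw [pow_add]; ring
    rw [e] at hn ⊢
    exact ord4_cube_mul Nat.prime_three (by norm_num) (by omega) (by omega)

end Pool.Agent.H4
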