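import Pool.Agent.H4.TdA

/-!
# [H4-TB] The geometry of the design

`td_same`: immediate.  `td_block`: `Inc B x`, `Inc B y` with indices `i ≠ j`: subtract:
`(τ i - τ j) • B.1 = x.2 - y.2`; multiplication by `τ i - τ j` is injective by `hd`, so bijective
(`W` finite); then `B.2 = x.2 - τ i • B.1`.
`td_quad`: `B1 = (a1,b1)` etc., `A_l = a_l - a1`, `β_l = b_l - b1`, labels
`i = τ x, i' = τ x', j = τ y, j' = τ y', g = τ s, k = τ t` (images of the indices).  The six common points give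
`i A3 + β3 = 0`, `j A4 + β4 = 0`, `g A2 + β2 = 0`, `i' (A2 - A4) + (β2 - β4) = 0`,
`j' (A2 - A3) + (β2 - β3) = 0`, `k (A3 - A4) + (β3 - β4) = 0`, so
`(i' - g) A2 = (i' - j) A4`, `(j' - g) A2 = (j' - i) A3`, `(k - i) A3 = (k - j) A4`, hence
`(i'-j)(j'-g)(k-i) A2 = (i'-j)(k-i)(j'-i) A3 = (i'-j)(j'-i)(k-j) A4 = (j'-i)(k-j)(i'-g) A2`, i.e.
`dtm i i' j j' g k • A2 = 0`, so `A2 = 0` and `β2 = 0`, `B1 = B2`.
(`linear_combination (exp := 1)` works in modules via `module`/`linear_combination` with `•`.)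
`td_bad`: (indices `i, j, g, k` of `x, y, s, t`; they are pairwise different).  If `g = none`:
`s` is on `B1`, `y'` on `B3`, `x'` on `B4`, all with index `none`, so all three blocks have
`τ none • _ + _ ∈ V` and `bop = Fo` for the three blocks: `Fo i j = none`, `Fo i none = k`,
`Fo none j = k` (first coordinates of the three equations `bF .. = s, t, t`), and `Fo none none = none`
(idempotent), so `Corner Fo none none (i, j)`: excluded by `hFo.diag`.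
If `g = some g0`: `s = (g, γ)`, `x' = (g, γ + d'')`, `y' = (g, γ + d')`; `G x' y' = s` says
`G (γ + d'') (γ + d') = γ` (unfold `gG`).  With `u = a3 - a1`, `w = a4 - a1`:
`d' = (τ g - τ i) • u`, `d'' = (τ g - τ j) • w`, `(τ k - τ i) • u = (τ k - τ j) • w`, so
`((τ k - τ i) (τ g - τ j)) • d' = ((τ g - τ i) (τ k - τ j)) • d''` and `hbad` gives
`d' = d'' = 0`, so `x' = y' = s`; then `B3 = B1` and `B4 = B1` by `td_block` (`x, s` resp. `y, s`),
and for the block `B1`: `F x y = s`, `F x s = t = F s y`, `F s s = s` (`bF_idem`), so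
`Corner (bF B1) s s (x, y)`: excluded by `bF_diag`.
-/

namespace Pool.Agent.H4

variable {I W : Type} [AddCommGroup W] [Fintype W] (τ : Option I → ℤ) (V : Set W)

omit [Fintype W] in
theorem td_same (B : W × W) (x y : Pt I V) (hx : Inc τ V B x) (hy : Inc τ V B y)
    (h : x.1.1 = y.1.1) : x = y := by
  have hx' : x.1.2 = τ x.1.1 • B.1 + B.2 := hx
  have hy' : y.1.2 = τ y.1.1 • B.1 + B.2 := hy
  exact Subtype.ext (Prod.ext h (by rw [hx', hy', h]))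

theorem td_block (hd : ∀ i j, i ≠ j → ∀ w : W, (τ i - τ j) • w = 0 → w = 0) (x y : Pt I V)
    (h : x.1.1 ≠ y.1.1) : ∃! B : W × W, Inc τ V B x ∧ Inc τ V B y := by
  have hinj : Function.Injective (fun w : W => (τ x.1.1 - τ y.1.1) • w) := by
    intro a b hab
    have hab' : (τ x.1.1 - τ y.1.1) • a = (τ x.1.1 - τ y.1.1) • b := hab
    have h1 := hd _ _ h (a - b) (by rw [smul_sub, hab', sub_self])
    exact sub_eq_zero.1 h1
  obtain ⟨a, ha⟩ := (Finite.injective_iff_surjective.1 hinj) (x.1.2 - y.1.2)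
  have ha' : (τ x.1.1 - τ y.1.1) • a = x.1.2 - y.1.2 := ha
  refine ⟨(a, x.1.2 - τ x.1.1 • a), ⟨?_, ?_⟩, ?_⟩
  · show x.1.2 = τ x.1.1 • a + (x.1.2 - τ x.1.1 • a)
    abel
  · show y.1.2 = τ y.1.1 • a + (x.1.2 - τ x.1.1 • a)
    rw [sub_smul] at ha'
    have : y.1.2 = x.1.2 - (τ x.1.1 • a - τ y.1.1 • a) := by rw [ha']; abel
    rw [this]
    abel
  · rintro ⟨a', b'⟩ ⟨h1, h2⟩
    have h1' : x.1.2 = τ x.1.1 • a' + b' := h1
    have h2' : y.1.2 = τ y.1.1 • a' + b' := h2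
    have haa : a' = a := by
      apply hinj
      show (τ x.1.1 - τ y.1.1) • a' = (τ x.1.1 - τ y.1.1) • a
      rw [ha', h1', h2', sub_smul]
      abel
    subst haa
    refine Prod.ext rfl ?_
    show b' = x.1.2 - τ x.1.1 • a'
    rw [h1']
    abel

theorem td_quad
    (hD : ∀ i i' j j' g k : Option I, i ≠ j → i ≠ j' → i' ≠ j → i' ≠ j' → i ≠ g → i ≠ k →
      i' ≠ g → i' ≠ k → j ≠ g → j ≠ k → j' ≠ g → j' ≠ k →
      ∀ w : W, dtm (τ i) (τ i') (τ j) (τ j') (τ g) (τ k) • w = 0 → w = 0)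
    (B1 B2 B3 B4 : W × W) (x x' y y' s t : Pt I V) (h1x : Inc τ V B1 x) (h1y : Inc τ V B1 y)
    (h1s : Inc τ V B1 s) (h2x : Inc τ V B2 x') (h2y : Inc τ V B2 y') (h2s : Inc τ V B2 s)
    (h3x : Inc τ V B3 x) (h3y : Inc τ V B3 y') (h3t : Inc τ V B3 t) (h4x : Inc τ V B4 x')
    (h4y : Inc τ V B4 y) (h4t : Inc τ V B4 t)
    (n1 : x.1.1 ≠ y.1.1) (n2 : x.1.1 ≠ s.1.1) (n3 : y.1.1 ≠ s.1.1) (n4 : x'.1.1 ≠ y'.1.1)
    (n5 : x'.1.1 ≠ s.1.1) (n6 : y'.1.1 ≠ s.1.1) (n7 : x.1.1 ≠ y'.1.1) (n8 : x.1.1 ≠ t.1.1)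
    (n9 : y'.1.1 ≠ t.1.1) (n10 : x'.1.1 ≠ y.1.1) (n11 : x'.1.1 ≠ t.1.1) (n12 : y.1.1 ≠ t.1.1) :
    B1 = B2 := by
  have e1 : τ x.1.1 • B1.1 + B1.2 = τ x.1.1 • B3.1 + B3.2 := h1x.symm.trans h3x
  have e2 : τ y.1.1 • B1.1 + B1.2 = τ y.1.1 • B4.1 + B4.2 := h1y.symm.trans h4y
  have e3 : τ s.1.1 • B1.1 + B1.2 = τ s.1.1 • B2.1 + B2.2 := h1s.symm.trans h2s
  have e4 : τ x'.1.1 • B2.1 + B2.2 = τ x'.1.1 • B4.1 + B4.2 := h2x.symm.trans h4x
  have e5 : τ y'.1.1 • B2.1 + B2.2 = τ y'.1.1 • B3.1 + B3.2 := h2y.symm.trans h3y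
  have e6 : τ t.1.1 • B3.1 + B3.2 = τ t.1.1 • B4.1 + B4.2 := h3t.symm.trans h4t
  have key : dtm (τ x.1.1) (τ x'.1.1) (τ y.1.1) (τ y'.1.1) (τ s.1.1) (τ t.1.1) •
      (B2.1 - B1.1) = 0 := by
    unfold dtm
    generalize τ x.1.1 = i at *
    generalize τ x'.1.1 = i' at *
    generalize τ y.1.1 = j at *
    generalize τ y'.1.1 = j' at *
    generalize τ s.1.1 = g at *
    generalize τ t.1.1 = k at *
    have f1 : (j' - g) • (B2.1 - B1.1) = (j' - i) • (B3.1 - B1.1) := by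
      linear_combination (norm := module) e5 - e1 + e3
    have f2 : (i' - g) • (B2.1 - B1.1) = (i' - j) • (B4.1 - B1.1) := by
      linear_combination (norm := module) e4 - e2 + e3
    have f3 : (k - i) • (B3.1 - B1.1) = (k - j) • (B4.1 - B1.1) := by
      linear_combination (norm := module) e6 + e1 - e2
    linear_combination (norm := module) ((i' - j) * (k - i)) • f1 + ((i' - j) * (j' - i)) • f3 -
      ((j' - i) * (k - j)) • f2
  have h1 : B2.1 - B1.1 = 0 := hD x.1.1 x'.1.1 y.1.1 y'.1.1 s.1.1 t.1.1 n1 n7 n10 n4 n2 n8 n5 n11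
    n3 n12 n6 n9 _ key
  have h2 : B1.1 = B2.1 := (sub_eq_zero.1 h1).symm
  refine Prod.ext h2 ?_
  rw [h2] at e3
  exact add_left_cancel e3


omit [Fintype W] in
theorem bF_fst (Fs : I → I → I) (Fo : Option I → Option I → Option I) (B : W × W) (z : Pt I V)
    (hz : Inc τ V B z) (hz0 : z.1.1 = none) (x y : Pt I V) :
    (bF τ V Fs Fo B x y).1.1 = Fo x.1.1 y.1.1 := by
  have he : τ none • B.1 + B.2 ∈ V := by
    have h1 := z.2 hz0
    have h2 : z.1.2 = τ z.1.1 • B.1 + B.2 := hz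
    rw [h2, hz0] at h1
    exact h1
  have hb : bop τ V Fs Fo B x.1.1 y.1.1 = Fo x.1.1 y.1.1 := by
    unfold bop
    rw [if_pos he]
  have hc : (bop τ V Fs Fo B x.1.1 y.1.1 = none →
      τ (bop τ V Fs Fo B x.1.1 y.1.1) • B.1 + B.2 ∈ V) := by
    intro h
    rw [h]
    exact he
  unfold bF
  rw [dif_pos hc]
  exact hb

theorem td_bad {Fs : I → I → I} (hFs : IsFrame Fs) {Fo : Option I → Option I → Option I}
    (hFo : IsFrame Fo) (hd : ∀ i j, i ≠ j → ∀ w : W, (τ i - τ j) • w = 0 → w = 0)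
    (G : W → W → W) (LV : V → V → V)
    (hbad : ∀ i j g k : Option I, i ≠ j → i ≠ g → i ≠ k → j ≠ g → j ≠ k → g ≠ k →
      ∀ γ d' d'' : W, ((τ k - τ i) * (τ g - τ j)) • d' = ((τ g - τ i) * (τ k - τ j)) • d'' →
      G (γ + d'') (γ + d') = γ → d' = 0 ∧ d'' = 0)
    (B1 B3 B4 : W × W) (x y x' y' s t : Pt I V) (h1x : Inc τ V B1 x) (h1y : Inc τ V B1 y)
    (h1s : Inc τ V B1 s) (e1 : bF τ V Fs Fo B1 x y = s) (n1 : x.1.1 ≠ y.1.1)
    (n2 : x.1.1 ≠ s.1.1) (n3 : y.1.1 ≠ s.1.1) (hx' : x'.1.1 = s.1.1) (hy' : y'.1.1 = s.1.1)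
    (eG : gG V G LV x' y' = s) (h3x : Inc τ V B3 x) (h3y : Inc τ V B3 y') (h3t : Inc τ V B3 t)
    (e3 : bF τ V Fs Fo B3 x y' = t) (n4 : t.1.1 ≠ x.1.1) (n5 : t.1.1 ≠ s.1.1)
    (h4x : Inc τ V B4 x') (h4y : Inc τ V B4 y) (h4t : Inc τ V B4 t)
    (e4 : bF τ V Fs Fo B4 x' y = t) (n6 : t.1.1 ≠ y.1.1) : False := by
  by_cases hs : s.1.1 = none
  · have f1 : Fo x.1.1 y.1.1 = none := by
      rw [← bF_fst τ V Fs Fo B1 s h1s hs x y, e1, hs]
    have f3 : Fo x.1.1 none = t.1.1 := by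
      rw [← e3, bF_fst τ V Fs Fo B3 y' h3y (hy'.trans hs) x y', hy', hs]
    have f4 : Fo none y.1.1 = t.1.1 := by
      rw [← e4, bF_fst τ V Fs Fo B4 x' h4x (hx'.trans hs) x' y, hx', hs]
    rw [hs] at n2 n3
    exact hFo.diag none (x.1.1, y.1.1) ⟨n2.symm, n3.symm, (hFo.idem none).trans f1.symm,
      f4.trans f3.symm⟩
  · have hx0 : x'.1.1 ≠ none := by rw [hx']; exact hs
    have eG2 : G x'.1.2 y'.1.2 = s.1.2 := by
      have h1 := congrArg (fun p : Pt I V => p.1.2) eG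
      unfold gG at h1
      rw [dif_neg (fun h => hx0 h.1), dif_neg hx0] at h1
      exact h1
    have a1 : x.1.2 = τ x.1.1 • B1.1 + B1.2 := h1x
    have a2 : y.1.2 = τ y.1.1 • B1.1 + B1.2 := h1y
    have a3 : s.1.2 = τ s.1.1 • B1.1 + B1.2 := h1s
    have a4 : x.1.2 = τ x.1.1 • B3.1 + B3.2 := h3x
    have a5 : y'.1.2 = τ s.1.1 • B3.1 + B3.2 := by rw [← hy']; exact h3y
    have a6 : t.1.2 = τ t.1.1 • B3.1 + B3.2 := h3t
    have a7 : x'.1.2 = τ s.1.1 • B4.1 + B4.2 := by rw [← hx']; exact h4x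
    have a8 : y.1.2 = τ y.1.1 • B4.1 + B4.2 := h4y
    have a9 : t.1.2 = τ t.1.1 • B4.1 + B4.2 := h4t
    have c1 : y'.1.2 - s.1.2 = (τ s.1.1 - τ x.1.1) • (B3.1 - B1.1) := by
      linear_combination (norm := module) a5 - a3 - a4 + a1
    have c2 : x'.1.2 - s.1.2 = (τ s.1.1 - τ y.1.1) • (B4.1 - B1.1) := by
      linear_combination (norm := module) a7 - a3 - a8 + a2
    have c3 : (τ t.1.1 - τ x.1.1) • (B3.1 - B1.1) = (τ t.1.1 - τ y.1.1) • (B4.1 - B1.1) := by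
      linear_combination (norm := module) a9 - a6 + a4 - a1 - a8 + a2
    have key : ((τ t.1.1 - τ x.1.1) * (τ s.1.1 - τ y.1.1)) • (y'.1.2 - s.1.2) =
        ((τ s.1.1 - τ x.1.1) * (τ t.1.1 - τ y.1.1)) • (x'.1.2 - s.1.2) := by
      rw [c1, c2]
      linear_combination (norm := module)
        ((τ s.1.1 - τ x.1.1) * (τ s.1.1 - τ y.1.1)) • c3
    obtain ⟨z1, z2⟩ := hbad x.1.1 y.1.1 s.1.1 t.1.1 n1 n2 n4.symm n3 n6.symm n5.symm s.1.2
      (y'.1.2 - s.1.2) (x'.1.2 - s.1.2) key (by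
        rw [add_sub_cancel, add_sub_cancel]
        exact eG2)
    have w1 : y' = s := Subtype.ext (Prod.ext hy' (sub_eq_zero.1 z1))
    have w2 : x' = s := Subtype.ext (Prod.ext hx' (sub_eq_zero.1 z2))
    subst w1
    subst w2
    have hB3 : B3 = B1 := (td_block τ V hd x x' n2).unique ⟨h3x, h3y⟩ ⟨h1x, h1s⟩
    have hB4 : B4 = B1 := (td_block τ V hd y x' n3).unique ⟨h4y, h4x⟩ ⟨h1y, h1s⟩
    subst hB3
    subst hB4
    refine bF_diag τ V hFs hFo _ x' (x, y) h1s h1x h1y ⟨fun h => n2 (by rw [h]),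
      fun h => n3 (by rw [h]), ?_, ?_⟩
    · rw [bF_idem τ V hFs hFo _ x' h1s]
      exact e1.symm
    · exact e4.trans e3.symm

end Pool.Agent.H4
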