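import Pool.Agent.H4.TdDefs

/-!
# [H4-TC] The latin squares inside the groups

`gG V G LV` on two points of the group `some i` is `G` on the second coordinates, and on two points
of the group `none` it is `LV` (on the subtype `V`).  The points of the group `some i` are in
bijection with `W`, the points of the group `none` with `V`.  All statements are transports of
`IsLatinSquare G`, `IsHomogeneous 4 G` (use `isHomogeneous_iff`) and the same for `LV`.
In `gG_four`, case index `some i`: the corners `q` are exactly `((some i, a), (some i, b))` with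
`Corner G x.2 y.2 (a, b)`.
-/

namespace Pool.Agent.H4

theorem tc_row {α P : Type} (m : α → P) (hm : Function.Injective m) (R : P → Prop)
    (hR : ∀ a, R (m a)) (hs : ∀ x, R x → ∃ a, m a = x) (L : α → α → α) (F : P → P → P)
    (hF : ∀ a b, F (m a) (m b) = m (L a b)) (hL : IsLatinSquare L) (x s : P) (hx : R x) (hS : R s) :
    ∃! y : P, R y ∧ F x y = s := by
  obtain ⟨a, rfl⟩ := hs x hx
  obtain ⟨t, rfl⟩ := hs s hS
  obtain ⟨c, hc, hu⟩ := hL.1 a t
  refine ⟨m c, ⟨hR c, by rw [hF, hc]⟩, ?_⟩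
  rintro y ⟨hy, hy2⟩
  obtain ⟨b, rfl⟩ := hs y hy
  rw [hF] at hy2
  rw [hu b (hm hy2)]

theorem tc_col {α P : Type} (m : α → P) (hm : Function.Injective m) (R : P → Prop)
    (hR : ∀ a, R (m a)) (hs : ∀ x, R x → ∃ a, m a = x) (L : α → α → α) (F : P → P → P)
    (hF : ∀ a b, F (m a) (m b) = m (L a b)) (hL : IsLatinSquare L) (y s : P) (hy : R y) (hS : R s) :
    ∃! x : P, R x ∧ F x y = s := by
  obtain ⟨a, rfl⟩ := hs y hy
  obtain ⟨t, rfl⟩ := hs s hS
  obtain ⟨c, hc, hu⟩ := hL.2 a t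
  refine ⟨m c, ⟨hR c, by rw [hF, hc]⟩, ?_⟩
  rintro x ⟨hx, hx2⟩
  obtain ⟨b, rfl⟩ := hs x hx
  rw [hF] at hx2
  rw [hu b (hm hx2)]

theorem tc_four {α P : Type} (m : α → P) (hm : Function.Injective m) (R : P → Prop)
    (hR : ∀ a, R (m a)) (hs : ∀ x, R x → ∃ a, m a = x) (L : α → α → α) (F : P → P → P)
    (hF : ∀ a b, F (m a) (m b) = m (L a b)) (hL : IsHomogeneous 4 L) (x y : P) (hx : R x)
    (hy : R y) :
    Nat.card {q : P × P // R q.1 ∧ R q.2 ∧ Corner F x y q} = 4 := by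
  obtain ⟨a, rfl⟩ := hs x hx
  obtain ⟨b, rfl⟩ := hs y hy
  rw [← (isHomogeneous_iff 4 L).1 hL a b]
  symm
  refine Nat.card_congr (Equiv.ofBijective (fun q => ⟨(m q.1.1, m q.1.2), hR _, hR _, ?_⟩) ⟨?_, ?_⟩)
  · obtain ⟨h1, h2, h3, h4⟩ := q.2
    refine ⟨fun h => h1 (hm h), fun h => h2 (hm h), ?_, ?_⟩
    · show F (m a) (m b) = F (m q.1.1) (m q.1.2)
      rw [hF, hF, h3]
    · show F (m a) (m q.1.2) = F (m q.1.1) (m b)
      rw [hF, hF, h4]
  · rintro ⟨⟨c, d⟩, hq⟩ ⟨⟨c', d'⟩, hq'⟩ h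
    have h1 := congrArg Subtype.val h
    simp only [Prod.mk.injEq] at h1
    obtain ⟨h2, h3⟩ := h1
    apply Subtype.ext
    exact Prod.ext (hm h2) (hm h3)
  · rintro ⟨⟨u, w⟩, h1, h2, h3⟩
    obtain ⟨c, hc⟩ := hs u h1
    obtain ⟨d, hd⟩ := hs w h2
    obtain ⟨g1, g2, g3, g4⟩ := h3
    simp only at g1 g2 g3 g4
    subst hc
    subst hd
    refine ⟨⟨(c, d), fun h => g1 (congrArg m h), fun h => g2 (congrArg m h), ?_, ?_⟩, rfl⟩
    · rw [hF, hF] at g3
      exact hm g3
    · rw [hF, hF] at g4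
      exact hm g4

/-- The point of the group `none`. -/
def tc_N (I : Type) {W : Type} (V : Set W) (a : V) : Pt I V := ⟨(none, (a : W)), fun _ => a.2⟩

/-- The point of the group `some i`. -/
def tc_S {I W : Type} (V : Set W) (i : I) (w : W) : Pt I V := ⟨(some i, w), fun h => by simp at h⟩

theorem tc_N_inj (I : Type) {W : Type} (V : Set W) : Function.Injective (tc_N I V) := by
  intro a b h
  have h1 := congrArg Subtype.val h
  exact Subtype.ext (congrArg Prod.snd h1)

theorem tc_S_inj {I W : Type} (V : Set W) (i : I) : Function.Injective (tc_S V i) := by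
  intro a b h
  have h1 := congrArg Subtype.val h
  exact congrArg Prod.snd h1

theorem tc_N_surj {I W : Type} (V : Set W) (x : Pt I V) (hx : x.1.1 = none) :
    ∃ a, tc_N I V a = x :=
  ⟨⟨x.1.2, x.2 hx⟩, Subtype.ext (Prod.ext hx.symm rfl)⟩

theorem tc_S_surj {I W : Type} (V : Set W) (i : I) (x : Pt I V) (hx : x.1.1 = some i) :
    ∃ a, tc_S V i a = x :=
  ⟨x.1.2, Subtype.ext (Prod.ext hx.symm rfl)⟩

theorem tc_gN {I W : Type} (V : Set W) (G : W → W → W) (LV : V → V → V) (a b : V) :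
    gG V G LV (tc_N I V a) (tc_N I V b) = tc_N I V (LV a b) := by
  unfold gG
  rw [dif_pos ⟨rfl, rfl⟩]
  rfl

theorem tc_gS {I W : Type} (V : Set W) (G : W → W → W) (LV : V → V → V) (i : I) (a b : W) :
    gG V G LV (tc_S V i a) (tc_S V i b) = tc_S V i (G a b) := by
  unfold gG
  rw [dif_neg (fun h => by
    have h1 : (some i : Option I) = none := h.1
    simp at h1), dif_neg (fun h => by
    have h1 : (some i : Option I) = none := h
    simp at h1)]
  rfl

variable {I W : Type} (V : Set W) {G : W → W → W} (hG : IsLatinSquare G) {LV : V → V → V}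
  (hLV : IsLatinSquare LV)

theorem gG_c (G : W → W → W) (LV : V → V → V) (x y : Pt I V) (h : x.1.1 = y.1.1) :
    (gG V G LV x y).1.1 = x.1.1 := by
  unfold gG
  split_ifs with h1 h2
  · exact h1.1.symm
  · rfl
  · rfl

include hG hLV

theorem gG_row (x s : Pt I V) (h : x.1.1 = s.1.1) :
    ∃! y : Pt I V, y.1.1 = x.1.1 ∧ gG V G LV x y = s := by
  rcases hx : x.1.1 with _ | i
  · rw [hx] at h
    exact tc_row (tc_N I V) (tc_N_inj I V) (fun y => y.1.1 = none) (fun _ => rfl) (tc_N_surj V) LV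
      (gG V G LV) (tc_gN V G LV) hLV x s hx h.symm
  · rw [hx] at h
    exact tc_row (tc_S V i) (tc_S_inj V i) (fun y => y.1.1 = some i) (fun _ => rfl)
      (tc_S_surj V i) G (gG V G LV) (tc_gS V G LV i) hG x s hx h.symm

theorem gG_col (y s : Pt I V) (h : y.1.1 = s.1.1) :
    ∃! x : Pt I V, x.1.1 = y.1.1 ∧ gG V G LV x y = s := by
  rcases hy : y.1.1 with _ | i
  · rw [hy] at h
    exact tc_col (tc_N I V) (tc_N_inj I V) (fun y => y.1.1 = none) (fun _ => rfl) (tc_N_surj V) LV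
      (gG V G LV) (tc_gN V G LV) hLV y s hy h.symm
  · rw [hy] at h
    exact tc_col (tc_S V i) (tc_S_inj V i) (fun y => y.1.1 = some i) (fun _ => rfl)
      (tc_S_surj V i) G (gG V G LV) (tc_gS V G LV i) hG y s hy h.symm

omit hG hLV in
theorem gG_four (hG4 : IsHomogeneous 4 G) (hLV4 : IsHomogeneous 4 LV) (x y : Pt I V)
    (h : x.1.1 = y.1.1) :
    Nat.card {q : Pt I V × Pt I V // q.1.1.1 = x.1.1 ∧ q.2.1.1 = x.1.1 ∧
      Corner (gG V G LV) x y q} = 4 := by
  rcases hx : x.1.1 with _ | i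
  · rw [hx] at h
    exact tc_four (tc_N I V) (tc_N_inj I V) (fun y => y.1.1 = none) (fun _ => rfl) (tc_N_surj V) LV
      (gG V G LV) (tc_gN V G LV) hLV4 x y hx h.symm
  · rw [hx] at h
    exact tc_four (tc_S V i) (tc_S_inj V i) (fun y => y.1.1 = some i) (fun _ => rfl)
      (tc_S_surj V i) G (gG V G LV) (tc_gS V G LV i) hG4 x y hx h.symm

end Pool.Agent.H4
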