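import Pool.Agent.H4.Gdd
import Pool.Agent.H4.TdB
import Pool.Agent.H4.TdC

/-!
# Assembly of the design: a 4-homogeneous square of order `|I| |W| + v`
-/

namespace Pool.Agent.H4

/-- The points are `I × W` and `V`. -/
noncomputable def ptEquiv (I : Type) {W : Type} (V : Set W) : Pt I V ≃ (I × W) ⊕ V where
  toFun x := match x with
    | ⟨(none, w), h⟩ => Sum.inr ⟨w, h rfl⟩
    | ⟨(some i, w), _⟩ => Sum.inl (i, w)
  invFun y := match y with
    | Sum.inr w => ⟨(none, w.1), fun _ => w.2⟩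
    | Sum.inl (i, w) => ⟨(some i, w), fun h => by simp at h⟩
  left_inv x := by
    rcases x with ⟨⟨_ | i, w⟩, h⟩ <;> rfl
  right_inv y := by
    rcases y with ⟨i, w⟩ | w <;> rfl

theorem td {I : Type} [Fintype I] {Fs : I → I → I} (hFs : IsFrame Fs)
    {Fo : Option I → Option I → Option I} (hFo : IsFrame Fo)
    {W : Type} [AddCommGroup W] [Fintype W] (τ : Option I → ℤ)
    (hd : ∀ i j, i ≠ j → ∀ w : W, (τ i - τ j) • w = 0 → w = 0)
    (hD : ∀ i i' j j' g k : Option I, i ≠ j → i ≠ j' → i' ≠ j → i' ≠ j' → i ≠ g → i ≠ k →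
      i' ≠ g → i' ≠ k → j ≠ g → j ≠ k → j' ≠ g → j' ≠ k →
      ∀ w : W, dtm (τ i) (τ i') (τ j) (τ j') (τ g) (τ k) • w = 0 → w = 0)
    {G : W → W → W} (hG : IsLatinSquare G) (hG4 : IsHomogeneous 4 G)
    (hbad : ∀ i j g k : Option I, i ≠ j → i ≠ g → i ≠ k → j ≠ g → j ≠ k → g ≠ k →
      ∀ γ d' d'' : W, ((τ k - τ i) * (τ g - τ j)) • d' = ((τ g - τ i) * (τ k - τ j)) • d'' →
      G (γ + d'') (γ + d') = γ → d' = 0 ∧ d'' = 0)
    {v : ℕ} (hv : v ≤ Fintype.card W) (hv4 : Ord4 v) :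
    Ord4 (Fintype.card I * Fintype.card W + v) := by
  classical
  obtain ⟨M, hM, hM4⟩ := hv4
  obtain ⟨ι⟩ : Nonempty (Fin v ↪ W) :=
    Function.Embedding.nonempty_of_card_le (by simpa using hv)
  let V : Set W := Set.range ι
  let e : Fin v ≃ V := Equiv.ofInjective ι ι.injective
  obtain ⟨L, hL, hL4⟩ := gdd (X := Pt I V) (Γ := Option I) (β := W × W) (fun x => x.1.1)
    (Inc τ V) (fun B x y hx hy h => td_same τ V B x y hx hy h)
    (fun x y h => td_block τ V hd x y h)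
    (bF τ V Fs Fo) (fun B x y hx hy => bF_mem τ V hFs hFo B x y hx hy)
    (fun B x hx => bF_idem τ V hFs hFo B x hx)
    (fun B x s hx hs => bF_row τ V hFs hFo B x s hx hs)
    (fun B y s hy hs => bF_col τ V hFs hFo B y s hy hs)
    (fun B x y hx hy hxy => bF_four τ V hFs hFo B x y hx hy hxy)
    (fun B x q hx h1 h2 => bF_diag τ V hFs hFo B x q hx h1 h2)
    (gG V G (transport e M))
    (fun x y h => gG_c V G _ x y h)
    (fun x s h => gG_row V hG (transport_latin e hM) x s h)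
    (fun y s h => gG_col V hG (transport_latin e hM) y s h)
    (fun x y h => gG_four V hG4 (transport_homogeneous e hM4) x y h)
    (fun B1 B2 B3 B4 x x' y y' s t h1x h1y h1s h2x h2y h2s h3x h3y h3t h4x h4y h4t
      n1 n2 n3 n4 n5 n6 n7 n8 n9 n10 n11 n12 =>
      td_quad τ V hD B1 B2 B3 B4 x x' y y' s t h1x h1y h1s h2x h2y h2s h3x h3y h3t h4x h4y h4t
        n1 n2 n3 n4 n5 n6 n7 n8 n9 n10 n11 n12)
    (fun B1 B3 B4 x y x' y' s t h1x h1y h1s e1 n1 n2 n3 hx' hy' eG h3x h3y h3t e3 n4 n5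
      h4x h4y h4t e4 n6 =>
      td_bad τ V hFs hFo hd G _ hbad B1 B3 B4 x y x' y' s t h1x h1y h1s e1 n1 n2 n3 hx' hy' eG
        h3x h3y h3t e3 n4 n5 h4x h4y h4t e4 n6)
  have := ord4_of hL hL4
  rwa [Fintype.card_congr (ptEquiv I V), Fintype.card_sum, Fintype.card_prod,
    ← Fintype.card_congr e, Fintype.card_fin] at this

end Pool.Agent.H4
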