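import Pool.Agent.H4.TdDefs

/-!
# [H4-TA] The frames on the blocks

Let `B : W × W`, `e = τ none • B.1 + B.2`.  If `e ∈ V` the points on `B` are the
`⟨(k, τ k • B.1 + B.2), _⟩`, `k : Option I`, and `bF B` is `Fo` on the indices.  If `e ∉ V` the
points on `B` are the `⟨(some i, τ (some i) • B.1 + B.2), _⟩`, `i : I` (a point with index `none`
would have second coordinate `e ∈ V`), and `bF B` is `Fs` on the indices.  A point on `B` is
determined by its index.  In both cases the dependent `if` in `bF` is true for points on `B`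
(if `bop .. = none` then we are in the case `e ∈ V`, because the second case of `bop` on two indices
`some a`, `some b` is `some _`; then the membership is `e ∈ V`).
So all statements are transports of `IsFrame Fo`, `IsFrame Fs` along the bijection
index <-> point of `B`.  Suggestion: first a lemma that for every `B` there is an injective
`P : J → Pt I V` (`J = Option I` or `J = I`) with range `{x | Inc τ V B x}` and a frame `Φ` on `J` with
`bF B (P i) (P j) = P (Φ i j)`; derive the six statements from it once.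
-/

namespace Pool.Agent.H4

variable {I W : Type} [AddCommGroup W] (τ : Option I → ℤ) (V : Set W)
  {Fs : I → I → I} (hFs : IsFrame Fs) {Fo : Option I → Option I → Option I} (hFo : IsFrame Fo)

include hFs hFo

omit hFs hFo in
theorem bF_setup (hFs : IsFrame Fs) (hFo : IsFrame Fo) (B : W × W) :
    ∃ (J : Type) (P : J → Pt I V) (Φ : J → J → J), IsFrame Φ ∧ Function.Injective P ∧
      (∀ x, Inc τ V B x ↔ ∃ j, P j = x) ∧
      ∀ i j, bF τ V Fs Fo B (P i) (P j) = P (Φ i j) := by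
  by_cases he : τ none • B.1 + B.2 ∈ V
  · refine ⟨Option I, fun k => ⟨(k, τ k • B.1 + B.2), fun h => ?_⟩, Fo, hFo, ?_, ?_, ?_⟩
    · have h' : k = none := h
      subst h'
      exact he
    · intro a b h
      have h1 := congrArg Subtype.val h
      exact (Prod.mk.inj h1).1
    · intro x
      constructor
      · intro hx
        exact ⟨x.1.1, Subtype.ext (Prod.ext rfl hx.symm)⟩
      · rintro ⟨k, rfl⟩
        rfl
    · intro i j
      have hb : bop τ V Fs Fo B i j = Fo i j := by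
        unfold bop
        rw [if_pos he]
      have hc : (bop τ V Fs Fo B i j = none →
          τ (bop τ V Fs Fo B i j) • B.1 + B.2 ∈ V) := by
        intro h
        rw [h]
        exact he
      unfold bF
      rw [dif_pos hc]
      apply Subtype.ext
      simp only [hb]
  · refine ⟨I, fun k => ⟨(some k, τ (some k) • B.1 + B.2), fun h => ?_⟩, Fs, hFs, ?_, ?_, ?_⟩
    · exact absurd h (Option.some_ne_none k)
    · intro a b h
      have h1 := congrArg Subtype.val h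
      exact Option.some.inj (Prod.mk.inj h1).1
    · intro x
      constructor
      · intro hx
        rcases x with ⟨⟨_ | i, w⟩, hw⟩
        · exfalso
          apply he
          have h1 : w = τ none • B.1 + B.2 := hx
          rw [← h1]
          exact hw rfl
        · exact ⟨i, Subtype.ext (Prod.ext rfl hx.symm)⟩
      · rintro ⟨k, rfl⟩
        rfl
    · intro i j
      have hb : bop τ V Fs Fo B (some i) (some j) = some (Fs i j) := by
        unfold bop
        rw [if_neg he]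
      have hc : (bop τ V Fs Fo B (some i) (some j) = none →
          τ (bop τ V Fs Fo B (some i) (some j)) • B.1 + B.2 ∈ V) := by
        intro h
        rw [hb] at h
        exact absurd h (Option.some_ne_none _)
      unfold bF
      rw [dif_pos hc]
      apply Subtype.ext
      simp only [hb]

theorem bF_mem (B : W × W) (x y : Pt I V) (hx : Inc τ V B x) (hy : Inc τ V B y) :
    Inc τ V B (bF τ V Fs Fo B x y) := by
  obtain ⟨J, P, Φ, hΦ, hP, hI, hb⟩ := bF_setup τ V hFs hFo B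
  obtain ⟨i, rfl⟩ := (hI x).1 hx
  obtain ⟨j, rfl⟩ := (hI y).1 hy
  rw [hb]
  exact (hI _).2 ⟨_, rfl⟩

theorem bF_idem (B : W × W) (x : Pt I V) (hx : Inc τ V B x) : bF τ V Fs Fo B x x = x := by
  obtain ⟨J, P, Φ, hΦ, hP, hI, hb⟩ := bF_setup τ V hFs hFo B
  obtain ⟨i, rfl⟩ := (hI x).1 hx
  rw [hb, hΦ.idem]

theorem bF_row (B : W × W) (x s : Pt I V) (hx : Inc τ V B x) (hs : Inc τ V B s) :
    ∃! y, Inc τ V B y ∧ bF τ V Fs Fo B x y = s := by
  obtain ⟨J, P, Φ, hΦ, hP, hI, hb⟩ := bF_setup τ V hFs hFo B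
  obtain ⟨i, rfl⟩ := (hI x).1 hx
  obtain ⟨k, rfl⟩ := (hI s).1 hs
  obtain ⟨j, hj, hu⟩ := hΦ.latin.1 i k
  refine ⟨P j, ⟨(hI _).2 ⟨_, rfl⟩, by rw [hb, hj]⟩, ?_⟩
  rintro y ⟨hy, hy'⟩
  obtain ⟨j', rfl⟩ := (hI y).1 hy
  rw [hb] at hy'
  rw [hu j' (hP hy')]

theorem bF_col (B : W × W) (y s : Pt I V) (hy : Inc τ V B y) (hs : Inc τ V B s) :
    ∃! x, Inc τ V B x ∧ bF τ V Fs Fo B x y = s := by
  obtain ⟨J, P, Φ, hΦ, hP, hI, hb⟩ := bF_setup τ V hFs hFo B
  obtain ⟨j, rfl⟩ := (hI y).1 hy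
  obtain ⟨k, rfl⟩ := (hI s).1 hs
  obtain ⟨i, hi, hu⟩ := hΦ.latin.2 j k
  refine ⟨P i, ⟨(hI _).2 ⟨_, rfl⟩, by rw [hb, hi]⟩, ?_⟩
  rintro x ⟨hx, hx'⟩
  obtain ⟨i', rfl⟩ := (hI x).1 hx
  rw [hb] at hx'
  rw [hu i' (hP hx')]

theorem bF_four (B : W × W) (x y : Pt I V) (hx : Inc τ V B x) (hy : Inc τ V B y) (hxy : x ≠ y) :
    Nat.card {q : Pt I V × Pt I V // Inc τ V B q.1 ∧ Inc τ V B q.2 ∧
      Corner (bF τ V Fs Fo B) x y q} = 4 := by
  obtain ⟨J, P, Φ, hΦ, hP, hI, hb⟩ := bF_setup τ V hFs hFo B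
  obtain ⟨i, rfl⟩ := (hI x).1 hx
  obtain ⟨j, rfl⟩ := (hI y).1 hy
  have hij : i ≠ j := fun h => hxy (by rw [h])
  have hC : ∀ a b, Corner (bF τ V Fs Fo B) (P i) (P j) (P a, P b) ↔ Corner Φ i j (a, b) := by
    intro a b
    unfold Corner
    simp only [hb]
    simp only [ne_eq, hP.eq_iff]
  rw [← hΦ.off i j hij]
  symm
  refine Nat.card_congr (Equiv.ofBijective (fun q => ⟨(P q.1.1, P q.1.2),
    (hI _).2 ⟨_, rfl⟩, (hI _).2 ⟨_, rfl⟩, (hC _ _).2 q.2⟩) ⟨?_, ?_⟩)
  · rintro ⟨⟨a, b⟩, h⟩ ⟨⟨a', b'⟩, h'⟩ he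
    have h1 := Prod.mk.inj (congrArg Subtype.val he)
    have h2 : a = a' := hP h1.1
    have h3 : b = b' := hP h1.2
    subst h2
    subst h3
    rfl
  · rintro ⟨⟨u, w⟩, hu, hw, hc⟩
    obtain ⟨a, rfl⟩ := (hI u).1 hu
    obtain ⟨b, rfl⟩ := (hI w).1 hw
    exact ⟨⟨(a, b), (hC a b).1 hc⟩, rfl⟩

theorem bF_diag (B : W × W) (x : Pt I V) (q : Pt I V × Pt I V) (hx : Inc τ V B x)
    (h1 : Inc τ V B q.1) (h2 : Inc τ V B q.2) : ¬ Corner (bF τ V Fs Fo B) x x q := by
  obtain ⟨J, P, Φ, hΦ, hP, hI, hb⟩ := bF_setup τ V hFs hFo B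
  obtain ⟨i, rfl⟩ := (hI x).1 hx
  rcases q with ⟨u, w⟩
  obtain ⟨a, rfl⟩ := (hI u).1 h1
  obtain ⟨b, rfl⟩ := (hI w).1 h2
  intro hc
  apply hΦ.diag i (a, b)
  unfold Corner at hc ⊢
  simp only [hb] at hc
  simpa only [ne_eq, hP.eq_iff] using hc

end Pool.Agent.H4
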