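import Pool.Agent.H4.Basic

/-!
# Transversal design over a finite abelian group `W` with integer labels: definitions

Groups are indexed by `Option I`; the group `none` is truncated to the subset `V` of `W`.
The block `B = (a, b) : W × W` has the point `(k, τ k • a + b)` in the group `k`.
-/

namespace Pool.Agent.H4

/-- The points: `(k, w)` with `k : Option I`, `w : W`, and `w ∈ V` if `k = none`. -/
abbrev Pt (I : Type) {W : Type} (V : Set W) : Type := {x : Option I × W // x.1 = none → x.2 ∈ V}

/-- The point `x` is on the block `B`. -/
def Inc {I W : Type} [AddCommGroup W] (τ : Option I → ℤ) (V : Set W) (B : W × W)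
    (x : Pt I V) : Prop :=
  x.1.2 = τ x.1.1 • B.1 + B.2

open Classical in
/-- The frame of the block `B` on the indices: `Fo` if the block has a point in the last group, and
`Fs` on the indices `some i` otherwise. -/
noncomputable def bop {I W : Type} [AddCommGroup W] (τ : Option I → ℤ) (V : Set W)
    (Fs : I → I → I) (Fo : Option I → Option I → Option I) (B : W × W) (i j : Option I) :
    Option I :=
  if τ none • B.1 + B.2 ∈ V then Fo i j else
    match i, j with
    | some a, some b => some (Fs a b)
    | _, _ => i

open Classical in
/-- The frame of the block `B` on the points of the block. -/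
noncomputable def bF {I W : Type} [AddCommGroup W] (τ : Option I → ℤ) (V : Set W)
    (Fs : I → I → I) (Fo : Option I → Option I → Option I) (B : W × W) (x y : Pt I V) : Pt I V :=
  if h : (bop τ V Fs Fo B x.1.1 y.1.1 = none →
      τ (bop τ V Fs Fo B x.1.1 y.1.1) • B.1 + B.2 ∈ V) then
    ⟨(bop τ V Fs Fo B x.1.1 y.1.1, τ (bop τ V Fs Fo B x.1.1 y.1.1) • B.1 + B.2), h⟩
  else x

open Classical in
/-- The latin squares inside the groups: `G` on every group `some i`, `LV` on the last group. -/
noncomputable def gG {I W : Type} (V : Set W) (G : W → W → W) (LV : V → V → V)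
    (x y : Pt I V) : Pt I V :=
  if h : x.1.1 = none ∧ y.1.1 = none then
    ⟨(none, (LV ⟨x.1.2, x.2 h.1⟩ ⟨y.1.2, y.2 h.2⟩ : W)), fun _ => (LV _ _).2⟩
  else if h' : x.1.1 = none then x
  else ⟨(x.1.1, G x.1.2 y.1.2), fun h'' => absurd h'' h'⟩

/-- The determinant deciding whether the six labels of a complete quadrilateral are in
involution. -/
def dtm (i i' j j' g k : ℤ) : ℤ := (i' - j) * (j' - g) * (k - i) - (j' - i) * (k - j) * (i' - g)

end Pool.Agent.H4
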